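import Mathlib

/-!
# An energy inequality
-/

set_option linter.unusedSectionVars false
set_option linter.unusedVariables false

namespace Pool.Agent.Y291.DB

open MeasureTheory Real

/-- A solution of `φ_xx + φ_yy + q(x) φ = 0` with its derivatives. -/
structure Sol (q : ℝ → ℝ) (φ φx φxx φy φyy : ℝ → ℝ → ℝ) : Prop where
  qc : Continuous q
  c : Continuous (Function.uncurry φ)
  cx : Continuous (Function.uncurry φx)
  cxx : Continuous (Function.uncurry φxx)
  cy : Continuous (Function.uncurry φy)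
  cyy : Continuous (Function.uncurry φyy)
  dx : ∀ x y, HasDerivAt (fun t => φ t y) (φx x y) x
  dxx : ∀ x y, HasDerivAt (fun t => φx t y) (φxx x y) x
  dy : ∀ x y, HasDerivAt (fun t => φ x t) (φy x y) y
  dyy : ∀ x y, HasDerivAt (fun t => φy x t) (φyy x y) y
  pde : ∀ x y, φxx x y + φyy x y = -(q x * φ x y)

/-- The cut-off function. -/
noncomputable def eta (b c t : ℝ) : ℝ := (1 - ((t - c) / b) ^ 2) ^ 2

/-- Its second derivative. -/
noncomputable def eta2 (b c t : ℝ) : ℝ := (-4 + 12 * ((t - c) / b) ^ 2) / b ^ 2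

/-- Its first derivative. -/
noncomputable def eta1 (b c t : ℝ) : ℝ := -4 * ((t - c) / b) * (1 - ((t - c) / b) ^ 2) / b

theorem eta_deriv (b c t : ℝ) : HasDerivAt (eta b c) (eta1 b c t) t := by
  have h1 : HasDerivAt (fun t : ℝ => (t - c) / b) (1 / b) t :=
    ((hasDerivAt_id t).sub_const c).div_const b
  have h2 := ((h1.pow 2).const_sub 1).pow 2
  convert! h2 using 1
  unfold eta1
  simp
  ring

theorem eta1_deriv (b c t : ℝ) : HasDerivAt (eta1 b c) (eta2 b c t) t := by
  have h1 : HasDerivAt (fun t : ℝ => (t - c) / b) (1 / b) t :=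
    ((hasDerivAt_id t).sub_const c).div_const b
  have h2 := ((h1.const_mul (-4)).mul ((h1.pow 2).const_sub 1)).div_const b
  convert! h2 using 1
  unfold eta2
  simp
  by_cases hb : b = 0
  · simp [hb]
  · field_simp
    ring

theorem eta_cont (b c : ℝ) : Continuous (eta b c) :=
  continuous_iff_continuousAt.2 fun t => (eta_deriv b c t).continuousAt

theorem eta1_cont (b c : ℝ) : Continuous (eta1 b c) :=
  continuous_iff_continuousAt.2 fun t => (eta1_deriv b c t).continuousAt

theorem eta2_cont (b c : ℝ) : Continuous (eta2 b c) := by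
  unfold eta2
  fun_prop

theorem eta_nonneg (b c t : ℝ) : 0 ≤ eta b c t := sq_nonneg _

theorem sq_le_one {b c t : ℝ} (hb : 0 < b) (ht : |t - c| ≤ b) : ((t - c) / b) ^ 2 ≤ 1 := by
  rw [div_pow, div_le_one (by positivity), ← sq_abs]
  exact pow_le_pow_left₀ (abs_nonneg _) ht 2

theorem eta_le_one {b c t : ℝ} (hb : 0 < b) (ht : |t - c| ≤ b) : eta b c t ≤ 1 := by
  have h1 := sq_le_one hb ht
  unfold eta
  nlinarith [sq_nonneg ((t - c) / b)]

theorem eta2_le {b c t : ℝ} (hb : 0 < b) (ht : |t - c| ≤ b) : eta2 b c t ≤ 8 / b ^ 2 := by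
  have h1 := sq_le_one hb ht
  unfold eta2
  gcongr
  linarith

theorem eta_half {b c t : ℝ} (hb : 0 < b) (ht : |t - c| ≤ b / 2) : 1 / 2 ≤ eta b c t := by
  have h1 : ((t - c) / b) ^ 2 ≤ 1 / 4 := by
    rw [div_pow, div_le_iff₀ (by positivity), ← sq_abs]
    have := pow_le_pow_left₀ (abs_nonneg _) ht 2
    nlinarith
  unfold eta
  nlinarith [sq_nonneg ((t - c) / b)]

/-- The identity in one variable. -/
theorem one_var {f f' f'' : ℝ → ℝ} (h1 : ∀ t, HasDerivAt f (f' t) t)
    (h2 : ∀ t, HasDerivAt f' (f'' t) t) (h3 : Continuous f'') {b : ℝ} (hb : 0 < b) (c : ℝ) :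
    ∫ t in (c - b)..(c + b), eta b c t * f' t ^ 2 =
      ∫ t in (c - b)..(c + b), (1 / 2 * eta2 b c t * f t ^ 2 - eta b c t * f t * f'' t) := by
  have hf : Continuous f := continuous_iff_continuousAt.2 fun t => (h1 t).continuousAt
  have hf' : Continuous f' := continuous_iff_continuousAt.2 fun t => (h2 t).continuousAt
  have he := eta_cont b c
  have he2 := eta2_cont b c
  rw [← sub_eq_zero, ← intervalIntegral.integral_sub (Continuous.intervalIntegrable (by fun_prop) _ _)
    (Continuous.intervalIntegrable (by fun_prop) _ _)]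
  have hd : ∀ t ∈ Set.uIcc (c - b) (c + b), HasDerivAt
      (fun t => eta b c t * f t * f' t - 1 / 2 * eta1 b c t * f t ^ 2)
      (eta b c t * f' t ^ 2 - (1 / 2 * eta2 b c t * f t ^ 2 - eta b c t * f t * f'' t)) t := by
    intro t _
    have := (((eta_deriv b c t).mul (h1 t)).mul (h2 t)).sub
      (((eta1_deriv b c t).const_mul (1 / 2)).mul ((h1 t).pow 2))
    convert! this using 1
    simp
    ring
  rw [intervalIntegral.integral_eq_sub_of_hasDerivAt hd
    (Continuous.intervalIntegrable (by fun_prop) _ _)]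
  have e1 : (c + b - c) / b = 1 := by
    field_simp
    ring
  have e2 : (c - b - c) / b = -1 := by
    field_simp
    ring
  unfold eta eta1
  rw [e1, e2]
  ring

theorem swap {F : ℝ → ℝ → ℝ} (h : Continuous (Function.uncurry F)) (a b c d : ℝ) :
    ∫ x in a..b, ∫ y in c..d, F x y = ∫ y in c..d, ∫ x in a..b, F x y := by
  refine intervalIntegral_intervalIntegral_swap ?_
  have hK : IsCompact (Set.uIcc a b ×ˢ Set.uIcc c d) := isCompact_uIcc.prod isCompact_uIcc
  exact (h.continuousOn.integrableOn_compact hK).mono_set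
    (Set.prod_mono Set.uIoc_subset_uIcc Set.uIoc_subset_uIcc)

theorem int_cont {F : ℝ → ℝ → ℝ} (h : Continuous (Function.uncurry F)) (c d : ℝ) :
    Continuous fun x => ∫ y in c..d, F x y :=
  intervalIntegral.continuous_parametric_intervalIntegral_of_continuous' h c d

theorem mono2 {F G : ℝ → ℝ → ℝ} (hF : Continuous (Function.uncurry F))
    (hG : Continuous (Function.uncurry G)) {a b c d : ℝ} (hab : a ≤ b) (hcd : c ≤ d)
    (h : ∀ x ∈ Set.Icc a b, ∀ y ∈ Set.Icc c d, F x y ≤ G x y) :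
    ∫ x in a..b, ∫ y in c..d, F x y ≤ ∫ x in a..b, ∫ y in c..d, G x y := by
  refine intervalIntegral.integral_mono_on hab ((int_cont hF c d).intervalIntegrable _ _)
    ((int_cont hG c d).intervalIntegrable _ _) fun x hx => ?_
  refine intervalIntegral.integral_mono_on hcd ?_ ?_ fun y hy => h x hx y hy
  · exact (hF.comp (Continuous.prodMk_right x)).intervalIntegrable _ _
  · exact (hG.comp (Continuous.prodMk_right x)).intervalIntegrable _ _

theorem sub2 {F : ℝ → ℝ → ℝ} (hF : Continuous (Function.uncurry F)) {a b c d a' b' c' d' : ℝ}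
    (h1 : a' ≤ a) (h2 : a ≤ b) (h3 : b ≤ b') (h4 : c' ≤ c) (h5 : c ≤ d) (h6 : d ≤ d')
    (h : ∀ x y, 0 ≤ F x y) :
    ∫ x in a..b, ∫ y in c..d, F x y ≤ ∫ x in a'..b', ∫ y in c'..d', F x y := by
  have e1 : ∫ x in a..b, ∫ y in c..d, F x y ≤ ∫ x in a..b, ∫ y in c'..d', F x y := by
    refine intervalIntegral.integral_mono_on h2 ((int_cont hF c d).intervalIntegrable _ _)
      ((int_cont hF c' d').intervalIntegrable _ _) fun x hx => ?_
    exact intervalIntegral.integral_mono_interval h4 h5 h6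
      (Filter.Eventually.of_forall fun y => h x y)
      ((hF.comp (Continuous.prodMk_right x)).intervalIntegrable _ _)
  refine e1.trans ?_
  refine intervalIntegral.integral_mono_interval h1 h2 h3
    (Filter.Eventually.of_forall fun x => ?_) ((int_cont hF c' d').intervalIntegrable _ _)
  exact intervalIntegral.integral_nonneg (by linarith) fun y _ => h x y

theorem const2 {F : ℝ → ℝ → ℝ} (hF : Continuous (Function.uncurry F)) (b x0 y0 A B : ℝ) :
    ∫ x in (x0 - b / 2)..(x0 + b / 2), ∫ y in (y0 - b / 2)..(y0 + b / 2), (A + B * F x y) =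
      b ^ 2 * A + B * ∫ x in (x0 - b / 2)..(x0 + b / 2), ∫ y in (y0 - b / 2)..(y0 + b / 2), F x y := by
  have e1 : ∀ x, ∫ y in (y0 - b / 2)..(y0 + b / 2), (A + B * F x y) =
      b * A + B * ∫ y in (y0 - b / 2)..(y0 + b / 2), F x y := by
    intro x
    have kx : Continuous fun y => B * F x y :=
      continuous_const.mul (hF.comp (Continuous.prodMk_right x))
    rw [intervalIntegral.integral_add intervalIntegrable_const (kx.intervalIntegrable _ _),
      intervalIntegral.integral_const_mul, intervalIntegral.integral_const, smul_eq_mul]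
    have : y0 + b / 2 - (y0 - b / 2) = b := by ring
    rw [this]
  have hGc := int_cont hF (y0 - b / 2) (y0 + b / 2)
  have kx : Continuous fun x => B * ∫ y in (y0 - b / 2)..(y0 + b / 2), F x y :=
    continuous_const.mul hGc
  rw [intervalIntegral.integral_congr fun x _ => e1 x,
    intervalIntegral.integral_add intervalIntegrable_const (kx.intervalIntegrable _ _),
    intervalIntegral.integral_const, smul_eq_mul]
  have : x0 + b / 2 - (x0 - b / 2) = b := by ring
  rw [this, ← mul_assoc, ← sq]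
  congr 1
  exact intervalIntegral.integral_const_mul _ _

/-- The energy inequality. -/
theorem cacc {q : ℝ → ℝ} {φ φx φxx φy φyy : ℝ → ℝ → ℝ} (h : Sol q φ φx φxx φy φyy)
    {x0 y0 b S Q : ℝ} (hb : 0 < b) (hS : ∀ x y, |x - x0| ≤ b → |y - y0| ≤ b → |φ x y| ≤ S)
    (hQ : ∀ x, q x ≤ Q) (hQ0 : 0 ≤ Q) :
    ∫ x in (x0 - b / 2)..(x0 + b / 2), ∫ y in (y0 - b / 2)..(y0 + b / 2),
      (φ x y ^ 2 + b ^ 2 * φx x y ^ 2) ≤ (129 + 16 * Q * b ^ 2) * b ^ 2 * S ^ 2 := by
  have hS0 : 0 ≤ S := (abs_nonneg _).trans (hS x0 y0 (by simpa using hb.le) (by simpa using hb.le))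
  have cφ := h.c
  have cφx := h.cx
  have cφxx := h.cxx
  have cφyy := h.cyy
  have cφy := h.cy
  have he1 : Continuous fun p : ℝ × ℝ => eta b x0 p.1 := (eta_cont b x0).comp continuous_fst
  have he2 : Continuous fun p : ℝ × ℝ => eta b y0 p.2 := (eta_cont b y0).comp continuous_snd
  have he3 : Continuous fun p : ℝ × ℝ => eta2 b x0 p.1 := (eta2_cont b x0).comp continuous_fst
  have he4 : Continuous fun p : ℝ × ℝ => eta2 b y0 p.2 := (eta2_cont b y0).comp continuous_snd
  have c1 : Continuous (fun p : ℝ × ℝ => φ p.1 p.2) := cφ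
  have c2 : Continuous (fun p : ℝ × ℝ => φx p.1 p.2) := cφx
  have c3 : Continuous (fun p : ℝ × ℝ => φxx p.1 p.2) := cφxx
  have c4 : Continuous (fun p : ℝ × ℝ => φyy p.1 p.2) := cφyy
  have c5 : Continuous (fun p : ℝ × ℝ => φy p.1 p.2) := cφy
  -- the two terms
  set F1 : ℝ → ℝ → ℝ := fun x y => eta b x0 x * eta b y0 y * φx x y ^ 2 with hF1
  set F2 : ℝ → ℝ → ℝ := fun x y => eta b x0 x * eta b y0 y * φy x y ^ 2 with hF2
  set G1 : ℝ → ℝ → ℝ := fun x y => eta b y0 y *
    (1 / 2 * eta2 b x0 x * φ x y ^ 2 - eta b x0 x * φ x y * φxx x y) with hG1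
  set G2 : ℝ → ℝ → ℝ := fun x y => eta b x0 x *
    (1 / 2 * eta2 b y0 y * φ x y ^ 2 - eta b y0 y * φ x y * φyy x y) with hG2
  have kF1 : Continuous (Function.uncurry F1) := by
    show Continuous fun p : ℝ × ℝ => eta b x0 p.1 * eta b y0 p.2 * φx p.1 p.2 ^ 2
    fun_prop
  have kF2 : Continuous (Function.uncurry F2) := by
    show Continuous fun p : ℝ × ℝ => eta b x0 p.1 * eta b y0 p.2 * φy p.1 p.2 ^ 2
    fun_prop
  have kG1 : Continuous (Function.uncurry G1) := by
    show Continuous fun p : ℝ × ℝ => eta b y0 p.2 *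
      (1 / 2 * eta2 b x0 p.1 * φ p.1 p.2 ^ 2 - eta b x0 p.1 * φ p.1 p.2 * φxx p.1 p.2)
    fun_prop
  have kG2 : Continuous (Function.uncurry G2) := by
    show Continuous fun p : ℝ × ℝ => eta b x0 p.1 *
      (1 / 2 * eta2 b y0 p.2 * φ p.1 p.2 ^ 2 - eta b y0 p.2 * φ p.1 p.2 * φyy p.1 p.2)
    fun_prop
  have I1 : ∫ x in (x0 - b)..(x0 + b), ∫ y in (y0 - b)..(y0 + b), F1 x y =
      ∫ x in (x0 - b)..(x0 + b), ∫ y in (y0 - b)..(y0 + b), G1 x y := by
    rw [swap kF1, swap kG1]
    refine intervalIntegral.integral_congr fun y _ => ?_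
    have e := one_var (f := fun t => φ t y) (f' := fun t => φx t y) (f'' := fun t => φxx t y)
      (fun t => h.dx t y) (fun t => h.dxx t y) (c3.comp (Continuous.prodMk_left y)) hb x0
    calc ∫ x in (x0 - b)..(x0 + b), F1 x y =
        ∫ x in (x0 - b)..(x0 + b), eta b y0 y * (eta b x0 x * φx x y ^ 2) :=
          intervalIntegral.integral_congr fun x _ => by simp only [hF1]; ring
      _ = eta b y0 y * ∫ x in (x0 - b)..(x0 + b), eta b x0 x * φx x y ^ 2 :=
          intervalIntegral.integral_const_mul _ _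
      _ = ∫ x in (x0 - b)..(x0 + b), G1 x y := by
          rw [e, ← intervalIntegral.integral_const_mul]
  have I2 : ∫ x in (x0 - b)..(x0 + b), ∫ y in (y0 - b)..(y0 + b), F2 x y =
      ∫ x in (x0 - b)..(x0 + b), ∫ y in (y0 - b)..(y0 + b), G2 x y := by
    refine intervalIntegral.integral_congr fun x _ => ?_
    have e := one_var (f := fun t => φ x t) (f' := fun t => φy x t) (f'' := fun t => φyy x t)
      (fun t => h.dy x t) (fun t => h.dyy x t) (c4.comp (Continuous.prodMk_right x)) hb y0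
    calc ∫ y in (y0 - b)..(y0 + b), F2 x y =
        ∫ y in (y0 - b)..(y0 + b), eta b x0 x * (eta b y0 y * φy x y ^ 2) :=
          intervalIntegral.integral_congr fun y _ => by simp only [hF2]; ring
      _ = eta b x0 x * ∫ y in (y0 - b)..(y0 + b), eta b y0 y * φy x y ^ 2 :=
          intervalIntegral.integral_const_mul _ _
      _ = ∫ y in (y0 - b)..(y0 + b), G2 x y := by
          rw [e, ← intervalIntegral.integral_const_mul]
  have I3 : 0 ≤ ∫ x in (x0 - b)..(x0 + b), ∫ y in (y0 - b)..(y0 + b), F2 x y := by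
    refine intervalIntegral.integral_nonneg (by linarith) fun x _ => ?_
    refine intervalIntegral.integral_nonneg (by linarith) fun y _ => ?_
    simp only [hF2]
    have := eta_nonneg b x0 x
    have := eta_nonneg b y0 y
    positivity
  have I4 : (∫ x in (x0 - b)..(x0 + b), ∫ y in (y0 - b)..(y0 + b), G1 x y) +
      (∫ x in (x0 - b)..(x0 + b), ∫ y in (y0 - b)..(y0 + b), G2 x y) ≤
      ∫ x in (x0 - b)..(x0 + b), ∫ y in (y0 - b)..(y0 + b), ((8 / b ^ 2 + Q) * S ^ 2) := by
    rw [← intervalIntegral.integral_add ((int_cont kG1 _ _).intervalIntegrable _ _)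
      ((int_cont kG2 _ _).intervalIntegrable _ _)]
    have e1 : ∀ x, (∫ y in (y0 - b)..(y0 + b), G1 x y) + (∫ y in (y0 - b)..(y0 + b), G2 x y) =
        ∫ y in (y0 - b)..(y0 + b), (G1 x y + G2 x y) := fun x =>
      (intervalIntegral.integral_add
        ((kG1.comp (Continuous.prodMk_right x)).intervalIntegrable _ _)
        ((kG2.comp (Continuous.prodMk_right x)).intervalIntegrable _ _)).symm
    simp only [e1]
    refine mono2 (F := fun x y => G1 x y + G2 x y) (G := fun x y => (8 / b ^ 2 + Q) * S ^ 2)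
      (kG1.add kG2) continuous_const (by linarith) (by linarith) fun x hx y hy => ?_
    have hx' : |x - x0| ≤ b := abs_le.2 ⟨by linarith [hx.1], by linarith [hx.2]⟩
    have hy' : |y - y0| ≤ b := abs_le.2 ⟨by linarith [hy.1], by linarith [hy.2]⟩
    have e2 : G1 x y + G2 x y = 1 / 2 * (eta2 b x0 x * eta b y0 y + eta b x0 x * eta2 b y0 y) *
        φ x y ^ 2 + eta b x0 x * eta b y0 y * q x * φ x y ^ 2 := by
      simp only [hG1, hG2]
      have := h.pde x y
      linear_combination (-(eta b x0 x * eta b y0 y * φ x y)) * this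
    rw [e2]
    have a1 := eta_nonneg b x0 x
    have a2 := eta_nonneg b y0 y
    have a3 := eta_le_one hb hx'
    have a4 := eta_le_one hb hy'
    have a5 := eta2_le hb hx'
    have a6 := eta2_le hb hy'
    have a7 : φ x y ^ 2 ≤ S ^ 2 := by
      rw [← sq_abs]
      exact pow_le_pow_left₀ (abs_nonneg _) (hS x y hx' hy') 2
    have hb2 : 0 < 8 / b ^ 2 := by positivity
    have a8 : eta2 b x0 x * eta b y0 y ≤ 8 / b ^ 2 := by
      calc eta2 b x0 x * eta b y0 y ≤ 8 / b ^ 2 * eta b y0 y := by gcongr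
        _ ≤ 8 / b ^ 2 * 1 := by gcongr
        _ = _ := mul_one _
    have a9 : eta b x0 x * eta2 b y0 y ≤ 8 / b ^ 2 := by
      calc eta b x0 x * eta2 b y0 y ≤ eta b x0 x * (8 / b ^ 2) := by gcongr
        _ ≤ 1 * (8 / b ^ 2) := by gcongr
        _ = _ := one_mul _
    have a10 : eta b x0 x * eta b y0 y * q x ≤ Q := by
      have : eta b x0 x * eta b y0 y ≤ 1 := by nlinarith
      calc eta b x0 x * eta b y0 y * q x ≤ eta b x0 x * eta b y0 y * Q := by
            have := mul_nonneg a1 a2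
            gcongr
            exact hQ x
        _ ≤ 1 * Q := by gcongr
        _ = Q := one_mul _
    calc 1 / 2 * (eta2 b x0 x * eta b y0 y + eta b x0 x * eta2 b y0 y) * φ x y ^ 2 +
        eta b x0 x * eta b y0 y * q x * φ x y ^ 2 =
        (1 / 2 * (eta2 b x0 x * eta b y0 y + eta b x0 x * eta2 b y0 y) +
          eta b x0 x * eta b y0 y * q x) * φ x y ^ 2 := by ring
      _ ≤ (8 / b ^ 2 + Q) * φ x y ^ 2 := by
        refine mul_le_mul_of_nonneg_right ?_ (sq_nonneg _)
        linarith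
      _ ≤ (8 / b ^ 2 + Q) * S ^ 2 := by gcongr
  have I5 : ∫ x in (x0 - b)..(x0 + b), ∫ y in (y0 - b)..(y0 + b), ((8 / b ^ 2 + Q) * S ^ 2) =
      (32 + 4 * Q * b ^ 2) * S ^ 2 := by
    simp only [intervalIntegral.integral_const, smul_eq_mul]
    field_simp
    ring
  have I6 : ∫ x in (x0 - b)..(x0 + b), ∫ y in (y0 - b)..(y0 + b), F1 x y ≤
      (32 + 4 * Q * b ^ 2) * S ^ 2 := by linarith
  -- the half box
  have J1 : ∫ x in (x0 - b / 2)..(x0 + b / 2), ∫ y in (y0 - b / 2)..(y0 + b / 2), F1 x y ≤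
      (32 + 4 * Q * b ^ 2) * S ^ 2 := by
    refine (sub2 kF1 (by linarith) (by linarith) (by linarith) (by linarith) (by linarith)
      (by linarith) fun x y => ?_).trans I6
    simp only [hF1]
    have := eta_nonneg b x0 x
    have := eta_nonneg b y0 y
    positivity
  have J2 : ∫ x in (x0 - b / 2)..(x0 + b / 2), ∫ y in (y0 - b / 2)..(y0 + b / 2),
      (φ x y ^ 2 + b ^ 2 * φx x y ^ 2) ≤
      ∫ x in (x0 - b / 2)..(x0 + b / 2), ∫ y in (y0 - b / 2)..(y0 + b / 2),
      (S ^ 2 + 4 * b ^ 2 * F1 x y) := by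
    refine mono2 (F := fun x y => φ x y ^ 2 + b ^ 2 * φx x y ^ 2)
      (G := fun x y => S ^ 2 + 4 * b ^ 2 * F1 x y) ?_ ?_ (by linarith) (by linarith)
      fun x hx y hy => ?_
    · show Continuous fun p : ℝ × ℝ => φ p.1 p.2 ^ 2 + b ^ 2 * φx p.1 p.2 ^ 2
      fun_prop
    · exact continuous_const.add (continuous_const.mul kF1)
    · have hx' : |x - x0| ≤ b / 2 := abs_le.2 ⟨by linarith [hx.1], by linarith [hx.2]⟩
      have hy' : |y - y0| ≤ b / 2 := abs_le.2 ⟨by linarith [hy.1], by linarith [hy.2]⟩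
      have a1 := eta_half hb hx'
      have a2 := eta_half hb hy'
      have a3 : 1 / 4 ≤ eta b x0 x * eta b y0 y := by nlinarith
      have a7 : φ x y ^ 2 ≤ S ^ 2 := by
        rw [← sq_abs]
        exact pow_le_pow_left₀ (abs_nonneg _) (hS x y (by linarith) (by linarith)) 2
      simp only [hF1]
      have a4 : 0 ≤ b ^ 2 * φx x y ^ 2 := by positivity
      nlinarith [mul_le_mul_of_nonneg_right a3 a4]
  refine J2.trans ?_
  have J3 := const2 kF1 b x0 y0 (S ^ 2) (4 * b ^ 2)
  rw [J3]
  have hb2 : 0 < b ^ 2 := by positivity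
  nlinarith [mul_le_mul_of_nonneg_left J1 (by positivity : (0 : ℝ) ≤ 4 * b ^ 2)]

end Pool.Agent.Y291.DB
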