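import Pool.Agent.Y291.DB.Geo

/-!
# From a growth function to the distribution of the doubling indices
-/

set_option linter.unusedSectionVars false
set_option linter.unusedVariables false

namespace Pool.Agent.Y291.DB

open MeasureTheory Real

/-- The scale. -/
noncomputable def dl (lam : ℝ) : ℝ := 1 / (2 * Real.sqrt (1 + lam))

/-- The property of a growth function for `φ`. -/
structure Growth (φ : ℝ × ℝ → ℝ) (lam β A E D W G : ℝ) (Gr : ℝ → ℝ → ℝ) : Prop where
  loc : ∀ x0 y0 S : ℝ, 0 < S → (∀ x y, |x - x0| ≤ 4 * β * dl lam → |y - y0| ≤ 4 * β * dl lam →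
    |φ (x, y)| ≤ S) → ∃ X : Set ℝ, MeasurableSet X ∧
      X ⊆ Set.Icc (x0 - 2 * β * dl lam) (x0 + 2 * β * dl lam) ∧
      ENNReal.ofReal (2 * β * dl lam) ≤ volume X ∧
      ∀ x ∈ X, ∀ y, |y - y0| ≤ β * dl lam → ∀ x' y', |x' - x0| ≤ A * dl lam →
        |y' - y0| ≤ A * dl lam → |φ (x', y')| ≤ S * Real.exp (E + D * Gr x y)
  weak : ∀ x s : ℝ, 0 < s → volume {y : ℝ | y ∈ Set.Ioc (-(2 * π)) (4 * π) ∧ s ≤ Gr x y} ≤
    ENNReal.ofReal (W / s)
  upper : ∀ x y : ℝ, Gr x y ≤ G / dl lam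

theorem dl_pos {lam : ℝ} (h : 0 < lam) : 0 < dl lam := by
  unfold dl
  positivity

theorem dl_le {lam : ℝ} (h : 0 < lam) : dl lam ≤ 1 / 2 := by
  unfold dl
  have : 1 ≤ Real.sqrt (1 + lam) := Real.one_le_sqrt.2 (by linarith)
  rw [div_le_div_iff₀ (by positivity) two_pos]
  linarith

theorem dl_sq {lam : ℝ} (h : 0 < lam) : 4 * dl lam ^ 2 = 1 / (1 + lam) := by
  unfold dl
  rw [div_pow, mul_pow, Real.sq_sqrt (by linarith)]
  field_simp
  ring

/-- Reduction modulo the lattice. -/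
theorem reduce {L : ℝ} (hL : 0 < L) (α : ℝ) (a b : ℝ) (p : ℝ × ℝ) : ∃ m n : ℤ,
    p.1 + m * L ∈ Set.Ico a (a + L) ∧ p.2 + m * α + n * (2 * π) ∈ Set.Ico b (b + 2 * π) := by
  have h1 := sub_toIcoDiv_zsmul_mem_Ico hL a p.1
  set m := toIcoDiv hL a p.1
  have h2 := sub_toIcoDiv_zsmul_mem_Ico Real.two_pi_pos b (p.2 + ((-m : ℤ) : ℝ) * α)
  set n := toIcoDiv Real.two_pi_pos b (p.2 + ((-m : ℤ) : ℝ) * α)
  refine ⟨-m, -n, ?_, ?_⟩
  · convert! h1 using 1
    simp only [zsmul_eq_mul]
    push_cast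
    ring
  · convert! h2 using 1
    simp only [zsmul_eq_mul]
    push_cast
    ring

/-- A continuous invariant function is bounded. -/
theorem bounded_of_per {L α : ℝ} (hL : 0 < L) {f : ℝ × ℝ → ℝ} (hf : Continuous f)
    (h1 : ∀ p : ℝ × ℝ, f (p.1 + L, p.2 + α) = f p)
    (h2 : ∀ p : ℝ × ℝ, f (p.1, p.2 + 2 * π) = f p) : ∃ B : ℝ, 0 ≤ B ∧ ∀ p, |f p| ≤ B := by
  have hK : IsCompact (Set.Icc (0 : ℝ) L ×ˢ Set.Icc (0 : ℝ) (2 * π)) :=
    isCompact_Icc.prod isCompact_Icc
  obtain ⟨B, hB⟩ := hK.exists_bound_of_continuousOn hf.continuousOn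
  have hB0 : 0 ≤ B := (norm_nonneg _).trans (hB (0, 0) ⟨⟨le_rfl, hL.le⟩, ⟨le_rfl, by positivity⟩⟩)
  refine ⟨B, hB0, fun p => ?_⟩
  obtain ⟨m, n, h3, h4⟩ := reduce hL α 0 0 p
  rw [← per_all h1 h2 m n p]
  rw [zero_add] at h3 h4
  exact hB _ ⟨⟨h3.1, h3.2.le⟩, ⟨h4.1, h4.2.le⟩⟩

/-- A continuous positive invariant function is bounded below. -/
theorem bounded_below_of_per {L α : ℝ} (hL : 0 < L) {f : ℝ × ℝ → ℝ} (hf : Continuous f)
    (hpos : ∀ p, 0 < f p) (h1 : ∀ p : ℝ × ℝ, f (p.1 + L, p.2 + α) = f p)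
    (h2 : ∀ p : ℝ × ℝ, f (p.1, p.2 + 2 * π) = f p) : ∃ B : ℝ, 0 < B ∧ ∀ p, B ≤ f p := by
  have hK : IsCompact (Set.Icc (0 : ℝ) L ×ˢ Set.Icc (0 : ℝ) (2 * π)) :=
    isCompact_Icc.prod isCompact_Icc
  obtain ⟨q, hq, hmin⟩ := hK.exists_isMinOn ⟨(0, 0), ⟨⟨le_rfl, hL.le⟩, ⟨le_rfl, by positivity⟩⟩⟩
    hf.continuousOn
  refine ⟨f q, hpos q, fun p => ?_⟩
  obtain ⟨m, n, h3, h4⟩ := reduce hL α 0 0 p
  rw [← per_all h1 h2 m n p]
  rw [zero_add] at h3 h4
  exact hmin ⟨⟨h3.1, h3.2.le⟩, ⟨h4.1, h4.2.le⟩⟩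

/-- Dyadic decomposition. -/
theorem dyadic (v : ℝ) (J : ℕ) (hv : v < 2 ^ J) :
    v ≤ 1 + ∑ k ∈ Finset.range J, (2 : ℝ) ^ k * (if (2 : ℝ) ^ k ≤ v then 1 else 0) := by
  induction J with
  | zero => simpa using hv.le
  | succ J ih =>
    rcases lt_or_ge v (2 ^ J) with h | h
    · rw [Finset.sum_range_succ, if_neg (not_le.2 h)]
      simpa using ih h
    · have h1 : ∀ k ∈ Finset.range (J + 1), (2 : ℝ) ^ k * (if (2 : ℝ) ^ k ≤ v then 1 else 0) =
          2 ^ k := by
        intro k hk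
        rw [Finset.mem_range] at hk
        rw [if_pos, mul_one]
        exact le_trans (pow_le_pow_right₀ one_le_two (by omega)) h
      rw [Finset.sum_congr rfl h1, geom_sum_eq (by norm_num)]
      linarith

section assembly

variable {ρ : ℝ × ℝ → ℝ} {L α ρm ρM : ℝ} (hL : 0 < L) (hρc : Continuous ρ)
  (hρx : ∀ p : ℝ × ℝ, ρ (p.1 + L, p.2 + α) = ρ p) (hρy : ∀ p : ℝ × ℝ, ρ (p.1, p.2 + 2 * π) = ρ p)
  (hρ0 : 0 < ρm) (hρm : ∀ p, ρm ≤ ρ p) (hρM : ∀ p, ρ p ≤ ρM) {C : ℝ} (hC : 0 < C)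
  {β A : ℝ} (hβ : 0 < β) (hβ1 : β ≤ 1) (hβC : 8 * β * Real.sqrt ρM ≤ C)
  (hA : 6 * C / Real.sqrt ρm + 3 * L + 6 * π ≤ A)

include hL hρc hρx hρy hρ0 hρm hρM hC hβ hβ1 hβC hA

/-- Boxes in discs. -/
theorem box_sub {lam : ℝ} (hlam : 0 < lam) {p0 : ℝ × ℝ} {x y : ℝ}
    (h : |x - p0.1| + |y - p0.2| ≤ 8 * β * dl lam) : (x, y) ∈ disc ρ L α p0 (C / Real.sqrt lam) := by
  show gdist ρ L α p0 (x, y) < C / Real.sqrt lam
  refine (gdist_le hρM hρc p0 (x, y)).trans_lt ?_
  have hs : 0 < Real.sqrt lam := Real.sqrt_pos.2 hlam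
  have h1 : Real.sqrt ρM * (|x - p0.1| + |y - p0.2|) ≤ C * dl lam := by
    calc Real.sqrt ρM * (|x - p0.1| + |y - p0.2|) ≤ Real.sqrt ρM * (8 * β * dl lam) := by gcongr
      _ = (8 * β * Real.sqrt ρM) * dl lam := by ring
      _ ≤ C * dl lam := mul_le_mul_of_nonneg_right hβC (dl_pos hlam).le
  refine h1.trans_lt ?_
  rw [div_eq_mul_inv]
  refine mul_lt_mul_of_pos_left ?_ hC
  unfold dl
  rw [one_div]
  refine inv_strictAnti₀ hs ?_
  have h2 : Real.sqrt lam < Real.sqrt (1 + lam) := Real.sqrt_lt_sqrt hlam.le (by linarith)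
  linarith

/-- The double disc, modulo the lattice. -/
theorem double_sub {lam : ℝ} (hlam : 0 < lam) {p0 q : ℝ × ℝ}
    (h : q ∈ disc ρ L α p0 (2 * (C / Real.sqrt lam))) : ∃ m n : ℤ,
      |q.1 + m * L - p0.1| ≤ A * dl lam ∧ |q.2 + m * α + n * (2 * π) - p0.2| ≤ A * dl lam := by
  have hs : 0 < Real.sqrt lam := Real.sqrt_pos.2 hlam
  have hsm : 0 < Real.sqrt ρm := Real.sqrt_pos.2 hρ0
  have hs1 : 0 < Real.sqrt (1 + lam) := Real.sqrt_pos.2 (by linarith)
  have hpi : 0 < π := Real.pi_pos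
  rcases le_or_gt 1 lam with h1 | h1
  · obtain ⟨m, n, h2, h3⟩ := gdist_lt hρ0 hρm hρc h
    have h4 : 2 * (C / Real.sqrt lam) / Real.sqrt ρm ≤ A * dl lam := by
      have h5 : (6 * C / Real.sqrt ρm) * dl lam ≤ A * dl lam :=
        mul_le_mul_of_nonneg_right (by linarith) (dl_pos hlam).le
      refine le_trans ?_ h5
      have h6 : 2 / Real.sqrt lam ≤ 3 / Real.sqrt (1 + lam) := by
        rw [div_le_div_iff₀ hs hs1]
        have h7 : 2 * Real.sqrt (1 + lam) = Real.sqrt (4 * (1 + lam)) := by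
          rw [Real.sqrt_mul (by norm_num), show (4 : ℝ) = 2 ^ 2 by norm_num,
            Real.sqrt_sq (by norm_num)]
        have h8 : 3 * Real.sqrt lam = Real.sqrt (9 * lam) := by
          rw [Real.sqrt_mul (by norm_num), show (9 : ℝ) = 3 ^ 2 by norm_num,
            Real.sqrt_sq (by norm_num)]
        rw [h7, h8]
        exact Real.sqrt_le_sqrt (by linarith)
      calc 2 * (C / Real.sqrt lam) / Real.sqrt ρm = (C / Real.sqrt ρm) * (2 / Real.sqrt lam) := by
            field_simp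
        _ ≤ (C / Real.sqrt ρm) * (3 / Real.sqrt (1 + lam)) := by gcongr
        _ = (6 * C / Real.sqrt ρm) * dl lam := by
            unfold dl
            field_simp
            norm_num
    exact ⟨m, n, h2.trans h4, h3.trans h4⟩
  · obtain ⟨m, n, h2, h3⟩ := reduce hL α p0.1 p0.2 q
    have h4 : 1 / 3 ≤ dl lam := by
      unfold dl
      rw [div_le_div_iff₀ (by norm_num) (by positivity)]
      have : Real.sqrt (1 + lam) ≤ 3 / 2 := by
        rw [Real.sqrt_le_left (by norm_num)]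
        norm_num
        linarith
      linarith
    have h5 : L + 2 * π ≤ A * dl lam := by
      have h6 : 0 ≤ 6 * C / Real.sqrt ρm := by positivity
      have h7 : (3 * L + 6 * π) * (1 / 3) ≤ A * dl lam :=
        mul_le_mul (by linarith) h4 (by norm_num) (by linarith)
      linarith
    refine ⟨m, n, ?_, ?_⟩
    · rw [abs_le]
      constructor <;> linarith [h2.1, h2.2]
    · rw [abs_le]
      constructor <;> linarith [h3.1, h3.2]

/-- The doubling index and the growth function. -/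
theorem doubling_le {lam : ℝ} {φ : ℝ × ℝ → ℝ} (hφ : Eigen ρ L α lam φ) {E D W G : ℝ}
    {Gr : ℝ → ℝ → ℝ} (hG : Growth φ lam β A E D W G Gr) (p0 : ℝ × ℝ)
    (ht : 0 < doubling ρ L α φ p0 (C / Real.sqrt lam)) : ∃ X : Set ℝ, MeasurableSet X ∧
      X ⊆ Set.Icc (p0.1 - 2 * β * dl lam) (p0.1 + 2 * β * dl lam) ∧
      ENNReal.ofReal (2 * β * dl lam) ≤ volume X ∧
      ∀ x ∈ X, ∀ y, |y - p0.2| ≤ β * dl lam →
        doubling ρ L α φ p0 (C / Real.sqrt lam) * Real.log 2 ≤ E + D * Gr x y := by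
  obtain ⟨B, hB0, hB⟩ := bounded_of_per hL hφ.smooth.continuous hφ.perx hφ.pery
  have hbdd : ∀ s : Set (ℝ × ℝ), BddAbove ((fun q => |φ q|) '' s) := by
    intro s
    refine ⟨B, ?_⟩
    rintro _ ⟨q, _, rfl⟩
    exact hB q
  set S := sSup ((fun q => |φ q|) '' disc ρ L α p0 (C / Real.sqrt lam)) with hS
  set T := sSup ((fun q => |φ q|) '' disc ρ L α p0 (2 * (C / Real.sqrt lam))) with hT
  have hd : doubling ρ L α φ p0 (C / Real.sqrt lam) = Real.logb 2 (T / S) := rfl
  have hS0 : 0 ≤ S := Real.sSup_nonneg (by rintro _ ⟨q, _, rfl⟩; exact abs_nonneg _)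
  have hT0 : 0 ≤ T := Real.sSup_nonneg (by rintro _ ⟨q, _, rfl⟩; exact abs_nonneg _)
  have hTS : 0 < T / S := by
    refine lt_of_le_of_ne (by positivity) fun h0 => ?_
    rw [hd, ← h0, Real.logb_zero] at ht
    exact lt_irrefl _ ht
  have hS1 : 0 < S := by
    refine lt_of_le_of_ne hS0 fun h0 => ?_
    rw [← h0, div_zero] at hTS
    exact lt_irrefl _ hTS
  have hδ := dl_pos hφ.pos
  obtain ⟨X, hX1, hX2, hX3, hX4⟩ := hG.loc p0.1 p0.2 S hS1 (by
    intro x y hx hy
    refine le_csSup (hbdd _) ⟨(x, y), ?_, rfl⟩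
    exact box_sub hL hρc hρx hρy hρ0 hρm hρM hC hβ hβ1 hβC hA hφ.pos (by linarith))
  refine ⟨X, hX1, hX2, hX3, fun x hx y hy => ?_⟩
  have h1 : T ≤ S * Real.exp (E + D * Gr x y) := by
    refine Real.sSup_le ?_ (by positivity)
    rintro _ ⟨q, hq, rfl⟩
    obtain ⟨m, n, h2, h3⟩ := double_sub hL hρc hρx hρy hρ0 hρm hρM hC hβ hβ1 hβC hA hφ.pos hq
    have h4 := hX4 x hx y hy _ _ h2 h3
    rwa [per_all hφ.perx hφ.pery m n q] at h4
  have h2 : T / S ≤ Real.exp (E + D * Gr x y) := by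
    rw [div_le_iff₀ hS1]
    linarith
  rw [hd, Real.logb, div_mul_cancel₀ _ (Real.log_pos one_lt_two).ne']
  rw [Real.log_le_iff_le_exp hTS]
  exact h2

/-- Counting the discs with a large doubling index. -/
theorem count {lam : ℝ} {φ : ℝ × ℝ → ℝ} (hφ : Eigen ρ L α lam φ) {E D W G : ℝ} (hD : 0 < D)
    (hW : 0 ≤ W) {Gr : ℝ → ℝ → ℝ} (hG : Growth φ lam β A E D W G Gr) {C₁ C₂ : ℝ} (hC1 : 0 < C₁)
    {ι : Type} [Fintype ι] {c : ι → ℝ × ℝ} (hc : Admissible ρ L α lam φ C C₁ C₂ c) {t : ℝ}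
    (ht : 0 < t) (htE : 2 * E ≤ t * Real.log 2) :
    (({i | t ≤ doubling ρ L α φ (c i) (C / Real.sqrt lam)}.ncard : ℕ) : ℝ) ≤
      (L + 2) * C₁ * W * (2 * D) * (1 + lam) / (β ^ 2 * (t * Real.log 2)) := by
  classical
  have hlog : 0 < Real.log 2 := Real.log_pos one_lt_two
  have hδ := dl_pos hφ.pos
  have hδ2 := dl_le hφ.pos
  have hlam := hφ.pos
  have hπ : 3 < π := Real.pi_gt_three
  -- reduced centers
  have hred : ∀ i, ∃ p : ℝ × ℝ, p.1 ∈ Set.Ico 0 L ∧ p.2 ∈ Set.Ico 0 (2 * π) ∧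
      ∀ q, gdist ρ L α p q = gdist ρ L α (c i) q := by
    intro i
    obtain ⟨m, n, h1, h2⟩ := reduce hL α 0 0 (c i)
    rw [zero_add] at h1 h2
    exact ⟨_, h1, h2, fun q => gdist_shift_left (per_all hρx hρy) (c i) q m n⟩
  choose p hp1 hp2 hp3 using hred
  have hdisc : ∀ i r, disc ρ L α (p i) r = disc ρ L α (c i) r := by
    intro i r
    unfold disc
    simp only [hp3]
  have hdoub : ∀ i r, doubling ρ L α φ (p i) r = doubling ρ L α φ (c i) r := by
    intro i r
    unfold doubling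
    simp only [hdisc]
  set I : Set ι := {i | t ≤ doubling ρ L α φ (c i) (C / Real.sqrt lam)} with hI
  have hX : ∀ i ∈ I, ∃ X : Set ℝ, MeasurableSet X ∧
      X ⊆ Set.Icc ((p i).1 - 2 * β * dl lam) ((p i).1 + 2 * β * dl lam) ∧
      ENNReal.ofReal (2 * β * dl lam) ≤ volume X ∧
      ∀ x ∈ X, ∀ y, |y - (p i).2| ≤ β * dl lam → t * Real.log 2 / (2 * D) ≤ Gr x y := by
    intro i hi
    have hi' : t ≤ doubling ρ L α φ (p i) (C / Real.sqrt lam) := by
      rw [hdoub]
      exact hi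
    obtain ⟨X, h1, h2, h3, h4⟩ := doubling_le hL hρc hρx hρy hρ0 hρm hρM hC hβ hβ1 hβC hA hφ hG
      (p i) (ht.trans_le hi')
    refine ⟨X, h1, h2, h3, fun x hx y hy => ?_⟩
    have h5 := h4 x hx y hy
    have h6 : t * Real.log 2 ≤ doubling ρ L α φ (p i) (C / Real.sqrt lam) * Real.log 2 :=
      mul_le_mul_of_nonneg_right hi' hlog.le
    rw [div_le_iff₀ (by positivity)]
    linarith
  choose! X hX1 hX2 hX3 hX4 using hX
  set s : ℝ := t * Real.log 2 / (2 * D) with hs
  have hs0 : 0 < s := by positivity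
  set IF : Finset ι := Finset.univ.filter (· ∈ I) with hIF
  have hIFmem : ∀ i, i ∈ IF ↔ i ∈ I := fun i => by simp [hIF]
  set J : ι → Set ℝ := fun i => Set.Icc ((p i).2 - β * dl lam) ((p i).2 + β * dl lam) with hJ
  have hβδ : β * dl lam ≤ 1 / 2 := by nlinarith
  -- the inner bound
  have hin : ∀ x : ℝ, ∑ i ∈ IF, (X i).indicator (fun _ => volume (J i)) x ≤
      ENNReal.ofReal C₁ * ENNReal.ofReal (W / s) := by
    intro x
    set N : Set ℝ := {y : ℝ | y ∈ Set.Ioc (-(2 * π)) (4 * π) ∧ s ≤ Gr x y} with hN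
    have h1 : ∑ i ∈ IF, (X i).indicator (fun _ => volume (J i)) x =
        ∫⁻ y, ∑ i ∈ IF, (X i).indicator (fun _ => (J i).indicator (fun _ => (1 : ENNReal)) y) x := by
      rw [lintegral_finsetSum]
      · refine Finset.sum_congr rfl fun i _ => ?_
        by_cases hx : x ∈ X i
        · simp only [Set.indicator_of_mem hx]
          rw [lintegral_indicator measurableSet_Icc, setLIntegral_one]
        · simp only [Set.indicator_of_notMem hx, lintegral_zero]
      · intro i _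
        by_cases hx : x ∈ X i
        · simp only [Set.indicator_of_mem hx]
          exact measurable_const.indicator measurableSet_Icc
        · simp only [Set.indicator_of_notMem hx]
          exact measurable_const
    rw [h1]
    refine le_trans (lintegral_mono (g := N.indicator fun _ => ENNReal.ofReal C₁) fun y => ?_)
      ((lintegral_indicator_const_le _ _).trans ?_)
    · -- multiplicity
      have h2 : ∑ i ∈ IF, (X i).indicator (fun _ => (J i).indicator (fun _ => (1 : ENNReal)) y) x =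
          ((IF.filter fun i => x ∈ X i ∧ y ∈ J i).card : ENNReal) := by
        rw [Finset.card_filter]
        push_cast
        refine Finset.sum_congr rfl fun i _ => ?_
        by_cases hx : x ∈ X i <;> by_cases hy : y ∈ J i <;> simp [hx, hy]
      rw [h2]
      rcases (IF.filter fun i => x ∈ X i ∧ y ∈ J i).eq_empty_or_nonempty with h3 | h3
      · rw [h3]
        simp
      · obtain ⟨i, hi⟩ := h3
        rw [Finset.mem_filter, hIFmem] at hi
        have hyJ : |y - (p i).2| ≤ β * dl lam := by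
          have h4 := hi.2.2
          rw [abs_le]
          constructor <;> linarith [h4.1, h4.2]
        have hyN : y ∈ N := by
          refine ⟨⟨?_, ?_⟩, hX4 i hi.1 x hi.2.1 y hyJ⟩
          · linarith [(hp2 i).1, (abs_le.1 hyJ).1]
          · linarith [(hp2 i).2, (abs_le.1 hyJ).2]
        rw [Set.indicator_of_mem hyN]
        have h5 : ((IF.filter fun i => x ∈ X i ∧ y ∈ J i).card : ℝ) ≤ C₁ := by
          refine le_trans ?_ (hc.mult (x, y))
          have h6 : ((IF.filter fun i => x ∈ X i ∧ y ∈ J i) : Set ι) ⊆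
              {i | (x, y) ∈ disc ρ L α (c i) (C / Real.sqrt lam)} := by
            intro j hj
            rw [Finset.mem_coe, Finset.mem_filter, hIFmem] at hj
            show (x, y) ∈ disc ρ L α (c j) (C / Real.sqrt lam)
            rw [← hdisc]
            refine box_sub hL hρc hρx hρy hρ0 hρm hρM hC hβ hβ1 hβC hA hlam ?_
            have h7 := hX2 j hj.1 hj.2.1
            have h8 := hj.2.2
            have h9 : |x - (p j).1| ≤ 2 * β * dl lam :=
              abs_le.2 ⟨by linarith [h7.1], by linarith [h7.2]⟩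
            have h10 : |y - (p j).2| ≤ β * dl lam :=
              abs_le.2 ⟨by linarith [h8.1], by linarith [h8.2]⟩
            have h11 : 0 < β * dl lam := by positivity
            linarith
          have h7 := Set.ncard_le_ncard h6 (Set.toFinite _)
          rw [Set.ncard_coe_finset] at h7
          exact_mod_cast h7
        rw [← ENNReal.ofReal_natCast]
        exact ENNReal.ofReal_le_ofReal h5
    · gcongr
      exact hG.weak x s hs0
  -- integrate
  have hout : ∑ i ∈ IF, ENNReal.ofReal (2 * β * dl lam) * ENNReal.ofReal (2 * β * dl lam) ≤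
      (ENNReal.ofReal C₁ * ENNReal.ofReal (W / s)) * ENNReal.ofReal (L + 2) := by
    have h1 : ∑ i ∈ IF, ENNReal.ofReal (2 * β * dl lam) * ENNReal.ofReal (2 * β * dl lam) ≤
        ∫⁻ x, ∑ i ∈ IF, (X i).indicator (fun _ => volume (J i)) x := by
      rw [lintegral_finsetSum']
      · refine Finset.sum_le_sum fun i hi => ?_
        rw [lintegral_indicator_const (hX1 i ((hIFmem i).1 hi))]
        refine mul_le_mul' ?_ (hX3 i ((hIFmem i).1 hi))
        rw [hJ]
        simp only [Real.volume_Icc]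
        exact ENNReal.ofReal_le_ofReal (by linarith)
      · intro i hi
        exact (measurable_const.indicator (hX1 i ((hIFmem i).1 hi))).aemeasurable
    refine h1.trans ?_
    refine le_trans (lintegral_mono (g := (Set.Icc (-1 : ℝ) (L + 1)).indicator
      fun _ => ENNReal.ofReal C₁ * ENNReal.ofReal (W / s)) fun x => ?_)
      ((lintegral_indicator_const_le _ _).trans ?_)
    · by_cases hx : x ∈ Set.Icc (-1 : ℝ) (L + 1)
      · rw [Set.indicator_of_mem hx]
        exact hin x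
      · rw [Set.indicator_of_notMem hx]
        refine le_of_eq (Finset.sum_eq_zero fun i hi => ?_)
        refine Set.indicator_of_notMem (fun hxi => hx ?_) _
        have h7 := hX2 i ((hIFmem i).1 hi) hxi
        exact ⟨by linarith [h7.1, (hp1 i).1], by linarith [h7.2, (hp1 i).2]⟩
    · rw [Real.volume_Icc]
      gcongr
      linarith
  rw [Finset.sum_const, nsmul_eq_mul, ← ENNReal.ofReal_mul (by positivity),
    ← ENNReal.ofReal_mul (by positivity), ← ENNReal.ofReal_mul (by positivity),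
    ← ENNReal.ofReal_natCast, ← ENNReal.ofReal_mul (by positivity),
    ENNReal.ofReal_le_ofReal_iff (by positivity)] at hout
  have hcard : ((I.ncard : ℕ) : ℝ) = (IF.card : ℝ) := by
    have : I = (IF : Set ι) := by
      ext i
      simp [hIF]
    rw [this, Set.ncard_coe_finset]
  rw [hcard]
  have h4 : (IF.card : ℝ) * (β ^ 2 * (1 / (1 + lam))) ≤ C₁ * (W / s) * (L + 2) := by
    rw [← dl_sq hlam]
    linarith
  have h5 : C₁ * (W / s) * (L + 2) = (L + 2) * C₁ * W * (2 * D) / (t * Real.log 2) := by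
    rw [hs]
    field_simp
  rw [h5] at h4
  have h6 : (IF.card : ℝ) = (IF.card : ℝ) * (β ^ 2 * (1 / (1 + lam))) * ((1 + lam) / β ^ 2) := by
    field_simp
  rw [h6]
  calc (IF.card : ℝ) * (β ^ 2 * (1 / (1 + lam))) * ((1 + lam) / β ^ 2)
      ≤ ((L + 2) * C₁ * W * (2 * D) / (t * Real.log 2)) * ((1 + lam) / β ^ 2) := by gcongr
    _ = (L + 2) * C₁ * W * (2 * D) * (1 + lam) / (β ^ 2 * (t * Real.log 2)) := by
        field_simp

/-- The upper bound of all doubling indices. -/
theorem doubling_upper {lam : ℝ} {φ : ℝ × ℝ → ℝ} (hφ : Eigen ρ L α lam φ) {E D W G : ℝ}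
    (hE : 0 ≤ E) (hD : 0 < D) (hG0 : 0 ≤ G)
    {Gr : ℝ → ℝ → ℝ} (hG : Growth φ lam β A E D W G Gr) (p0 : ℝ × ℝ) :
    doubling ρ L α φ p0 (C / Real.sqrt lam) ≤
      (E + 2 * D * G) / Real.log 2 * Real.sqrt (1 + lam) := by
  have hlog : 0 < Real.log 2 := Real.log_pos one_lt_two
  have hlam := hφ.pos
  have hδ := dl_pos hφ.pos
  rcases le_or_gt (doubling ρ L α φ p0 (C / Real.sqrt lam)) 0 with h | h
  · exact h.trans (by positivity)
  · obtain ⟨X, h1, h2, h3, h4⟩ := doubling_le hL hρc hρx hρy hρ0 hρm hρM hC hβ hβ1 hβC hA hφ hG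
      p0 h
    have hne : X.Nonempty := by
      rw [Set.nonempty_iff_ne_empty]
      rintro rfl
      rw [measure_empty, nonpos_iff_eq_zero, ENNReal.ofReal_eq_zero] at h3
      have : 0 < 2 * β * dl lam := by positivity
      linarith
    obtain ⟨x, hx⟩ := hne
    have h5 := h4 x hx p0.2 (by simp; positivity)
    have h6 := hG.upper x p0.2
    have h7 : G / dl lam = 2 * G * Real.sqrt (1 + lam) := by
      unfold dl
      field_simp
    rw [h7] at h6
    rw [div_mul_eq_mul_div, le_div_iff₀ hlog]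
    have h8 : 1 ≤ Real.sqrt (1 + lam) := Real.one_le_sqrt.2 (by linarith)
    have h9 : D * Gr x p0.2 ≤ D * (2 * G * Real.sqrt (1 + lam)) :=
      mul_le_mul_of_nonneg_left h6 hD.le
    nlinarith

/-- The final assembly. -/
theorem assembly {E D W G C₁ C₂ : ℝ} (hE : 0 ≤ E) (hD : 0 < D) (hW : 0 ≤ W) (hG0 : 0 ≤ G)
    (hC1 : 0 < C₁) (hC2 : 0 < C₂) : ∃ a : ℝ, 0 < a ∧ ∀ (lam : ℝ) (φ : ℝ × ℝ → ℝ),
      Eigen ρ L α lam φ → (∃ Gr : ℝ → ℝ → ℝ, Growth φ lam β A E D W G Gr) →
      ∀ (ι : Type) [Fintype ι] (c : ι → ℝ × ℝ), Admissible ρ L α lam φ C C₁ C₂ c →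
        (∀ t : ℝ, 0 < t → (({i | t ≤ doubling ρ L α φ (c i) (C / Real.sqrt lam)}.ncard : ℕ) : ℝ) ≤
          a / t * Fintype.card ι) ∧
        ∑ i, doubling ρ L α φ (c i) (C / Real.sqrt lam) ≤
          a * Real.log (2 + lam) * Fintype.card ι := by
  classical
  have hlog : 0 < Real.log 2 := Real.log_pos one_lt_two
  set a1 : ℝ := (L + 2) * C₁ * W * (2 * D) * (1 + C₂) / (β ^ 2 * Real.log 2) with ha1
  set T0 : ℝ := 2 * E / Real.log 2 with hT0
  set a2 : ℝ := a1 + T0 with ha2
  set V1 : ℝ := (E + 2 * D * G) / Real.log 2 with hV1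
  set a3 : ℝ := 1 / Real.log 2 + a2 * ((Real.log (1 + V1) / Real.log 2 + 2) / Real.log 2) with ha3
  have ha10 : 0 ≤ a1 := by positivity
  have hT00 : 0 ≤ T0 := by positivity
  have hV10 : 0 ≤ V1 := by positivity
  have hlV : 0 ≤ Real.log (1 + V1) := Real.log_nonneg (by linarith)
  have ha30 : 0 < a3 := by positivity
  refine ⟨a2 + a3, by positivity, ?_⟩
  rintro lam φ hφ ⟨Gr, hG⟩ ι _ c hc
  have hlam := hφ.pos
  have hcard1 : (1 : ℝ) ≤ Fintype.card ι := by
    have h1 : (0 : ℝ) < Fintype.card ι := lt_of_lt_of_le (by positivity) hc.lower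
    have h2 : 0 < Fintype.card ι := by exact_mod_cast h1
    exact_mod_cast h2
  have hcard2 : lam ≤ C₂ * Fintype.card ι := by
    have := hc.lower
    rw [inv_mul_le_iff₀ hC2] at this
    exact this
  have hweak : ∀ t : ℝ, 0 < t →
      (({i | t ≤ doubling ρ L α φ (c i) (C / Real.sqrt lam)}.ncard : ℕ) : ℝ) ≤
          a2 / t * Fintype.card ι := by
    intro t ht
    rcases le_or_gt (2 * E) (t * Real.log 2) with h | h
    · refine (count hL hρc hρx hρy hρ0 hρm hρM hC hβ hβ1 hβC hA hφ hD hW hG hC1 hc ht h).trans ?_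
      have h1 : (1 + lam) ≤ (1 + C₂) * Fintype.card ι := by nlinarith
      calc (L + 2) * C₁ * W * (2 * D) * (1 + lam) / (β ^ 2 * (t * Real.log 2))
          ≤ (L + 2) * C₁ * W * (2 * D) * ((1 + C₂) * Fintype.card ι) /
            (β ^ 2 * (t * Real.log 2)) := by gcongr
        _ = a1 / t * Fintype.card ι := by
            rw [ha1]
            field_simp
        _ ≤ a2 / t * Fintype.card ι := by
            gcongr
            linarith
    · have h1 : (({i | t ≤ doubling ρ L α φ (c i) (C / Real.sqrt lam)}.ncard : ℕ) : ℝ) ≤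
          Fintype.card ι := by
        have := Set.ncard_le_card {i | t ≤ doubling ρ L α φ (c i) (C / Real.sqrt lam)}
        rw [Nat.card_eq_fintype_card] at this
        exact_mod_cast this
      have h2 : 1 ≤ a2 / t := by
        rw [le_div_iff₀ ht, one_mul]
        have : t < T0 := by
          rw [hT0, lt_div_iff₀ hlog]
          exact h
        linarith
      nlinarith
  refine ⟨fun t ht => (hweak t ht).trans ?_, ?_⟩
  · gcongr
    linarith
  · set v : ι → ℝ := fun i => doubling ρ L α φ (c i) (C / Real.sqrt lam) with hv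
    set V : ℝ := V1 * Real.sqrt (1 + lam) with hV
    have hvV : ∀ i, v i ≤ V := fun i =>
      doubling_upper hL hρc hρx hρy hρ0 hρm hρM hC hβ hβ1 hβC hA hφ hE hD hG0 hG (c i)
    set J : ℕ := ⌈Real.logb 2 (1 + V)⌉₊ with hJ
    have hV0 : 0 ≤ V := by positivity
    have hVJ : V < 2 ^ J := by
      have h1 : Real.logb 2 (1 + V) ≤ J := Nat.le_ceil _
      rw [Real.logb_le_iff_le_rpow one_lt_two (by linarith), Real.rpow_natCast] at h1
      linarith
    have hlogb0 : 0 ≤ Real.logb 2 (1 + V) := Real.logb_nonneg one_lt_two (by linarith)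
    have hJle : (J : ℝ) ≤ Real.logb 2 (1 + V) + 1 := (Nat.ceil_lt_add_one hlogb0).le
    have hll : Real.log 2 ≤ Real.log (2 + lam) := Real.log_le_log two_pos (by linarith)
    have hlogV : Real.log (1 + V) ≤ Real.log (1 + V1) + Real.log (2 + lam) := by
      rw [← Real.log_mul (by positivity) (by positivity)]
      refine Real.log_le_log (by positivity) ?_
      have h1 : Real.sqrt (1 + lam) ≤ 1 + lam := by
        rw [Real.sqrt_le_left (by linarith)]
        nlinarith
      have h2 : V ≤ V1 * (1 + lam) := mul_le_mul_of_nonneg_left h1 hV10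
      nlinarith
    have hJ2 : (J : ℝ) ≤ (Real.log (1 + V1) / Real.log 2 + 2) / Real.log 2 * Real.log (2 + lam) := by
      refine hJle.trans ?_
      rw [Real.logb]
      have h1 : Real.log (1 + V) / Real.log 2 ≤
          (Real.log (1 + V1) + Real.log (2 + lam)) / Real.log 2 := by gcongr
      have h2 : 1 ≤ Real.log (2 + lam) / Real.log 2 := by
        rw [le_div_iff₀ hlog]
        linarith
      have h3 : Real.log (1 + V1) / Real.log 2 ≤
          Real.log (1 + V1) / Real.log 2 * (Real.log (2 + lam) / Real.log 2) :=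
        le_mul_of_one_le_right (by positivity) h2
      rw [add_div] at h1
      have h4 : (Real.log (1 + V1) / Real.log 2 + 2) / Real.log 2 * Real.log (2 + lam) =
          Real.log (1 + V1) / Real.log 2 * (Real.log (2 + lam) / Real.log 2) +
            2 * (Real.log (2 + lam) / Real.log 2) := by ring
      rw [h4]
      linarith
    have hsum : ∑ i, v i ≤ Fintype.card ι + J * a2 * Fintype.card ι := by
      calc ∑ i, v i ≤ ∑ i, (1 + ∑ k ∈ Finset.range J,
            (2 : ℝ) ^ k * (if (2 : ℝ) ^ k ≤ v i then 1 else 0)) :=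
            Finset.sum_le_sum fun i _ => dyadic (v i) J ((hvV i).trans_lt hVJ)
        _ = Fintype.card ι + ∑ k ∈ Finset.range J, (2 : ℝ) ^ k *
            (({i | (2 : ℝ) ^ k ≤ v i}.ncard : ℕ) : ℝ) := by
            rw [Finset.sum_add_distrib, Finset.sum_comm]
            congr 1
            · simp
            · refine Finset.sum_congr rfl fun k _ => ?_
              rw [← Finset.mul_sum]
              congr 1
              rw [Finset.sum_ite, Finset.sum_const_zero, add_zero, Finset.sum_const, nsmul_eq_mul,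
                mul_one, ← Set.ncard_coe_finset]
              congr 2
              ext i
              simp
        _ ≤ Fintype.card ι + ∑ k ∈ Finset.range J, a2 * Fintype.card ι := by
            refine add_le_add le_rfl (Finset.sum_le_sum fun k _ => ?_)
            have h1 := hweak (2 ^ k) (by positivity)
            calc (2 : ℝ) ^ k * (({i | (2 : ℝ) ^ k ≤ v i}.ncard : ℕ) : ℝ)
                ≤ (2 : ℝ) ^ k * (a2 / 2 ^ k * Fintype.card ι) := by gcongr
              _ = a2 * Fintype.card ι := by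
                  field_simp
        _ = Fintype.card ι + J * a2 * Fintype.card ι := by
            rw [Finset.sum_const, Finset.card_range, nsmul_eq_mul]
            ring
    refine hsum.trans ?_
    have h1 : (1 : ℝ) ≤ 1 / Real.log 2 * Real.log (2 + lam) := by
      rw [one_div, ← div_eq_inv_mul, le_div_iff₀ hlog]
      linarith
    have h2 : (J : ℝ) * a2 ≤ a2 * ((Real.log (1 + V1) / Real.log 2 + 2) / Real.log 2) *
        Real.log (2 + lam) := by
      have := mul_le_mul_of_nonneg_right hJ2 (show 0 ≤ a2 by positivity)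
      linarith
    have h3 : 1 + J * a2 ≤ a3 * Real.log (2 + lam) := by
      rw [ha3]
      linarith
    have h4 : (Fintype.card ι : ℝ) + J * a2 * Fintype.card ι = (1 + J * a2) * Fintype.card ι := by
      ring
    rw [h4]
    have h5 : 0 ≤ a2 * Real.log (2 + lam) :=
      mul_nonneg (by positivity) (Real.log_nonneg (by linarith))
    refine mul_le_mul_of_nonneg_right ?_ (by positivity)
    linarith

end assembly

end Pool.Agent.Y291.DB
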