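import Mathlib

/-!
# Eigenfunctions, geodesic discs and doubling indices on a torus

The torus is the quotient of `ℝ × ℝ` by the lattice generated by `(L, α)` and `(0, 2π)`, with the
metric `ρ(x, y)(dx² + dy²)`.  Functions on it and subsets of it are the ones of `ℝ × ℝ` invariant
under the lattice.
-/

namespace Pool.Agent.Y291.DB

open MeasureTheory Real

/-- The length of the curve `γ : [0, 1] → ℝ × ℝ` in the metric `ρ(dx² + dy²)`. -/
noncomputable def len (ρ : ℝ × ℝ → ℝ) (γ : ℝ → ℝ × ℝ) : ℝ :=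
  ∫ s in (0 : ℝ)..1, Real.sqrt (ρ (γ s)) * Real.sqrt ((deriv γ s).1 ^ 2 + (deriv γ s).2 ^ 2)

/-- The Riemannian distance on the torus between the classes of `p` and `q`: the infimum of the
lengths of the `C¹` curves from `p` to a point congruent to `q`. -/
noncomputable def gdist (ρ : ℝ × ℝ → ℝ) (L α : ℝ) (p q : ℝ × ℝ) : ℝ :=
  sInf {l : ℝ | ∃ γ : ℝ → ℝ × ℝ, ContDiff ℝ 1 γ ∧ γ 0 = p ∧
    (∃ m n : ℤ, γ 1 = (q.1 + m * L, q.2 + m * α + n * (2 * π))) ∧ l = len ρ γ}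

/-- The geodesic disc of radius `r` with center `p` (a set invariant under the lattice). -/
def disc (ρ : ℝ × ℝ → ℝ) (L α : ℝ) (p : ℝ × ℝ) (r : ℝ) : Set (ℝ × ℝ) :=
  {q | gdist ρ L α p q < r}

/-- The doubling index of `φ` on the geodesic disc of radius `r` with center `p`. -/
noncomputable def doubling (ρ : ℝ × ℝ → ℝ) (L α : ℝ) (φ : ℝ × ℝ → ℝ) (p : ℝ × ℝ) (r : ℝ) : ℝ :=
  Real.logb 2 (sSup ((fun q => |φ q|) '' disc ρ L α p (2 * r)) /
    sSup ((fun q => |φ q|) '' disc ρ L α p r))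

/-- `φ` is a real eigenfunction with eigenvalue `lam > 0` of the Laplacian of the torus:
`φ_xx + φ_yy + lam * ρ * φ = 0`. -/
structure Eigen (ρ : ℝ × ℝ → ℝ) (L α lam : ℝ) (φ : ℝ × ℝ → ℝ) : Prop where
  pos : 0 < lam
  smooth : ContDiff ℝ 2 φ
  perx : ∀ p : ℝ × ℝ, φ (p.1 + L, p.2 + α) = φ p
  pery : ∀ p : ℝ × ℝ, φ (p.1, p.2 + 2 * π) = φ p
  ne : ∃ p, φ p ≠ 0
  eq : ∀ p : ℝ × ℝ, iteratedDeriv 2 (fun x => φ (x, p.2)) p.1 +
    iteratedDeriv 2 (fun y => φ (p.1, y)) p.2 + lam * ρ p * φ p = 0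

/-- The discs of radius `C / √lam` with centers `c i` form an admissible covering for `φ` with
constants `C`, `C₁`, `C₂`. -/
structure Admissible (ρ : ℝ × ℝ → ℝ) (L α lam : ℝ) (φ : ℝ × ℝ → ℝ) (C C₁ C₂ : ℝ)
    {ι : Type} [Fintype ι] (c : ι → ℝ × ℝ) : Prop where
  cover : ∀ q : ℝ × ℝ, ∃ i, q ∈ disc ρ L α (c i) (C / Real.sqrt lam)
  lower : C₂⁻¹ * lam ≤ Fintype.card ι
  upper : (Fintype.card ι : ℝ) ≤ C₂ * lam
  mult : ∀ q : ℝ × ℝ, ({i | q ∈ disc ρ L α (c i) (C / Real.sqrt lam)}.ncard : ℝ) ≤ C₁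
  zero : ∀ i, φ (c i) = 0

end Pool.Agent.Y291.DB
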