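import Pool.Agent.Y291.DB.Defs

/-!
# Elementary geometry of geodesic discs
-/

set_option linter.unusedSectionVars false
set_option linter.unusedVariables false

namespace Pool.Agent.Y291.DB

open MeasureTheory Real

section geo

variable {ρ : ℝ × ℝ → ℝ} {L α ρm ρM : ℝ}

theorem len_nonneg (ρ : ℝ × ℝ → ℝ) (γ : ℝ → ℝ × ℝ) : 0 ≤ len ρ γ :=
  intervalIntegral.integral_nonneg zero_le_one fun s _ => by positivity

/-- Straight curves. -/
theorem gdist_le (hρM : ∀ p, ρ p ≤ ρM) (hρc : Continuous ρ) (p q : ℝ × ℝ) :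
    gdist ρ L α p q ≤ Real.sqrt ρM * (|q.1 - p.1| + |q.2 - p.2|) := by
  set γ : ℝ → ℝ × ℝ := fun s => (p.1 + s * (q.1 - p.1), p.2 + s * (q.2 - p.2)) with hγ
  have hc : ContDiff ℝ 1 γ := by
    rw [hγ]
    fun_prop
  have hd : ∀ s, deriv γ s = (q.1 - p.1, q.2 - p.2) := by
    intro s
    have h1 : HasDerivAt (fun s : ℝ => p.1 + s * (q.1 - p.1)) (q.1 - p.1) s := by
      simpa using ((hasDerivAt_id s).mul_const (q.1 - p.1)).const_add p.1
    have h2 : HasDerivAt (fun s : ℝ => p.2 + s * (q.2 - p.2)) (q.2 - p.2) s := by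
      simpa using ((hasDerivAt_id s).mul_const (q.2 - p.2)).const_add p.2
    exact (h1.prodMk h2).deriv
  have hlen : len ρ γ ≤ Real.sqrt ρM * (|q.1 - p.1| + |q.2 - p.2|) := by
    have h1 : len ρ γ ≤ ∫ s in (0 : ℝ)..1, Real.sqrt ρM * (|q.1 - p.1| + |q.2 - p.2|) := by
      unfold len
      refine intervalIntegral.integral_mono_on zero_le_one ?_ ?_ ?_
      · refine Continuous.intervalIntegrable ?_ _ _
        simp only [hd]
        have : Continuous γ := hc.continuous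
        fun_prop
      · exact continuous_const.intervalIntegrable _ _
      · intro s _
        rw [hd]
        have h3 : Real.sqrt ((q.1 - p.1) ^ 2 + (q.2 - p.2) ^ 2) ≤ |q.1 - p.1| + |q.2 - p.2| := by
          rw [Real.sqrt_le_left (by positivity)]
          nlinarith [sq_abs (q.1 - p.1), sq_abs (q.2 - p.2), abs_nonneg (q.1 - p.1),
            abs_nonneg (q.2 - p.2), mul_nonneg (abs_nonneg (q.1 - p.1)) (abs_nonneg (q.2 - p.2))]
        have h4 : Real.sqrt (ρ (γ s)) ≤ Real.sqrt ρM := Real.sqrt_le_sqrt (hρM _)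
        exact mul_le_mul h4 h3 (Real.sqrt_nonneg _) (Real.sqrt_nonneg _)
    simpa using h1
  refine le_trans (csInf_le ⟨0, ?_⟩ ⟨γ, hc, ?_, ⟨0, 0, ?_⟩, rfl⟩) hlen
  · rintro _ ⟨γ', _, _, _, rfl⟩
    exact len_nonneg _ _
  · simp [hγ]
  · simp [hγ]

theorem gdist_nonempty (p q : ℝ × ℝ) : {l : ℝ | ∃ γ : ℝ → ℝ × ℝ, ContDiff ℝ 1 γ ∧ γ 0 = p ∧
    (∃ m n : ℤ, γ 1 = (q.1 + m * L, q.2 + m * α + n * (2 * π))) ∧ l = len ρ γ}.Nonempty := by
  refine ⟨_, fun s => (p.1 + s * (q.1 - p.1), p.2 + s * (q.2 - p.2)), by fun_prop, by simp,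
    ⟨0, 0, by simp⟩, rfl⟩

/-- A point in a disc has a congruent point with close coordinates. -/
theorem gdist_lt (hρ0 : 0 < ρm) (hρm : ∀ p, ρm ≤ ρ p) (hρc : Continuous ρ) {p q : ℝ × ℝ} {r : ℝ}
    (h : gdist ρ L α p q < r) : ∃ m n : ℤ, |q.1 + m * L - p.1| ≤ r / Real.sqrt ρm ∧
      |q.2 + m * α + n * (2 * π) - p.2| ≤ r / Real.sqrt ρm := by
  obtain ⟨l, ⟨γ, hc, h0, ⟨m, n, h1⟩, rfl⟩, hl⟩ := exists_lt_of_csInf_lt (gdist_nonempty p q) h
  have hs0 : 0 < Real.sqrt ρm := Real.sqrt_pos.2 hρ0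
  have hdc : Continuous (deriv γ) := hc.continuous_deriv le_rfl
  have hγc : Continuous γ := hc.continuous
  have hdd : ∀ s, HasDerivAt γ (deriv γ s) s := fun s =>
    ((hc.differentiable one_ne_zero) s).hasDerivAt
  have hd1 : ∀ s, HasDerivAt (fun s => (γ s).1) (deriv γ s).1 s := fun s =>
    ((ContinuousLinearMap.fst ℝ ℝ ℝ).hasFDerivAt (x := γ s)).comp_hasDerivAt s (hdd s)
  have hd2 : ∀ s, HasDerivAt (fun s => (γ s).2) (deriv γ s).2 s := fun s =>
    ((ContinuousLinearMap.snd ℝ ℝ ℝ).hasFDerivAt (x := γ s)).comp_hasDerivAt s (hdd s)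
  have c1 : Continuous fun s => (deriv γ s).1 := hdc.fst
  have c2 : Continuous fun s => (deriv γ s).2 := hdc.snd
  have e1 := intervalIntegral.integral_eq_sub_of_hasDerivAt (a := 0) (b := 1) (fun s _ => hd1 s)
    (c1.intervalIntegrable _ _)
  have e2 := intervalIntegral.integral_eq_sub_of_hasDerivAt (a := 0) (b := 1) (fun s _ => hd2 s)
    (c2.intervalIntegrable _ _)
  rw [h0, h1] at e1 e2
  simp only at e1 e2
  have key : ∀ f : ℝ → ℝ, Continuous f → (∀ s, |f s| ≤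
      Real.sqrt ((deriv γ s).1 ^ 2 + (deriv γ s).2 ^ 2)) →
      |∫ s in (0 : ℝ)..1, f s| ≤ r / Real.sqrt ρm := by
    intro f hf hfb
    rw [le_div_iff₀ hs0]
    have h3 : |∫ s in (0 : ℝ)..1, f s| ≤ ∫ s in (0 : ℝ)..1, |f s| :=
      intervalIntegral.abs_integral_le_integral_abs zero_le_one
    have h4 : (∫ s in (0 : ℝ)..1, |f s|) * Real.sqrt ρm ≤ len ρ γ := by
      rw [mul_comm, ← intervalIntegral.integral_const_mul]
      unfold len
      refine intervalIntegral.integral_mono_on zero_le_one ?_ ?_ ?_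
      · exact (continuous_const.mul hf.abs).intervalIntegrable _ _
      · refine Continuous.intervalIntegrable ?_ _ _
        fun_prop
      · intro s _
        exact mul_le_mul (Real.sqrt_le_sqrt (hρm _)) (hfb s) (abs_nonneg _) (Real.sqrt_nonneg _)
    nlinarith
  refine ⟨m, n, ?_, ?_⟩
  · rw [← e1]
    refine key _ c1 fun s => ?_
    rw [← Real.sqrt_sq_eq_abs]
    exact Real.sqrt_le_sqrt (by nlinarith [sq_nonneg (deriv γ s).2])
  · rw [← e2]
    refine key _ c2 fun s => ?_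
    rw [← Real.sqrt_sq_eq_abs]
    exact Real.sqrt_le_sqrt (by nlinarith [sq_nonneg (deriv γ s).1])

/-- Invariance under the lattice. -/
theorem per_all {f : ℝ × ℝ → ℝ} (h1 : ∀ p : ℝ × ℝ, f (p.1 + L, p.2 + α) = f p)
    (h2 : ∀ p : ℝ × ℝ, f (p.1, p.2 + 2 * π) = f p) (m n : ℤ) (p : ℝ × ℝ) :
    f (p.1 + m * L, p.2 + m * α + n * (2 * π)) = f p := by
  have a1 : ∀ n : ℤ, ∀ p : ℝ × ℝ, f (p.1, p.2 + n * (2 * π)) = f p := by
    intro n
    induction n using Int.induction_on with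
    | zero => intro p; simp
    | succ n ih =>
      intro p
      have h3 := h2 (p.1, p.2 + n * (2 * π))
      simp only at h3
      have h4 := ih p
      push_cast at h4 ⊢
      rw [← h4, ← h3]
      congr 2
      ring
    | pred n ih =>
      intro p
      have h3 := h2 (p.1, p.2 + ((-(n : ℤ) - 1 : ℤ) : ℝ) * (2 * π))
      simp only at h3
      have h4 := ih p
      rw [← h4, ← h3]
      congr 2
      push_cast
      ring
  have a2 : ∀ m : ℤ, ∀ p : ℝ × ℝ, f (p.1 + m * L, p.2 + m * α) = f p := by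
    intro m
    induction m using Int.induction_on with
    | zero => intro p; simp
    | succ n ih =>
      intro p
      have h3 := h1 (p.1 + n * L, p.2 + n * α)
      simp only at h3
      have h4 := ih p
      push_cast at h4 ⊢
      rw [← h4, ← h3]
      congr 2 <;> ring
    | pred n ih =>
      intro p
      have h3 := h1 (p.1 + ((-(n : ℤ) - 1 : ℤ) : ℝ) * L, p.2 + ((-(n : ℤ) - 1 : ℤ) : ℝ) * α)
      simp only at h3
      have h4 := ih p
      rw [← h4, ← h3]
      congr 2 <;> (push_cast; ring)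
  rw [← a2 m p, ← a1 n (p.1 + m * L, p.2 + m * α)]

theorem gdist_shift (p q : ℝ × ℝ) (m n : ℤ) :
    gdist ρ L α p (q.1 + m * L, q.2 + m * α + n * (2 * π)) = gdist ρ L α p q := by
  unfold gdist
  congr 1
  ext l
  constructor
  · rintro ⟨γ, h1, h2, ⟨m', n', h3⟩, h4⟩
    refine ⟨γ, h1, h2, ⟨m + m', n + n', ?_⟩, h4⟩
    rw [h3]
    ext <;> (simp only; push_cast; ring)
  · rintro ⟨γ, h1, h2, ⟨m', n', h3⟩, h4⟩
    refine ⟨γ, h1, h2, ⟨m' - m, n' - n, ?_⟩, h4⟩
    rw [h3]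
    ext <;> (simp only; push_cast; ring)

/-- Shift of the first point (for an invariant metric). -/
theorem gdist_shift_left (hp : ∀ m n : ℤ, ∀ p : ℝ × ℝ,
    ρ (p.1 + m * L, p.2 + m * α + n * (2 * π)) = ρ p) (p q : ℝ × ℝ) (m n : ℤ) :
    gdist ρ L α (p.1 + m * L, p.2 + m * α + n * (2 * π)) q = gdist ρ L α p q := by
  have key : ∀ (p : ℝ × ℝ) (m n : ℤ) (l : ℝ), (∃ γ : ℝ → ℝ × ℝ, ContDiff ℝ 1 γ ∧ γ 0 = p ∧
      (∃ m n : ℤ, γ 1 = (q.1 + m * L, q.2 + m * α + n * (2 * π))) ∧ l = len ρ γ) →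
      (∃ γ : ℝ → ℝ × ℝ, ContDiff ℝ 1 γ ∧ γ 0 = (p.1 + m * L, p.2 + m * α + n * (2 * π)) ∧
      (∃ m n : ℤ, γ 1 = (q.1 + m * L, q.2 + m * α + n * (2 * π))) ∧ l = len ρ γ) := by
    rintro p m n l ⟨γ, h1, h2, ⟨m', n', h3⟩, h4⟩
    refine ⟨fun s => ((γ s).1 + m * L, (γ s).2 + m * α + n * (2 * π)), by fun_prop,
      by simp only [h2], ⟨m + m', n + n', ?_⟩, ?_⟩
    · simp only [h3]
      ext <;> (simp only; push_cast; ring)
    · rw [h4]
      unfold len
      refine intervalIntegral.integral_congr fun s _ => ?_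
      have hd : deriv (fun s => ((γ s).1 + m * L, (γ s).2 + m * α + n * (2 * π))) s =
          deriv γ s := by
        have e1 : (fun s => ((γ s).1 + m * L, (γ s).2 + m * α + n * (2 * π))) =
            fun s => γ s + (m * L, m * α + n * (2 * π)) := by
          funext s
          ext
          · rfl
          · simp only [Prod.snd_add]
            ring
        rw [e1, deriv_add_const]
      simp only [hd, hp]
  unfold gdist
  congr 1
  ext l
  constructor
  · intro h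
    have := key (p.1 + m * L, p.2 + m * α + n * (2 * π)) (-m) (-n) l h
    obtain ⟨γ, h1, h2, h3, h4⟩ := this
    refine ⟨γ, h1, ?_, h3, h4⟩
    rw [h2]
    ext <;> (simp only; push_cast; ring)
  · exact key p m n l

end geo

end Pool.Agent.Y291.DB
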