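import Pool.Agent.Y291.DB.Slice

/-!
# Growth of trigonometric polynomials
-/

set_option linter.unusedSectionVars false
set_option linter.unusedVariables false

namespace Pool.Agent.Y291.DB

open MeasureTheory Complex Real Polynomial

open scoped ComplexConjugate

/-- A trigonometric polynomial. -/
noncomputable def TT (K : ℕ) (c : ℤ → ℂ) (z : ℂ) : ℂ :=
  ∑ k ∈ Finset.Icc (-(K : ℤ)) K, c k * Complex.exp (k * z * I)

/-- The polynomial of a trigonometric polynomial. -/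
noncomputable def TP (K : ℕ) (c : ℤ → ℂ) : ℂ[X] :=
  ∑ j ∈ Finset.range (2 * K + 1), C (c ((j : ℤ) - K)) * X ^ j

theorem TP_natDegree (K : ℕ) (c : ℤ → ℂ) : (TP K c).natDegree ≤ 2 * K := by
  unfold TP
  refine Polynomial.natDegree_sum_le_of_forall_le _ _ fun j hj => ?_
  refine (Polynomial.natDegree_C_mul_X_pow_le _ _).trans ?_
  rw [Finset.mem_range] at hj
  omega

theorem TT_eq (K : ℕ) (c : ℤ → ℂ) (z : ℂ) :
    TT K c z = Complex.exp (-(K * z * I)) * (TP K c).eval (Complex.exp (z * I)) := by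
  unfold TT TP
  rw [Polynomial.eval_finsetSum, Finset.mul_sum]
  refine Finset.sum_nbij' (fun k => (k + K).toNat) (fun j => (j : ℤ) - K) ?_ ?_ ?_ ?_ ?_
  · intro k hk
    rw [Finset.mem_Icc] at hk
    rw [Finset.mem_range]
    omega
  · intro j hj
    rw [Finset.mem_range] at hj
    rw [Finset.mem_Icc]
    omega
  · intro k hk
    rw [Finset.mem_Icc] at hk
    omega
  · intro j hj
    rw [Finset.mem_range] at hj
    omega
  · intro k hk
    rw [Finset.mem_Icc] at hk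
    have h1 : (((k + K).toNat : ℤ)) = k + K := by omega
    have h2 : (((k + K).toNat : ℕ) : ℂ) = k + K := by exact_mod_cast congrArg (Int.cast : ℤ → ℂ) h1
    rw [Polynomial.eval_mul, Polynomial.eval_C, Polynomial.eval_pow, Polynomial.eval_X,
      ← Complex.exp_nat_mul, h2, h1, mul_left_comm, ← Complex.exp_add]
    congr 2
    · ring_nf
    · ring

theorem eval_roots {p : ℂ[X]} (w : ℂ) :
    p.eval w = p.leadingCoeff * ∏ x : p.roots, (w - (x : ℂ)) := by
  have h1 := (IsAlgClosed.splits p).eq_prod_roots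
  conv_lhs => rw [h1]
  rw [Polynomial.eval_mul, Polynomial.eval_C, Polynomial.eval_multiset_prod, Multiset.map_map]
  congr 1
  rw [Finset.prod_eq_multiset_prod, Multiset.map_univ p.roots (fun x => w - x)]
  congr 2
  funext x
  simp

theorem norm_TT (K : ℕ) (c : ℤ → ℂ) (z : ℂ) :
    ‖TT K c z‖ = Real.exp (K * z.im) * ‖(TP K c).eval (Complex.exp (z * I))‖ := by
  rw [TT_eq, norm_mul, Complex.norm_exp]
  congr 2
  simp [Complex.mul_re, Complex.mul_im]

/-- The growth function of a trigonometric polynomial. -/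
noncomputable def GF (δ : ℝ) (K : ℕ) (c : ℤ → ℂ) (y : ℝ) : ℝ :=
  Phi δ (fun x : (TP K c).roots => (x : ℂ)) y

theorem GF_nonneg {δ : ℝ} (hδ : 0 ≤ δ) (K : ℕ) (c : ℤ → ℂ) (y : ℝ) : 0 ≤ GF δ K c y :=
  Phi_nonneg hδ _ _

theorem card_roots (K : ℕ) (c : ℤ → ℂ) : Fintype.card (TP K c).roots ≤ 2 * K := by
  rw [Multiset.card_coe]
  exact (Polynomial.card_roots' _).trans (TP_natDegree K c)

theorem GF_periodic (δ : ℝ) (K : ℕ) (c : ℤ → ℂ) (y : ℝ) (n : ℤ) :
    GF δ K c (y + n * (2 * π)) = GF δ K c y := by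
  unfold GF Phi
  have h1 : Complex.exp (((y + n * (2 * π) : ℝ) : ℂ) * I) = Complex.exp (y * I) := by
    rw [show ((y + n * (2 * π) : ℝ) : ℂ) * I = y * I + n * (2 * π * I) by push_cast; ring,
      Complex.exp_add, Complex.exp_int_mul_two_pi_mul_I, mul_one]
  rw [h1]

theorem GF_le {δ : ℝ} (hδ0 : 0 < δ) (hδ : δ ≤ 1 / 2) (K : ℕ) (c : ℤ → ℂ) (y : ℝ) :
    GF δ K c y ≤ 4 * K := by
  have hE : ‖Complex.exp (y * I)‖ = 1 := Complex.norm_exp_ofReal_mul_I y
  have h1 : (Fintype.card (TP K c).roots : ℝ) ≤ 2 * K := by exact_mod_cast card_roots K c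
  unfold GF Phi
  have h2 : δ * ‖∑ j : (TP K c).roots, kk δ (Complex.exp (y * I)) (j : ℂ)‖ ≤ 2 * K := by
    refine (mul_le_mul_of_nonneg_left (norm_sum_le _ _) hδ0.le).trans ?_
    refine (mul_le_mul_of_nonneg_left (Finset.sum_le_sum fun j _ =>
      kk_norm hδ0 hδ hE) hδ0.le).trans ?_
    rw [Finset.sum_const, Finset.card_univ, nsmul_eq_mul]
    calc δ * ((Fintype.card (TP K c).roots : ℝ) * (1 / δ)) = Fintype.card (TP K c).roots := by
          field_simp
      _ ≤ _ := h1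
  have h3 : ∑ j : (TP K c).roots, gg δ (Complex.exp (y * I)) (j : ℂ) ≤ 2 * K := by
    refine (Finset.sum_le_sum fun j _ => (?_ : _ ≤ (1 : ℝ))).trans ?_
    · unfold gg
      rw [div_le_one (by positivity)]
      nlinarith [sq_nonneg ‖Complex.exp (y * I) - (j : ℂ)‖]
    · rw [Finset.sum_const, Finset.card_univ, nsmul_eq_mul, mul_one]
      exact h1
  linarith

/-- The measure of the set of points with large growth. -/
theorem GF_meas {δ κ s : ℝ} (hδ0 : 0 < δ) (hδ : δ ≤ 1 / 2) (K : ℕ) (c : ℤ → ℂ)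
    (hκ : 2 * K * δ ≤ κ) (hs : 0 < s) :
    volume {y : ℝ | y ∈ Set.Ioc 0 (2 * π) ∧ s ≤ GF δ K c y} ≤ ENNReal.ofReal (200 * κ / s) := by
  refine slice hδ0 hδ _ ?_ hs
  refine le_trans (mul_le_mul_of_nonneg_right ?_ hδ0.le) hκ
  exact_mod_cast card_roots K c

/-- The Remez inequality for trigonometric polynomials. -/
theorem trig_remez {α β δ : ℝ} (hα : 1 ≤ α) (hβ0 : 0 < β) (hβ : β ≤ 1) (hδ0 : 0 < δ)
    (hδ : δ ≤ 1 / 2) (K : ℕ) (c : ℤ → ℂ) (y : ℝ) {m : ℝ} (hm : 0 ≤ m)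
    (hG : volume {y' : ℝ | |y' - y| ≤ β * δ ∧ m < ‖TT K c y'‖} ≤ ENNReal.ofReal (β * δ))
    {z : ℂ} (hz : ‖Complex.exp (z * I) - Complex.exp (y * I)‖ ≤ α * δ) :
    ‖TT K c z‖ ≤ m * Real.exp ((2 * α + 204 * α ^ 3 + 68 * α ^ 2 / β) * GF δ K c y + 1 +
      K * |z.im|) := by
  by_cases hp : TP K c = 0
  · rw [norm_TT, hp, Polynomial.eval_zero, norm_zero, mul_zero]
    positivity
  · have hl : 0 < ‖(TP K c).leadingCoeff‖ := by
      rw [norm_pos_iff]
      exact Polynomial.leadingCoeff_ne_zero.2 hp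
    have hG' : volume {y' : ℝ | |y' - y| ≤ β * δ ∧ m / ‖(TP K c).leadingCoeff‖ <
        ‖∏ x : (TP K c).roots, (Complex.exp (y' * I) - (x : ℂ))‖} ≤ ENNReal.ofReal (β * δ) := by
      refine le_trans (measure_mono ?_) hG
      rintro y' ⟨h1, h2⟩
      refine ⟨h1, ?_⟩
      rw [norm_TT, Complex.ofReal_im, mul_zero, Real.exp_zero, one_mul, eval_roots, norm_mul]
      rw [div_lt_iff₀ hl] at h2
      rwa [mul_comm]
    have h1 := remez hα hβ0 hβ hδ0 hδ (fun x : (TP K c).roots => (x : ℂ)) y hG' hz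
    rw [norm_TT, eval_roots, norm_mul]
    have h2 : Real.exp (K * z.im) ≤ Real.exp (K * |z.im|) :=
      Real.exp_le_exp.2 (mul_le_mul_of_nonneg_left (le_abs_self _) (by positivity))
    set X := Real.exp ((2 * α + 204 * α ^ 3 + 68 * α ^ 2 / β) *
      Phi δ (fun x : (TP K c).roots => (x : ℂ)) y + 1) with hX
    have h3 : ‖(TP K c).leadingCoeff‖ *
        ‖∏ x : (TP K c).roots, (Complex.exp (z * I) - (x : ℂ))‖ ≤ m * X := by
      refine (mul_le_mul_of_nonneg_left h1 hl.le).trans (le_of_eq ?_)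
      field_simp
    calc Real.exp (K * z.im) * (‖(TP K c).leadingCoeff‖ *
          ‖∏ x : (TP K c).roots, (Complex.exp (z * I) - (x : ℂ))‖)
        ≤ Real.exp (K * |z.im|) * (m * X) := by gcongr
      _ = m * (X * Real.exp (K * |z.im|)) := by ring
      _ = _ := by
        rw [hX, ← Real.exp_add]
        rfl

end Pool.Agent.Y291.DB
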