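import Pool.Agent.Y291.DB.Modes
import Pool.Agent.Y291.DB.Trig
import Pool.Agent.Y291.DB.Prop

/-!
# The local estimate
-/

set_option linter.unusedSectionVars false
set_option linter.unusedVariables false

namespace Pool.Agent.Y291.DB

open MeasureTheory Complex Real

/-- The growth function of the Cauchy data on a slice. -/
noncomputable def Gr (δ b : ℝ) (K : ℕ) (φ φx : ℝ → ℝ → ℝ) (x y : ℝ) : ℝ :=
  GF δ K (fun k => um φ k x + b * um φx k x) y + GF δ K (fun k => um φ k x - b * um φx k x) y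

theorem TT_add (K : ℕ) (c d : ℤ → ℂ) (z : ℂ) :
    TT K (fun k => c k + d k) z = TT K c z + TT K d z := by
  unfold TT
  rw [← Finset.sum_add_distrib]
  exact Finset.sum_congr rfl fun k _ => by ring

theorem TT_sub (K : ℕ) (c d : ℤ → ℂ) (z : ℂ) :
    TT K (fun k => c k - d k) z = TT K c z - TT K d z := by
  unfold TT
  rw [← Finset.sum_sub_distrib]
  exact Finset.sum_congr rfl fun k _ => by ring

theorem TT_smul (K : ℕ) (c : ℤ → ℂ) (b z : ℂ) :
    TT K (fun k => b * c k) z = b * TT K c z := by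
  unfold TT
  rw [Finset.mul_sum]
  exact Finset.sum_congr rfl fun k _ => by ring

/-- Markov's inequality on an interval. -/
theorem markov {g : ℝ → ℝ} (hg : Continuous g) (hg0 : ∀ t, 0 ≤ g t) {a b M s : ℝ} (hab : a ≤ b)
    (hM : ∫ t in a..b, g t ≤ M) (hs : 0 < s) :
    volume {t : ℝ | t ∈ Set.Icc a b ∧ s ≤ g t} ≤ ENNReal.ofReal (M / s) := by
  have hmk := mul_meas_ge_le_integral_of_nonneg (μ := volume.restrict (Set.Icc a b)) (f := g)
    (Filter.Eventually.of_forall hg0) hg.integrableOn_Icc s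
  rw [integral_Icc_eq_integral_Ioc, ← intervalIntegral.integral_of_le hab] at hmk
  have hmeas : MeasurableSet {t : ℝ | s ≤ g t} := (isClosed_le continuous_const hg).measurableSet
  have h1 : {t : ℝ | t ∈ Set.Icc a b ∧ s ≤ g t} = {t : ℝ | s ≤ g t} ∩ Set.Icc a b := by
    ext t
    exact and_comm
  rw [h1, ← Measure.restrict_apply hmeas]
  have hne : (volume.restrict (Set.Icc a b)) {t : ℝ | s ≤ g t} ≠ ⊤ := measure_ne_top _ _
  rw [← ENNReal.ofReal_toReal hne]
  refine ENNReal.ofReal_le_ofReal ?_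
  change (volume.restrict (Set.Icc a b)).real _ ≤ _
  rw [le_div_iff₀ hs]
  linarith

/-- The good slices. -/
noncomputable def XX (φ φx : ℝ → ℝ → ℝ) (b x0 y0 m : ℝ) : Set ℝ :=
  {x : ℝ | x ∈ Set.Icc (x0 - b / 2) (x0 + b / 2) ∧
    ∫ y in (y0 - b / 2)..(y0 + b / 2), (φ x y ^ 2 + b ^ 2 * φx x y ^ 2) ≤ m}

section local_

variable {q : ℝ → ℝ} {φ φx φxx φy φyy : ℝ → ℝ → ℝ} (h : Sol q φ φx φxx φy φyy)
  (hper : ∀ x y, φ x (y + 2 * π) = φ x y)

include h hper

theorem XX_meas {b x0 y0 S Q : ℝ} (hb : 0 < b) (hS0 : 0 < S)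
    (hS : ∀ x y, |x - x0| ≤ b → |y - y0| ≤ b → |φ x y| ≤ S)
    (hQ : ∀ x, q x ≤ Q) (hQ0 : 0 ≤ Q) {C1 : ℝ} (hC1 : 129 + 16 * Q * b ^ 2 ≤ C1) :
    MeasurableSet (XX φ φx b x0 y0 (2 * C1 * b * S ^ 2)) ∧
    ENNReal.ofReal (b / 2) ≤ volume (XX φ φx b x0 y0 (2 * C1 * b * S ^ 2)) := by
  have c1 : Continuous (fun p : ℝ × ℝ => φ p.1 p.2) := h.c
  have c2 : Continuous (fun p : ℝ × ℝ => φx p.1 p.2) := h.cx
  have hcF : Continuous (Function.uncurry fun x y => φ x y ^ 2 + b ^ 2 * φx x y ^ 2) := by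
    show Continuous fun p : ℝ × ℝ => φ p.1 p.2 ^ 2 + b ^ 2 * φx p.1 p.2 ^ 2
    fun_prop
  have hGc := int_cont hcF (y0 - b / 2) (y0 + b / 2)
  have hC10 : 0 < C1 := lt_of_lt_of_le (by positivity) hC1
  have hmeas : MeasurableSet (XX φ φx b x0 y0 (2 * C1 * b * S ^ 2)) :=
    measurableSet_Icc.inter (isClosed_le hGc continuous_const).measurableSet
  refine ⟨hmeas, ?_⟩
  have h1 := cacc h hb hS hQ hQ0
  have h2 : ∫ x in (x0 - b / 2)..(x0 + b / 2), ∫ y in (y0 - b / 2)..(y0 + b / 2),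
      (φ x y ^ 2 + b ^ 2 * φx x y ^ 2) ≤ C1 * b ^ 2 * S ^ 2 := by
    refine h1.trans ?_
    gcongr
  have h3 := markov hGc (fun x => intervalIntegral.integral_nonneg (by linarith)
    fun y _ => by positivity) (a := x0 - b / 2) (b := x0 + b / 2) (by linarith) h2
    (s := 2 * C1 * b * S ^ 2) (by positivity)
  have h4 : C1 * b ^ 2 * S ^ 2 / (2 * C1 * b * S ^ 2) = b / 2 := by
    field_simp
  rw [h4] at h3
  have hsub : Set.Icc (x0 - b / 2) (x0 + b / 2) ⊆ XX φ φx b x0 y0 (2 * C1 * b * S ^ 2) ∪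
      {x : ℝ | x ∈ Set.Icc (x0 - b / 2) (x0 + b / 2) ∧ 2 * C1 * b * S ^ 2 ≤
        ∫ y in (y0 - b / 2)..(y0 + b / 2), (φ x y ^ 2 + b ^ 2 * φx x y ^ 2)} := by
    intro x hx
    rcases le_total (∫ y in (y0 - b / 2)..(y0 + b / 2), (φ x y ^ 2 + b ^ 2 * φx x y ^ 2))
      (2 * C1 * b * S ^ 2) with h5 | h5
    · exact Or.inl ⟨hx, h5⟩
    · exact Or.inr ⟨hx, h5⟩
  have h5 := (measure_mono (μ := volume) hsub).trans ((measure_union_le _ _).trans
    (add_le_add_right h3 _))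
  rw [Real.volume_Icc, show x0 + b / 2 - (x0 - b / 2) = b / 2 + b / 2 by ring,
    ENNReal.ofReal_add (by positivity) (by positivity)] at h5
  exact (ENNReal.add_le_add_iff_right ENNReal.ofReal_ne_top).1 h5

/-- The local estimate. -/
theorem local_bound {L δ β κ A x0 y0 S Q C1 : ℝ} {K : ℕ} (hL : 0 < L)
    (hperx : ∀ x y, φ (x + L) y = φ x y) (hδ0 : 0 < δ) (hδ : δ ≤ 1 / 2) (hβ0 : 0 < β)
    (hβ : β ≤ 1) (hA : 0 ≤ A) (hS0 : 0 < S) (hQ : ∀ x, |q x| ≤ Q) (hQδ : Q * δ ^ 2 ≤ κ ^ 2)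
    (hκ : 0 ≤ κ) (hK : K * δ ≤ κ) (hKQ : Q < ((K : ℝ) + 1) ^ 2) (hC1 : 0 < C1)
    {x y : ℝ} (hx : x ∈ XX φ φx (4 * β * δ) x0 y0 (2 * C1 * (4 * β * δ) * S ^ 2))
    (hy : |y - y0| ≤ β * δ) {x' y' : ℝ} (hx' : |x' - x0| ≤ A * δ) (hy' : |y' - y0| ≤ A * δ)
    {α : ℝ} (hα : (2 * A + 3) * Real.exp ((2 * A + 3) / 2) ≤ α) :
    |φ x' y'| ≤ S * (8 * Real.sqrt C1 * (1 + (A + 2) / (4 * β)) *
      Real.exp (2 * κ ^ 2 * (A + 2) ^ 2 + 2 + κ * (A + 2)) *
      Real.exp ((2 * α + 204 * α ^ 3 + 68 * α ^ 2 / β) * Gr δ (4 * β * δ) K φ φx x y)) := by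
  set b : ℝ := 4 * β * δ with hb
  have hb0 : 0 < b := by positivity
  have hα1 : 1 ≤ α := by
    refine le_trans ?_ hα
    have := Real.add_one_le_exp ((2 * A + 3) / 2)
    nlinarith
  have hinv : ∀ x, ∀ k : ℤ, (K : ℤ) < |k| → um φ k x = 0 := by
    intro x k hk
    refine um_zero h hper hL hperx (fun x => (le_abs_self _).trans (hQ x)) ?_ x
    refine hKQ.trans_le ?_
    have h1 : (K : ℝ) + 1 ≤ |(k : ℝ)| := by
      have : (K : ℤ) + 1 ≤ |k| := hk
      exact_mod_cast this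
    rw [← sq_abs (k : ℝ)]
    exact pow_le_pow_left₀ (by positivity) h1 2
  -- the two trigonometric polynomials
  set cp : ℤ → ℂ := fun k => um φ k x + b * um φx k x with hcp
  set cm : ℤ → ℂ := fun k => um φ k x - b * um φx k x with hcm
  have e1 : ∀ t : ℝ, TT K (fun k => um φ k x) t = φ x t := fun t =>
    (inversion h hper x (hinv x) t).symm
  have e2 : ∀ t : ℝ, TT K (fun k => um φx k x) t = φx x t := fun t =>
    (inversion' h hper hinv x t).symm
  have ep : ∀ z, TT K cp z = TT K (fun k => um φ k x) z + b * TT K (fun k => um φx k x) z := by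
    intro z
    rw [hcp, TT_add, TT_smul]
  have em : ∀ z, TT K cm z = TT K (fun k => um φ k x) z - b * TT K (fun k => um φx k x) z := by
    intro z
    rw [hcm, TT_sub, TT_smul]
  set m : ℝ := 4 * Real.sqrt C1 * S with hm
  have hm0 : 0 < m := by positivity
  have c1 : Continuous (fun p : ℝ × ℝ => φ p.1 p.2) := h.c
  have c2 : Continuous (fun p : ℝ × ℝ => φx p.1 p.2) := h.cx
  have hgc : Continuous fun t => φ x t ^ 2 + b ^ 2 * φx x t ^ 2 := by
    have d1 : Continuous fun t => φ x t := c1.comp (Continuous.prodMk_right x)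
    have d2 : Continuous fun t => φx x t := c2.comp (Continuous.prodMk_right x)
    fun_prop
  have hmk := markov hgc (fun t => by positivity) (a := y0 - b / 2) (b := y0 + b / 2)
    (by linarith) hx.2 (s := m ^ 2 / 2) (by positivity)
  have hval : 2 * C1 * b * S ^ 2 / (m ^ 2 / 2) = β * δ := by
    rw [hm, mul_pow, mul_pow, Real.sq_sqrt hC1.le, hb]
    field_simp
    ring
  rw [hval] at hmk
  have hset : ∀ c : ℤ → ℂ, (∀ t : ℝ, ‖TT K c t‖ ^ 2 ≤ 2 * (φ x t ^ 2 + b ^ 2 * φx x t ^ 2)) →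
      volume {t : ℝ | |t - y| ≤ β * δ ∧ m < ‖TT K c t‖} ≤ ENNReal.ofReal (β * δ) := by
    intro c hc
    refine (measure_mono ?_).trans hmk
    rintro t ⟨h1, h2⟩
    have h3 : |t - y0| ≤ b / 2 := by
      have : t - y0 = (t - y) + (y - y0) := by ring
      rw [this]
      refine (abs_add_le _ _).trans ?_
      rw [hb]
      linarith
    rw [abs_le] at h3
    refine ⟨⟨by linarith, by linarith⟩, ?_⟩
    have h4 : m ^ 2 ≤ ‖TT K c t‖ ^ 2 := pow_le_pow_left₀ hm0.le h2.le 2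
    linarith [hc t]
  have hsetp := hset cp (fun t => by
    rw [ep, e1, e2]
    have : ((φ x t : ℂ) + b * φx x t) = ((φ x t + b * φx x t : ℝ) : ℂ) := by push_cast; ring
    rw [this, Complex.norm_real, Real.norm_eq_abs, sq_abs]
    nlinarith [sq_nonneg (φ x t - b * φx x t)])
  have hsetm := hset cm (fun t => by
    rw [em, e1, e2]
    have : ((φ x t : ℂ) - b * φx x t) = ((φ x t - b * φx x t : ℝ) : ℂ) := by push_cast; ring
    rw [this, Complex.norm_real, Real.norm_eq_abs, sq_abs]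
    nlinarith [sq_nonneg (φ x t + b * φx x t)])
  -- the growth
  set R : ℝ := (A + 2) * δ with hR
  have hR0 : 0 < R := by positivity
  have hKR : K * R ≤ κ * (A + 2) := by
    calc K * R = (K * δ) * (A + 2) := by rw [hR]; ring
      _ ≤ κ * (A + 2) := by gcongr
  set Dc : ℝ := 2 * α + 204 * α ^ 3 + 68 * α ^ 2 / β with hDc
  have hDc0 : 0 ≤ Dc := by positivity
  have hz : ∀ σ : ℝ, |σ| ≤ R → ‖Complex.exp ((y' + σ * I) * I) - Complex.exp (y * I)‖ ≤ α * δ := by
    intro σ hσ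
    have h1 : Complex.exp ((y' + σ * I) * I) - Complex.exp (y * I) =
        Complex.exp (y * I) * (Complex.exp (((y' - y : ℝ) + σ * I) * I) - 1) := by
      rw [mul_sub, mul_one, ← Complex.exp_add]
      congr 2
      push_cast
      ring
    rw [h1, norm_mul, Complex.norm_exp_ofReal_mul_I, one_mul]
    set w : ℂ := ((y' - y : ℝ) + σ * I) * I with hw
    have h2 : ‖w‖ ≤ (2 * A + 3) * δ := by
      rw [hw, norm_mul, Complex.norm_I, mul_one]
      refine (norm_add_le _ _).trans ?_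
      rw [norm_mul, Complex.norm_I, mul_one, Complex.norm_real, Complex.norm_real,
        Real.norm_eq_abs, Real.norm_eq_abs]
      have h3 : |y' - y| ≤ A * δ + β * δ := by
        have : y' - y = (y' - y0) - (y - y0) := by ring
        rw [this]
        exact (abs_sub _ _).trans (by linarith)
      have h4 : β * δ ≤ δ := by nlinarith
      rw [hR] at hσ
      linarith
    have h3 := Complex.norm_exp_sub_sum_le_norm_mul_exp w 1
    simp only [Finset.sum_range_one, pow_zero, Nat.factorial_zero, Nat.cast_one, div_one,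
      pow_one] at h3
    refine h3.trans ?_
    have h4 : Real.exp ‖w‖ ≤ Real.exp ((2 * A + 3) / 2) := by
      refine Real.exp_le_exp.2 (h2.trans ?_)
      nlinarith
    calc ‖w‖ * Real.exp ‖w‖ ≤ ((2 * A + 3) * δ) * Real.exp ((2 * A + 3) / 2) := by gcongr
      _ = (2 * A + 3) * Real.exp ((2 * A + 3) / 2) * δ := by ring
      _ ≤ α * δ := by gcongr
  set G : ℝ := Gr δ b K φ φx x y with hG
  have hGp : 0 ≤ GF δ K cp y := GF_nonneg hδ0.le _ _ _
  have hGm : 0 ≤ GF δ K cm y := GF_nonneg hδ0.le _ _ _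
  have hGeq : G = GF δ K cp y + GF δ K cm y := rfl
  set M : ℝ := m * Real.exp (Dc * G + 1 + κ * (A + 2)) with hM
  have hbd : ∀ c : ℤ → ℂ, GF δ K c y ≤ G →
      volume {t : ℝ | |t - y| ≤ β * δ ∧ m < ‖TT K c t‖} ≤ ENNReal.ofReal (β * δ) →
      ∀ σ : ℝ, |σ| ≤ R → ‖TT K c (y' + σ * I)‖ ≤ M := by
    intro c hc1 hc2 σ hσ
    have h1 := trig_remez hα1 hβ0 hβ hδ0 hδ K c y hm0.le hc2 (z := y' + σ * I) (hz σ hσ)
    refine h1.trans ?_
    rw [hM]
    refine mul_le_mul_of_nonneg_left (Real.exp_le_exp.2 ?_) hm0.le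
    have h2 : ((y' : ℂ) + σ * I).im = σ := by simp
    rw [h2]
    have h3 : K * |σ| ≤ κ * (A + 2) := (mul_le_mul_of_nonneg_left hσ (by positivity)).trans hKR
    have h4 : Dc * GF δ K c y ≤ Dc * G := mul_le_mul_of_nonneg_left hc1 hDc0
    linarith
  have hbp := hbd cp (by rw [hGeq]; linarith) hsetp
  have hbm := hbd cm (by rw [hGeq]; linarith) hsetm
  have hM0 : 0 ≤ M := by positivity
  have f1 : ∀ σ : ℝ, |σ| ≤ R → ‖TT K (fun k => um φ k x) (y' + σ * I)‖ ≤ M := by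
    intro σ hσ
    have h1 : TT K (fun k => um φ k x) (y' + σ * I) =
        (1 / 2) * (TT K cp (y' + σ * I) + TT K cm (y' + σ * I)) := by
      rw [ep, em]
      ring
    rw [h1, norm_mul]
    have h2 := norm_add_le (TT K cp (y' + σ * I)) (TT K cm (y' + σ * I))
    have h3 : ‖(1 / 2 : ℂ)‖ = 1 / 2 := by norm_num
    rw [h3]
    linarith [hbp σ hσ, hbm σ hσ]
  have f2 : ∀ σ : ℝ, |σ| ≤ R → ‖TT K (fun k => um φx k x) (y' + σ * I)‖ ≤ M / b := by
    intro σ hσ
    have hbC : (b : ℂ) ≠ 0 := by exact_mod_cast hb0.ne'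
    have h1 : TT K (fun k => um φx k x) (y' + σ * I) =
        (1 / 2) * (TT K cp (y' + σ * I) - TT K cm (y' + σ * I)) / b := by
      rw [ep, em]
      field_simp
      ring
    rw [h1, norm_div, norm_mul, Complex.norm_real, Real.norm_of_nonneg hb0.le]
    have h2 := norm_sub_le (TT K cp (y' + σ * I)) (TT K cm (y' + σ * I))
    have h3 : ‖(1 / 2 : ℂ)‖ = 1 / 2 := by norm_num
    rw [h3]
    gcongr
    linarith [hbp σ hσ, hbm σ hσ]
  -- propagation
  set v : ℤ → ℝ → ℂ := fun k t => um φ k t * Complex.exp (k * y' * I) with hv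
  set v' : ℤ → ℝ → ℂ := fun k t => um φx k t * Complex.exp (k * y' * I) with hv'
  have d1 : ∀ k ∈ Finset.Icc (-(K : ℤ)) K, ∀ t, HasDerivAt (v k) (v' k t) t := fun k _ t =>
    (um_d1 h hper k t).mul_const _
  have d2 : ∀ k ∈ Finset.Icc (-(K : ℤ)) K, ∀ t, HasDerivAt (v' k)
      ((((k : ℝ) ^ 2 - q t : ℝ) : ℂ) * v k t) t := by
    intro k _ t
    have := (um_d2 h hper k t).mul_const (Complex.exp (k * y' * I))
    convert! this using 1
    simp only [hv]
    ring
  have hPs : ∀ (w : ℤ → ℝ → ℂ) (t σ : ℝ), Ps (Finset.Icc (-(K : ℤ)) K)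
      (fun k t => w k t * Complex.exp (k * y' * I)) t σ = TT K (fun k => w k t) (y' + σ * I) := by
    intro w t σ
    unfold Ps TT
    refine Finset.sum_congr rfl fun k _ => ?_
    rw [mul_assoc, Complex.ofReal_exp, ← Complex.exp_add]
    congr 2
    push_cast
    have hI : I * I = -1 := Complex.I_mul_I
    linear_combination (-(k : ℂ) * σ) * hI
  have hxx : |x' - x| ≤ R := by
    have h1 : x' - x = (x' - x0) - (x - x0) := by ring
    have h2 : |x - x0| ≤ b / 2 := abs_le.2 ⟨by linarith [hx.1.1], by linarith [hx.1.2]⟩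
    rw [h1]
    refine (abs_sub _ _).trans ?_
    rw [hR]
    have : b / 2 ≤ 2 * δ := by
      rw [hb]
      nlinarith
    linarith
  have hprop := prop d1 d2 hR0 hQ (M := M) (M1 := M / b) (x0 := x)
    (fun σ hσ => by rw [hPs (fun k t => um φ k t)]; exact f1 σ hσ)
    (fun σ hσ => by rw [hPs (fun k t => um φx k t)]; exact f2 σ hσ) hxx
  rw [add_sub_cancel, hPs (fun k t => um φ k t)] at hprop
  have h1 : TT K (fun k => um φ k x') (y' + (0 : ℝ) * I) = φ x' y' := by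
    rw [Complex.ofReal_zero, zero_mul, add_zero]
    exact (inversion h hper x' (hinv x') y').symm
  rw [h1, Complex.norm_real, Real.norm_eq_abs] at hprop
  refine hprop.trans ?_
  have h2 : R * (M / b) = M * ((A + 2) / (4 * β)) := by
    rw [hR, hb]
    field_simp
  have h3 : 2 * Q * R ^ 2 ≤ 2 * κ ^ 2 * (A + 2) ^ 2 := by
    have : 2 * Q * R ^ 2 = 2 * (Q * δ ^ 2) * (A + 2) ^ 2 := by
      rw [hR]
      ring
    rw [this]
    gcongr
  rw [h2]
  calc 2 * (M + M * ((A + 2) / (4 * β))) * Real.exp (2 * Q * R ^ 2 + 1)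
      ≤ 2 * (M + M * ((A + 2) / (4 * β))) * Real.exp (2 * κ ^ 2 * (A + 2) ^ 2 + 1) := by gcongr
    _ = S * (8 * Real.sqrt C1 * (1 + (A + 2) / (4 * β)) *
      Real.exp (2 * κ ^ 2 * (A + 2) ^ 2 + 2 + κ * (A + 2)) * Real.exp (Dc * G)) := by
        rw [hM, hm]
        have e3 : Real.exp (Dc * G + 1 + κ * (A + 2)) * Real.exp (2 * κ ^ 2 * (A + 2) ^ 2 + 1) =
            Real.exp (2 * κ ^ 2 * (A + 2) ^ 2 + 2 + κ * (A + 2)) * Real.exp (Dc * G) := by
          rw [← Real.exp_add, ← Real.exp_add]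
          congr 1
          ring
        linear_combination (8 * Real.sqrt C1 * S * (1 + (A + 2) / (4 * β))) * e3

end local_

end Pool.Agent.Y291.DB
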