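import Pool.Agent.Y291.DB.Cacc

/-!
# Fourier modes in the angle
-/

set_option linter.unusedSectionVars false
set_option linter.unusedVariables false

namespace Pool.Agent.Y291.DB

open MeasureTheory Complex Real

open scoped ComplexConjugate

/-- Differentiation under the integral sign. -/
theorem diff_int {G G' : ℝ → ℝ → ℂ} (hG : Continuous (Function.uncurry G))
    (hG' : Continuous (Function.uncurry G')) (hd : ∀ x y, HasDerivAt (fun t => G t y) (G' x y) x)
    (a b x : ℝ) : HasDerivAt (fun x => ∫ y in a..b, G x y) (∫ y in a..b, G' x y) x := by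
  have hK : IsCompact (Metric.closedBall x 1 ×ˢ Set.uIcc a b) :=
    (isCompact_closedBall x 1).prod isCompact_uIcc
  obtain ⟨C, hC⟩ := hK.exists_bound_of_continuousOn hG'.continuousOn
  have hsec : ∀ x, Continuous (G x) := fun x => hG.comp (Continuous.prodMk_right x)
  have hsec' : ∀ x, Continuous (G' x) := fun x => hG'.comp (Continuous.prodMk_right x)
  refine (intervalIntegral.hasDerivAt_integral_of_dominated_loc_of_deriv_le (F := G) (F' := G')
    (bound := fun _ => C) (Metric.closedBall_mem_nhds x one_pos) ?_ ?_ ?_ ?_ ?_ ?_).2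
  · exact Filter.Eventually.of_forall fun x => (hsec x).aestronglyMeasurable
  · exact (hsec x).intervalIntegrable _ _
  · exact (hsec' x).aestronglyMeasurable
  · refine Filter.Eventually.of_forall fun y hy x' hx' => ?_
    exact hC (x', y) ⟨hx', Set.uIoc_subset_uIcc hy⟩
  · exact intervalIntegrable_const
  · exact Filter.Eventually.of_forall fun y hy x' hx' => hd x' y

/-- The exponential. -/
noncomputable def ek (k : ℤ) (y : ℝ) : ℂ := Complex.exp (-(k * y * I))

theorem ek_cont (k : ℤ) : Continuous (ek k) := by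
  unfold ek
  fun_prop

theorem ek_deriv (k : ℤ) (y : ℝ) : HasDerivAt (ek k) (-(k * I) * ek k y) y := by
  unfold ek
  have h1 : HasDerivAt (fun y : ℝ => -((k : ℂ) * (y : ℂ) * I)) (-((k : ℂ) * 1 * I)) y :=
    (((Complex.ofRealCLM.hasDerivAt (x := y)).const_mul (k : ℂ)).mul_const I).neg
  have h2 := h1.cexp
  convert! h2 using 1
  ring

theorem ek_per (k : ℤ) (y : ℝ) : ek k (y + 2 * π) = ek k y := by
  unfold ek
  rw [show -((k : ℂ) * ((y + 2 * π : ℝ) : ℂ) * I) = -((k : ℂ) * y * I) + ((-k : ℤ) : ℂ) * (2 * π * I) by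
    push_cast
    ring, Complex.exp_add, Complex.exp_int_mul_two_pi_mul_I, mul_one]

/-- The Fourier modes. -/
noncomputable def um (φ : ℝ → ℝ → ℝ) (k : ℤ) (x : ℝ) : ℂ :=
  (1 / (2 * π) : ℝ) * ∫ y in (0 : ℝ)..(2 * π), (φ x y : ℂ) * ek k y

theorem um_deriv {F F' : ℝ → ℝ → ℝ} (hF : Continuous (Function.uncurry F))
    (hF' : Continuous (Function.uncurry F'))
    (hd : ∀ x y, HasDerivAt (fun t => F t y) (F' x y) x) (k : ℤ) (x : ℝ) :
    HasDerivAt (um F k) (um F' k x) x := by
  unfold um
  refine HasDerivAt.const_mul _ ?_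
  have hek := ek_cont k
  refine diff_int (G := fun x y => (F x y : ℂ) * ek k y) (G' := fun x y => (F' x y : ℂ) * ek k y)
    ?_ ?_ (fun x y => ?_) 0 (2 * π) x
  · exact (Complex.continuous_ofReal.comp hF).mul (hek.comp continuous_snd)
  · exact (Complex.continuous_ofReal.comp hF').mul (hek.comp continuous_snd)
  · exact (hd x y).ofReal_comp.mul_const _

section sol

variable {q : ℝ → ℝ} {φ φx φxx φy φyy : ℝ → ℝ → ℝ} (h : Sol q φ φx φxx φy φyy)
  (hper : ∀ x y, φ x (y + 2 * π) = φ x y)

include h hper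

theorem per_y : ∀ x y, φy x (y + 2 * π) = φy x y := by
  intro x y
  have h1 : HasDerivAt (fun t => φ x (t + 2 * π)) (φy x (y + 2 * π)) y :=
    (h.dy x (y + 2 * π)).comp_add_const y (2 * π)
  have h2 : (fun t => φ x (t + 2 * π)) = fun t => φ x t := funext fun t => hper x t
  rw [h2] at h1
  exact h1.unique (h.dy x y)

theorem parts (k : ℤ) (x : ℝ) :
    ∫ y in (0 : ℝ)..(2 * π), ((φyy x y : ℂ) + (k : ℂ) ^ 2 * φ x y) * ek k y = 0 := by
  have hd : ∀ y ∈ Set.uIcc 0 (2 * π), HasDerivAt
      (fun y => ((φy x y : ℂ) + (k * I) * φ x y) * ek k y)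
      (((φyy x y : ℂ) + (k : ℂ) ^ 2 * φ x y) * ek k y) y := by
    intro y _
    have h1 := ((h.dyy x y).ofReal_comp.add ((h.dy x y).ofReal_comp.const_mul (k * I))).mul
      (ek_deriv k y)
    convert! h1 using 1
    have hI : I * I = -1 := Complex.I_mul_I
    simp only [Pi.add_apply]
    linear_combination ((k : ℂ) ^ 2 * φ x y * ek k y) * hI
  have hek := ek_cont k
  have c1 : Continuous fun y => (φ x y : ℂ) :=
    Complex.continuous_ofReal.comp (h.c.comp (Continuous.prodMk_right x))
  have c2 : Continuous fun y => (φyy x y : ℂ) :=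
    Complex.continuous_ofReal.comp (h.cyy.comp (Continuous.prodMk_right x))
  rw [intervalIntegral.integral_eq_sub_of_hasDerivAt hd
    (Continuous.intervalIntegrable (by fun_prop) _ _)]
  have e1 := hper x 0
  have e2 := per_y h hper x 0
  have e3 := ek_per k 0
  rw [zero_add] at e1 e2 e3
  rw [e1, e2, e3, sub_self]

theorem um_ode (k : ℤ) (x : ℝ) :
    um φxx k x = (((k : ℝ) ^ 2 - q x : ℝ) : ℂ) * um φ k x := by
  have hek := ek_cont k
  have c1 : Continuous fun y => (φ x y : ℂ) :=
    Complex.continuous_ofReal.comp (h.c.comp (Continuous.prodMk_right x))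
  have c2 : Continuous fun y => (φyy x y : ℂ) :=
    Complex.continuous_ofReal.comp (h.cyy.comp (Continuous.prodMk_right x))
  unfold um
  rw [mul_left_comm]
  congr 1
  have h1 := parts h hper k x
  have h2 : ∫ y in (0 : ℝ)..(2 * π), (φxx x y : ℂ) * ek k y =
      (∫ y in (0 : ℝ)..(2 * π), (((k : ℝ) ^ 2 - q x : ℝ) : ℂ) * ((φ x y : ℂ) * ek k y)) -
      ∫ y in (0 : ℝ)..(2 * π), ((φyy x y : ℂ) + (k : ℂ) ^ 2 * φ x y) * ek k y := by
    rw [← intervalIntegral.integral_sub (Continuous.intervalIntegrable (by fun_prop) _ _)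
      (Continuous.intervalIntegrable (by fun_prop) _ _)]
    refine intervalIntegral.integral_congr fun y _ => ?_
    have h3 : φxx x y = -(q x * φ x y) - φyy x y := by linarith [h.pde x y]
    simp only [h3]
    push_cast
    ring
  rw [h2, h1, sub_zero, intervalIntegral.integral_const_mul]

theorem um_d1 (k : ℤ) (x : ℝ) : HasDerivAt (um φ k) (um φx k x) x :=
  um_deriv h.c h.cx h.dx k x

theorem um_d2 (k : ℤ) (x : ℝ) :
    HasDerivAt (um φx k) ((((k : ℝ) ^ 2 - q x : ℝ) : ℂ) * um φ k x) x := by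
  rw [← um_ode h hper]
  exact um_deriv h.cx h.cxx h.dxx k x

/-- High modes vanish. -/
theorem um_zero {L Q : ℝ} (hL : 0 < L) (hperx : ∀ x y, φ (x + L) y = φ x y)
    (hQ : ∀ x, q x ≤ Q) {k : ℤ} (hk : Q < (k : ℝ) ^ 2) (x : ℝ) : um φ k x = 0 := by
  have hperx' : ∀ x y, φx (x + L) y = φx x y := by
    intro x y
    have h1 : HasDerivAt (fun t => φ (t + L) y) (φx (x + L) y) x :=
      (h.dx (x + L) y).comp_add_const x L
    have h2 : (fun t => φ (t + L) y) = fun t => φ t y := funext fun t => hperx t y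
    rw [h2] at h1
    exact h1.unique (h.dx x y)
  have p1 : ∀ x, um φ k (x + L) = um φ k x := by
    intro x
    unfold um
    congr 1
    exact intervalIntegral.integral_congr fun y _ => by simp only [hperx]
  have p2 : ∀ x, um φx k (x + L) = um φx k x := by
    intro x
    unfold um
    congr 1
    exact intervalIntegral.integral_congr fun y _ => by simp only [hperx']
  set g : ℝ → ℝ := fun x => (um φ k x * conj (um φx k x)).re with hg
  have hre : ∀ (f : ℝ → ℂ) (f' : ℂ) (x : ℝ), HasDerivAt f f' x →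
      HasDerivAt (fun t => (f t).re) f'.re x ∧ HasDerivAt (fun t => (f t).im) f'.im x := by
    intro f f' x hf
    exact ⟨Complex.reCLM.hasFDerivAt.comp_hasDerivAt x hf,
      Complex.imCLM.hasFDerivAt.comp_hasDerivAt x hf⟩
  have hgeq : ∀ x, g x = (um φ k x).re * (um φx k x).re + (um φ k x).im * (um φx k x).im := by
    intro x
    simp only [hg, Complex.mul_re, Complex.conj_re, Complex.conj_im]
    ring
  have hgd : ∀ x, HasDerivAt g (‖um φx k x‖ ^ 2 + ((k : ℝ) ^ 2 - q x) * ‖um φ k x‖ ^ 2) x := by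
    intro x
    obtain ⟨a1, a2⟩ := hre _ _ _ (um_d1 h hper k x)
    obtain ⟨a3, a4⟩ := hre _ _ _ (um_d2 h hper k x)
    have h1 := (a1.mul a3).add (a2.mul a4)
    have h2 : g = (fun t => (um φ k t).re) * (fun t => (um φx k t).re) +
        (fun t => (um φ k t).im) * (fun t => (um φx k t).im) := by
      funext t
      exact hgeq t
    rw [h2]
    convert! h1 using 1
    rw [← Complex.normSq_eq_norm_sq, ← Complex.normSq_eq_norm_sq, Complex.normSq_apply,
      Complex.normSq_apply, Complex.re_ofReal_mul, Complex.im_ofReal_mul]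
    ring
  have hmono : Monotone g := by
    refine monotone_of_deriv_nonneg (fun x => (hgd x).differentiableAt) fun x => ?_
    rw [(hgd x).deriv]
    have h1 : 0 ≤ (k : ℝ) ^ 2 - q x := by linarith [hQ x]
    positivity
  have hgper : ∀ x, g (x + L) = g x := by
    intro x
    simp only [hg, p1, p2]
  have hconst : ∀ y ∈ Set.Ioo x (x + L), g y = g x := by
    intro y hy
    refine le_antisymm ?_ (hmono hy.1.le)
    rw [← hgper x]
    exact hmono hy.2.le
  have hz : ∀ y ∈ Set.Ioo x (x + L), um φ k y = 0 := by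
    intro y hy
    have h1 : HasDerivAt g 0 y := by
      refine (hasDerivAt_const y (g x)).congr_of_eventuallyEq ?_
      filter_upwards [Ioo_mem_nhds hy.1 hy.2] with z hz using hconst z hz
    have h2 := (hgd y).unique h1
    have h3 : 0 < (k : ℝ) ^ 2 - q y := by linarith [hQ y]
    have h4 : ((k : ℝ) ^ 2 - q y) * ‖um φ k y‖ ^ 2 = 0 := by
      have : 0 ≤ ((k : ℝ) ^ 2 - q y) * ‖um φ k y‖ ^ 2 := by positivity
      nlinarith [sq_nonneg ‖um φx k y‖]
    rcases mul_eq_zero.1 h4 with h5 | h5
    · exact absurd h5 h3.ne'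
    · exact norm_eq_zero.1 (pow_eq_zero_iff two_ne_zero |>.1 h5)
  -- continuity at the end point
  have hc : Continuous (um φ k) :=
    continuous_iff_continuousAt.2 fun t => (um_d1 h hper k t).continuousAt
  have hcl : IsClosed {t | um φ k t = 0} := isClosed_eq hc continuous_const
  have hsub : closure (Set.Ioo x (x + L)) ⊆ {t | um φ k t = 0} :=
    closure_minimal hz hcl
  rw [closure_Ioo (by linarith)] at hsub
  exact hsub (Set.left_mem_Icc.2 (by linarith))

/-- Fourier inversion. -/
theorem inversion {K : ℕ} (x : ℝ) (hK : ∀ k : ℤ, (K : ℤ) < |k| → um φ k x = 0) (y : ℝ) :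
    (φ x y : ℂ) = ∑ k ∈ Finset.Icc (-(K : ℤ)) K, um φ k x * Complex.exp (k * y * I) := by
  have : Fact (0 < 2 * π) := ⟨by positivity⟩
  have hper' : Function.Periodic (fun y => (φ x y : ℂ)) (2 * π) := fun y => by
    simp only [hper]
  have c1 : Continuous fun y => (φ x y : ℂ) :=
    Complex.continuous_ofReal.comp (h.c.comp (Continuous.prodMk_right x))
  have hcl : Continuous (hper'.lift) := c1.quotient_liftOn' _
  set f : C(AddCircle (2 * π), ℂ) := ⟨hper'.lift, hcl⟩ with hf
  have hfv : ∀ y : ℝ, f (y : AddCircle (2 * π)) = φ x y := fun y => hper'.lift_coe y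
  have hcoef : ∀ k : ℤ, fourierCoeff f k = um φ k x := by
    intro k
    rw [fourierCoeff_eq_intervalIntegral f k 0, zero_add]
    unfold um
    rw [Complex.real_smul]
    congr 1
    refine intervalIntegral.integral_congr fun y _ => ?_
    rw [hfv, fourier_coe_apply, smul_eq_mul, mul_comm]
    congr 1
    unfold ek
    congr 1
    push_cast
    field_simp
  have hsupp : ∀ k : ℤ, k ∉ Finset.Icc (-(K : ℤ)) K → fourierCoeff f k = 0 := by
    intro k hk
    rw [hcoef]
    refine hK k ?_
    rw [Finset.mem_Icc] at hk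
    by_contra h1
    exact hk (abs_le.1 (not_lt.1 h1))
  have hsum : Summable (fourierCoeff f) := summable_of_ne_finset_zero hsupp
  have h1 := has_pointwise_sum_fourier_series_of_summable hsum (y : AddCircle (2 * π))
  have h2 : HasSum (fun k : ℤ => fourierCoeff f k • fourier k (y : AddCircle (2 * π)))
      (∑ k ∈ Finset.Icc (-(K : ℤ)) K, fourierCoeff f k • fourier k (y : AddCircle (2 * π))) := by
    refine hasSum_sum_of_ne_finset_zero fun k hk => ?_
    rw [hsupp k hk, zero_smul]
  rw [hfv] at h1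
  rw [h1.unique h2]
  refine Finset.sum_congr rfl fun k _ => ?_
  rw [hcoef, fourier_coe_apply, smul_eq_mul]
  congr 2
  push_cast
  field_simp

/-- Fourier inversion for the derivative. -/
theorem inversion' {K : ℕ} (hK : ∀ x, ∀ k : ℤ, (K : ℤ) < |k| → um φ k x = 0) (x y : ℝ) :
    (φx x y : ℂ) = ∑ k ∈ Finset.Icc (-(K : ℤ)) K, um φx k x * Complex.exp (k * y * I) := by
  have h1 : HasDerivAt (fun t => (φ t y : ℂ)) (φx x y : ℂ) x := (h.dx x y).ofReal_comp
  have h2 : (fun t => (φ t y : ℂ)) = fun t =>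
      ∑ k ∈ Finset.Icc (-(K : ℤ)) K, um φ k t * Complex.exp (k * y * I) := by
    funext t
    exact inversion h hper t (hK t) y
  rw [h2] at h1
  have h3 : HasDerivAt (fun t => ∑ k ∈ Finset.Icc (-(K : ℤ)) K, um φ k t *
      Complex.exp (k * y * I)) (∑ k ∈ Finset.Icc (-(K : ℤ)) K, um φx k x *
      Complex.exp (k * y * I)) x :=
    HasDerivAt.fun_sum fun k _ => (um_d1 h hper k x).mul_const _
  exact h1.unique h3

end sol

end Pool.Agent.Y291.DB
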