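import Pool.Agent.Y291.DB.Root

/-!
# Growth of polynomials near the unit circle
-/

set_option linter.unusedSectionVars false
set_option linter.unusedVariables false

namespace Pool.Agent.Y291.DB

open MeasureTheory Complex Real

open scoped ComplexConjugate

variable {ι : Type*} [Fintype ι]

/-- The function that controls the growth. -/
noncomputable def Phi (δ : ℝ) (r : ι → ℂ) (y : ℝ) : ℝ :=
  δ * ‖∑ j, kk δ (Complex.exp (y * I)) (r j)‖ + ∑ j, gg δ (Complex.exp (y * I)) (r j)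

theorem Phi_nonneg {δ : ℝ} (hδ : 0 ≤ δ) (r : ι → ℂ) (y : ℝ) : 0 ≤ Phi δ r y :=
  add_nonneg (mul_nonneg hδ (norm_nonneg _)) (Finset.sum_nonneg fun j _ => gg_nonneg _ _ _)

theorem prod_exp_le {f : ι → ℂ} {g : ι → ℝ} (h : ∀ j, ‖f j‖ ≤ Real.exp (g j)) :
    ‖∏ j, f j‖ ≤ Real.exp (∑ j, g j) := by
  rw [norm_prod, Real.exp_sum]
  exact Finset.prod_le_prod (fun j _ => norm_nonneg _) fun j _ => h j

theorem le_prod_exp {f : ι → ℂ} {g : ι → ℝ} (h : ∀ j, Real.exp (g j) ≤ ‖f j‖) :
    Real.exp (∑ j, g j) ≤ ‖∏ j, f j‖ := by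
  rw [norm_prod, Real.exp_sum]
  exact Finset.prod_le_prod (fun j _ => (Real.exp_pos _).le) fun j _ => h j

theorem norm_exp_sub (y' y : ℝ) :
    ‖Complex.exp (y' * I) - Complex.exp (y * I)‖ ≤ |y' - y| := by
  have h2 : Complex.exp (y' * I) - Complex.exp (y * I) =
      (Complex.exp (I * (y' - y : ℝ)) - 1) * Complex.exp (y * I) := by
    rw [sub_mul, one_mul, ← Complex.exp_add]
    congr 2
    push_cast
    ring
  rw [h2, norm_mul, Complex.norm_exp_ofReal_mul_I, mul_one]
  exact Real.norm_exp_I_mul_ofReal_sub_one_le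

/-- A Remez type inequality: the growth of a polynomial near a point of the unit circle. -/
theorem remez {α β δ : ℝ} (hα : 1 ≤ α) (hβ0 : 0 < β) (hβ : β ≤ 1) (hδ0 : 0 < δ)
    (hδ : δ ≤ 1 / 2) (r : ι → ℂ) (y : ℝ) {m : ℝ} 
    (hG : volume {y' : ℝ | |y' - y| ≤ β * δ ∧ m < ‖∏ j, (Complex.exp (y' * I) - r j)‖} ≤
      ENNReal.ofReal (β * δ)) {w : ℂ} (hw : ‖w - Complex.exp (y * I)‖ ≤ α * δ) :
    ‖∏ j, (w - r j)‖ ≤
      m * Real.exp ((2 * α + 204 * α ^ 3 + 68 * α ^ 2 / β) * Phi δ r y + 1) := by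
  set E : ℂ := Complex.exp (y * I) with hE
  choose u l c hl0 hli hlint hup hlow using fun j => root hα hδ0 hδ (r j) y
  have hg0 : 0 ≤ ∑ j, gg δ E (r j) := Finset.sum_nonneg fun j _ => gg_nonneg _ _ _
  set M : ℝ := 68 * α ^ 2 / β * ∑ j, gg δ E (r j) + 1 with hM
  have hM0 : 0 < M := by positivity
  -- the exceptional set
  have hint : ∫ t, ∑ j, l j t ≤ 34 * α ^ 2 * δ * ∑ j, gg δ E (r j) := by
    rw [integral_finsetSum _ fun j _ => hli j, Finset.mul_sum]
    exact Finset.sum_le_sum fun j _ => hlint j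
  have hmk := mul_meas_ge_le_integral_of_nonneg (μ := volume) (f := fun t => ∑ j, l j t)
    (Filter.Eventually.of_forall fun t => Finset.sum_nonneg fun j _ => hl0 j t)
    (integrable_finsetSum _ fun j _ => hli j) M
  have hfin : volume {t | M ≤ ∑ j, l j t} ≤ ENNReal.ofReal (β * δ / 2) := by
    have hne : volume {t | M ≤ ∑ j, l j t} ≠ ⊤ := by
      have := (integrable_finsetSum Finset.univ fun j _ => hli j).measure_norm_ge_lt_top hM0
      refine (lt_of_le_of_lt (measure_mono fun t ht => ?_) this).ne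
      exact le_trans ht (Real.le_norm_self _)
    rw [← ENNReal.ofReal_toReal hne]
    refine ENNReal.ofReal_le_ofReal ?_
    change volume.real _ ≤ _
    have h1 : M * volume.real {t | M ≤ ∑ j, l j t} ≤ M * (β * δ / 2) := by
      refine (hmk.trans hint).trans ?_
      rw [hM]
      have h2 : (68 * α ^ 2 / β * ∑ j, gg δ E (r j) + 1) * (β * δ / 2) =
          34 * α ^ 2 * δ * ∑ j, gg δ E (r j) + β * δ / 2 := by
        field_simp
        ring
      rw [h2]
      have : 0 < β * δ / 2 := by positivity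
      linarith
    exact le_of_mul_le_mul_left h1 hM0
  obtain ⟨y', hy1, hy2, hy3, hy4⟩ : ∃ y' : ℝ, |y' - y| ≤ β * δ ∧
      ‖∏ j, (Complex.exp (y' * I) - r j)‖ ≤ m ∧ ∑ j, l j y' < M ∧ ∀ j, y' ≠ c j := by
    by_contra hcon
    push Not at hcon
    have hsub : Set.Icc (y - β * δ) (y + β * δ) ⊆
        ({y' : ℝ | |y' - y| ≤ β * δ ∧ m < ‖∏ j, (Complex.exp (y' * I) - r j)‖} ∪
        {t | M ≤ ∑ j, l j t}) ∪ Set.range c := by
      intro y' hy'
      have h1 : |y' - y| ≤ β * δ := by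
        rw [abs_le]
        constructor <;> linarith [hy'.1, hy'.2]
      by_cases h2 : ‖∏ j, (Complex.exp (y' * I) - r j)‖ ≤ m
      · by_cases h3 : ∑ j, l j y' < M
        · obtain ⟨j, hj⟩ := hcon y' h1 h2 h3
          exact Or.inr ⟨j, hj.symm⟩
        · exact Or.inl (Or.inr (not_lt.1 h3))
      · exact Or.inl (Or.inl ⟨h1, not_le.1 h2⟩)
    have h1 := measure_mono (μ := volume) hsub
    rw [Real.volume_Icc] at h1
    have h2 := h1.trans ((measure_union_le _ _).trans (add_le_add_left (measure_union_le _ _) _))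
    rw [(Set.finite_range c).measure_zero, add_zero] at h2
    have h3 := h2.trans (add_le_add hG hfin)
    rw [← ENNReal.ofReal_add (by positivity) (by positivity),
      ENNReal.ofReal_le_ofReal_iff (by positivity)] at h3
    have : 0 < β * δ := by positivity
    linarith
  have hEy : ‖Complex.exp (y' * I) - E‖ ≤ α * δ := by
    refine (norm_exp_sub y' y).trans (hy1.trans ?_)
    exact mul_le_mul_of_nonneg_right (hβ.trans hα) hδ0.le
  have hhalf : |y' - y| ≤ 1 / 2 := hy1.trans (by nlinarith)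
  have hk : ∀ v : ℂ, ‖v‖ ≤ α * δ → |(v * ∑ j, kk δ E (r j)).re| ≤
      α * (δ * ‖∑ j, kk δ E (r j)‖) := by
    intro v hv
    refine (Complex.abs_re_le_norm _).trans ?_
    rw [norm_mul, ← mul_assoc]
    exact mul_le_mul_of_nonneg_right hv (norm_nonneg _)
  have hupper := prod_exp_le fun j => hup j w hw
  have hlower := le_prod_exp fun j => hlow j y' hhalf hEy (hy4 j)
  have e1 : ∑ j, (u j + ((w - E) * kk δ E (r j)).re + 102 * α ^ 3 * gg δ E (r j)) =
      ∑ j, u j + ((w - E) * ∑ j, kk δ E (r j)).re + 102 * α ^ 3 * ∑ j, gg δ E (r j) := by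
    rw [Finset.sum_add_distrib, Finset.sum_add_distrib, Finset.mul_sum, Finset.mul_sum,
      Complex.re_sum]
  have e2 : ∑ j, (u j + ((Complex.exp (y' * I) - E) * kk δ E (r j)).re -
      102 * α ^ 3 * gg δ E (r j) - l j y') =
      ∑ j, u j + ((Complex.exp (y' * I) - E) * ∑ j, kk δ E (r j)).re -
      102 * α ^ 3 * ∑ j, gg δ E (r j) - ∑ j, l j y' := by
    rw [Finset.sum_sub_distrib, Finset.sum_sub_distrib, Finset.sum_add_distrib, Finset.mul_sum,
      Finset.mul_sum, Complex.re_sum]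
  rw [e1] at hupper
  rw [e2] at hlower
  have k1 := (abs_le.1 (hk _ hw)).2
  have k2 := (abs_le.1 (hk _ hEy)).1
  have hm := hlower.trans hy2
  refine hupper.trans ?_
  refine le_trans ?_ (mul_le_mul_of_nonneg_right hm (Real.exp_pos _).le)
  rw [← Real.exp_add]
  apply Real.exp_le_exp.2
  unfold Phi
  rw [← hE]
  set A := δ * ‖∑ j, kk δ E (r j)‖ with hA
  set B := ∑ j, gg δ E (r j) with hB
  have hA0 : 0 ≤ A := by positivity
  have p1 : 0 ≤ (204 * α ^ 3 + 68 * α ^ 2 / β) * A := by positivity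
  have p2 : 0 ≤ 2 * α * B := by positivity
  have p3 : M = 68 * α ^ 2 / β * B + 1 := hM
  nlinarith

end Pool.Agent.Y291.DB
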