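import Pool.Agent.Y291.DB.Weak

/-!
# The contribution of one root to the growth of a polynomial on the unit circle
-/

set_option linter.unusedSectionVars false
set_option linter.unusedVariables false

namespace Pool.Agent.Y291.DB

open MeasureTheory Complex Real

open scoped ComplexConjugate

/-- The approximate logarithmic derivative of `w - r` at `E`. -/
noncomputable def kk (δ : ℝ) (E r : ℂ) : ℂ :=
  if 1 ≤ ‖r‖ then 1 / ((1 - δ) * E - r) else conj E * conj (1 / (1 - conj r * ((1 - δ) * E)))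

/-- The local density of a root. -/
noncomputable def gg (δ : ℝ) (E r : ℂ) : ℝ := δ ^ 2 / (δ ^ 2 + ‖E - r‖ ^ 2)

theorem gg_nonneg (δ : ℝ) (E r : ℂ) : 0 ≤ gg δ E r := by
  unfold gg
  positivity

section one

variable {δ : ℝ} {E r : ℂ}

theorem norm_out (hδ0 : 0 < δ) (hδ : δ ≤ 1 / 2) (hE : ‖E‖ = 1) (hr : 1 ≤ ‖r‖) :
    δ ≤ ‖(1 - δ) * E - r‖ := by
  have h1 : ‖(1 - δ : ℂ) * E‖ = 1 - δ := by
    rw [norm_mul, hE, mul_one, ← Complex.ofReal_one, ← Complex.ofReal_sub, Complex.norm_real,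
      Real.norm_of_nonneg (by linarith)]
  have h2 := norm_sub_norm_le r ((1 - δ : ℂ) * E)
  rw [h1, norm_sub_rev] at h2
  linarith

theorem norm_in (hδ0 : 0 < δ) (hδ : δ ≤ 1 / 2) (hE : ‖E‖ = 1) (hr : ‖r‖ ≤ 1) :
    δ ≤ ‖1 - conj r * ((1 - δ) * E)‖ := by
  have h1 : ‖conj r * ((1 - δ : ℂ) * E)‖ ≤ 1 - δ := by
    rw [norm_mul, norm_mul, hE, mul_one, ← Complex.ofReal_one, ← Complex.ofReal_sub,
      Complex.norm_real, Real.norm_of_nonneg (by linarith), RCLike.norm_conj]
    nlinarith [norm_nonneg r]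
  have h2 := norm_sub_norm_le (1 : ℂ) (conj r * ((1 - δ : ℂ) * E))
  rw [norm_one] at h2
  linarith

theorem kk_norm (hδ0 : 0 < δ) (hδ : δ ≤ 1 / 2) (hE : ‖E‖ = 1) : ‖kk δ E r‖ ≤ 1 / δ := by
  unfold kk
  split_ifs with hr
  · rw [norm_div, norm_one]
    exact one_div_le_one_div_of_le hδ0 (norm_out hδ0 hδ hE hr)
  · rw [norm_mul, RCLike.norm_conj, RCLike.norm_conj, hE, one_mul, norm_div, norm_one]
    exact one_div_le_one_div_of_le hδ0 (norm_in hδ0 hδ hE (not_le.1 hr).le)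

theorem norm_ext (hE : ‖E‖ = 1) : ‖1 - conj r * E‖ = ‖E - r‖ := by
  have h1 : (E - r) * conj E = conj (1 - conj r * E) := by
    have h2 : E * conj E = 1 := by
      rw [Complex.mul_conj, Complex.normSq_eq_norm_sq, hE]
      norm_num
    simp only [map_sub, map_one, map_mul, Complex.conj_conj]
    rw [sub_mul, h2]
  have h3 := congrArg norm h1
  rw [norm_mul, RCLike.norm_conj, RCLike.norm_conj, hE, mul_one] at h3
  exact h3.symm

theorem inv_ext (hE : ‖E‖ = 1) (h0 : E - r ≠ 0) :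
    1 / (E - r) = conj E * conj (1 / (1 - conj r * E)) := by
  have h2 : E * conj E = 1 := by
    rw [Complex.mul_conj, Complex.normSq_eq_norm_sq, hE]
    norm_num
  have h1 : conj (1 - conj r * E) = (E - r) * conj E := by
    simp only [map_sub, map_one, map_mul, Complex.conj_conj]
    rw [sub_mul, h2]
  have h3 : conj E ≠ 0 := by
    intro h
    rw [h, mul_zero] at h2
    exact zero_ne_one h2
  rw [map_div₀, map_one, h1]
  field_simp

theorem kk_close (hδ0 : 0 < δ) (hδ : δ ≤ 1 / 2) (hE : ‖E‖ = 1) (hr : 4 * δ ≤ ‖E - r‖) :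
    ‖1 / (E - r) - kk δ E r‖ ≤ 2 * δ / ‖E - r‖ ^ 2 := by
  have hp : 0 < ‖E - r‖ := by linarith
  have h0 : E - r ≠ 0 := norm_pos_iff.1 hp
  unfold kk
  split_ifs with hr1
  · have h1 : ‖E - r‖ / 2 ≤ ‖(1 - δ) * E - r‖ := by
      have h2 : (1 - δ) * E - r = (E - r) - δ * E := by ring
      rw [h2]
      have h3 := norm_sub_norm_le (E - r) (δ * E)
      rw [norm_mul, hE, mul_one, Complex.norm_real, Real.norm_of_nonneg hδ0.le] at h3
      linarith
    have h2 : (1 - δ) * E - r ≠ 0 := norm_pos_iff.1 (by linarith)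
    have h3 : 1 / (E - r) - 1 / ((1 - δ) * E - r) = -(δ * E) / ((E - r) * ((1 - δ) * E - r)) := by
      rw [div_sub_div _ _ h0 h2]
      congr 1
      ring
    rw [h3, norm_div, norm_neg, norm_mul, norm_mul, hE, mul_one, Complex.norm_real,
      Real.norm_of_nonneg hδ0.le, div_le_div_iff₀ (by positivity) (by positivity)]
    nlinarith [mul_le_mul_of_nonneg_left h1 hp.le, mul_pos hδ0 hp]
  · have h1 : ‖E - r‖ / 2 ≤ ‖1 - conj r * ((1 - δ) * E)‖ := by
      have h2 : 1 - conj r * ((1 - δ) * E) = (1 - conj r * E) + δ * (conj r * E) := by ring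
      rw [h2]
      have h3 := norm_sub_norm_le (1 - conj r * E) (-(δ * (conj r * E)))
      rw [norm_neg, norm_mul, norm_mul, hE, mul_one, Complex.norm_real,
        Real.norm_of_nonneg hδ0.le, RCLike.norm_conj, sub_neg_eq_add, norm_ext hE] at h3
      nlinarith [not_le.1 hr1, norm_nonneg r]
    have h2 : 1 - conj r * ((1 - δ) * E) ≠ 0 := norm_pos_iff.1 (by linarith)
    have h4 : 1 - conj r * E ≠ 0 := norm_pos_iff.1 (by rw [norm_ext hE]; exact hp)
    have h3 : 1 / (1 - conj r * E) - 1 / (1 - conj r * ((1 - δ) * E)) =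
        (conj r * (δ * E)) / ((1 - conj r * E) * (1 - conj r * ((1 - δ) * E))) := by
      rw [div_sub_div _ _ h4 h2]
      congr 1
      ring
    rw [inv_ext hE h0, ← mul_sub, ← map_sub, norm_mul, RCLike.norm_conj, RCLike.norm_conj, hE,
      one_mul, h3, norm_div, norm_mul, norm_mul, norm_mul, hE, mul_one, Complex.norm_real,
      Real.norm_of_nonneg hδ0.le, RCLike.norm_conj, norm_ext hE,
      div_le_div_iff₀ (by positivity) (by positivity)]
    have h5 : ‖r‖ * δ ≤ δ := by nlinarith [not_le.1 hr1, norm_nonneg r]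
    calc ‖r‖ * δ * ‖E - r‖ ^ 2 ≤ δ * ‖E - r‖ ^ 2 := by gcongr
      _ = 2 * δ * (‖E - r‖ * (‖E - r‖ / 2)) := by ring
      _ ≤ 2 * δ * (‖E - r‖ * ‖1 - conj r * ((1 - δ) * E)‖) := by gcongr

theorem norm_one_add {ξ : ℂ} (h : ‖ξ‖ ≤ 1 / 4) :
    ‖1 + ξ‖ ≤ Real.exp (ξ.re + ‖ξ‖ ^ 2) ∧ Real.exp (ξ.re - ‖ξ‖ ^ 2) ≤ ‖1 + ξ‖ := by
  have h0 : 1 + ξ ≠ 0 := by
    intro h0
    have h1 : ξ = -1 := by linear_combination h0
    rw [h1, norm_neg, norm_one] at h
    norm_num at h
  have h1 : ‖1 + ξ‖ = Real.exp (Complex.log (1 + ξ)).re := by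
    rw [← Complex.norm_exp, Complex.exp_log h0]
  have h2 := Complex.norm_log_one_add_sub_self_le (z := ξ) (by linarith)
  have h3 : (1 - ‖ξ‖)⁻¹ ≤ 2 := by
    rw [inv_le_comm₀ (by linarith) (by norm_num)]
    linarith
  have h4 : ‖Complex.log (1 + ξ) - ξ‖ ≤ ‖ξ‖ ^ 2 := by
    refine h2.trans ?_
    nlinarith [sq_nonneg ‖ξ‖]
  have h5 := (Complex.abs_re_le_norm _).trans h4
  rw [Complex.sub_re, abs_le] at h5
  rw [h1]
  exact ⟨Real.exp_le_exp.2 (by linarith), Real.exp_le_exp.2 (by linarith)⟩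

/-- The contribution of a root which is far away. -/
theorem far {α : ℝ} (hα : 1 ≤ α) (hδ0 : 0 < δ) (hδ : δ ≤ 1 / 2) (hE : ‖E‖ = 1)
    (hr : 4 * (α * δ) < ‖E - r‖) {w : ℂ} (hw : ‖w - E‖ ≤ α * δ) :
    ‖w - r‖ ≤ Real.exp (Real.log ‖E - r‖ + ((w - E) * kk δ E r).re + 6 * α ^ 2 * gg δ E r) ∧
    Real.exp (Real.log ‖E - r‖ + ((w - E) * kk δ E r).re - 6 * α ^ 2 * gg δ E r) ≤ ‖w - r‖ := by
  have hαδ : δ ≤ α * δ := by nlinarith
  have hp : 0 < ‖E - r‖ := by linarith
  have h0 : E - r ≠ 0 := norm_pos_iff.1 hp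
  set ξ : ℂ := (w - E) / (E - r) with hξ
  have hξ1 : ‖ξ‖ = ‖w - E‖ / ‖E - r‖ := norm_div _ _
  have hξ2 : ‖ξ‖ ≤ 1 / 4 := by
    rw [hξ1, div_le_iff₀ hp]
    linarith
  have hwr : w - r = (E - r) * (1 + ξ) := by
    rw [hξ]
    field_simp
    ring
  obtain ⟨h1, h2⟩ := norm_one_add hξ2
  have h3 : ‖w - r‖ = Real.exp (Real.log ‖E - r‖) * ‖1 + ξ‖ := by
    rw [hwr, norm_mul, Real.exp_log hp]
  have h4 : |ξ.re - ((w - E) * kk δ E r).re| ≤ α * δ * (2 * δ / ‖E - r‖ ^ 2) := by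
    have h5 : ξ - (w - E) * kk δ E r = (w - E) * (1 / (E - r) - kk δ E r) := by
      rw [hξ]
      ring
    rw [← Complex.sub_re, h5]
    refine (Complex.abs_re_le_norm _).trans ?_
    rw [norm_mul]
    exact mul_le_mul hw (kk_close hδ0 hδ hE (by linarith)) (norm_nonneg _) (by positivity)
  have h5 : ‖ξ‖ ^ 2 ≤ α ^ 2 * (δ ^ 2 / ‖E - r‖ ^ 2) := by
    rw [hξ1, div_pow, ← mul_div_assoc, ← mul_pow]
    gcongr
  have h6 : δ ^ 2 / ‖E - r‖ ^ 2 ≤ 2 * gg δ E r := by
    unfold gg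
    rw [← mul_div_assoc, div_le_div_iff₀ (by positivity) (by positivity)]
    have h7 : δ ^ 2 ≤ ‖E - r‖ ^ 2 := by
      refine pow_le_pow_left₀ hδ0.le (by linarith) 2
    nlinarith [sq_nonneg δ, mul_le_mul_of_nonneg_left h7 (sq_nonneg δ)]
  have h7 : α * δ * (2 * δ / ‖E - r‖ ^ 2) + α ^ 2 * (δ ^ 2 / ‖E - r‖ ^ 2) ≤
      6 * α ^ 2 * gg δ E r := by
    have h8 : α * δ * (2 * δ / ‖E - r‖ ^ 2) = 2 * α * (δ ^ 2 / ‖E - r‖ ^ 2) := by ring
    rw [h8]
    have h9 : 0 ≤ δ ^ 2 / ‖E - r‖ ^ 2 := by positivity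
    nlinarith [gg_nonneg δ E r, mul_le_mul_of_nonneg_left h6 (by positivity : (0 : ℝ) ≤ α ^ 2),
      mul_le_mul_of_nonneg_left h6 (by positivity : (0 : ℝ) ≤ α),
      mul_nonneg (by nlinarith : (0 : ℝ) ≤ α ^ 2 - α) (gg_nonneg δ E r)]
  rw [abs_le] at h4
  rw [h3]
  constructor
  · refine (mul_le_mul_of_nonneg_left h1 (Real.exp_pos _).le).trans ?_
    rw [← Real.exp_add]
    exact Real.exp_le_exp.2 (by linarith)
  · refine le_trans ?_ (mul_le_mul_of_nonneg_left h2 (Real.exp_pos _).le)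
    rw [← Real.exp_add]
    exact Real.exp_le_exp.2 (by linarith)

theorem near_gg {α : ℝ} (hα : 1 ≤ α) (hδ0 : 0 < δ) (hr : ‖E - r‖ ≤ 4 * (α * δ)) :
    1 ≤ 17 * α ^ 2 * gg δ E r := by
  unfold gg
  rw [← mul_div_assoc, le_div_iff₀ (by positivity), one_mul]
  have h1 : ‖E - r‖ ^ 2 ≤ (4 * (α * δ)) ^ 2 := pow_le_pow_left₀ (norm_nonneg _) hr 2
  have h2 : δ ^ 2 ≤ α ^ 2 * δ ^ 2 := by
    have : (1 : ℝ) ≤ α ^ 2 := by nlinarith
    nlinarith [sq_nonneg δ]
  nlinarith

/-- The upper bound for the contribution of a root which is near. -/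
theorem near_upper {α : ℝ} (hα : 1 ≤ α) (hδ0 : 0 < δ) (hδ : δ ≤ 1 / 2) (hE : ‖E‖ = 1)
    (hr : ‖E - r‖ ≤ 4 * (α * δ)) {w : ℂ} (hw : ‖w - E‖ ≤ α * δ) :
    ‖w - r‖ ≤ Real.exp (Real.log δ + ((w - E) * kk δ E r).re + 102 * α ^ 3 * gg δ E r) := by
  have h1 : ‖w - r‖ ≤ 5 * α * δ := by
    have h2 : w - r = (w - E) + (E - r) := by ring
    rw [h2]
    refine (norm_add_le _ _).trans ?_
    linarith
  have h2 : -α ≤ ((w - E) * kk δ E r).re := by
    have h3 : |((w - E) * kk δ E r).re| ≤ α := by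
      refine (Complex.abs_re_le_norm _).trans ?_
      rw [norm_mul]
      calc ‖w - E‖ * ‖kk δ E r‖ ≤ (α * δ) * (1 / δ) := by
            exact mul_le_mul hw (kk_norm hδ0 hδ hE) (norm_nonneg _) (by positivity)
        _ = α := by field_simp
    exact (abs_le.1 h3).1
  have h3 := near_gg hα hδ0 hr
  have h4 : 6 * α ≤ 102 * α ^ 3 * gg δ E r := by
    have : 102 * α ^ 3 * gg δ E r = 6 * α * (17 * α ^ 2 * gg δ E r) := by ring
    rw [this]
    nlinarith
  refine h1.trans ?_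
  have h5 : 5 * α ≤ Real.exp (5 * α) := by linarith [Real.add_one_le_exp (5 * α)]
  calc 5 * α * δ ≤ Real.exp (5 * α) * δ := by gcongr
    _ = Real.exp (5 * α + Real.log δ) := by rw [Real.exp_add, Real.exp_log hδ0]
    _ ≤ _ := Real.exp_le_exp.2 (by linarith)

end one

/-- The majorant of the logarithm. -/
noncomputable def ell (h t : ℝ) : ℝ :=
  Set.indicator (Set.Icc (-h) h) (fun t => |Real.log h - Real.log t|) t

theorem ell_nonneg (h t : ℝ) : 0 ≤ ell h t := by
  unfold ell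
  exact Set.indicator_nonneg (fun _ _ => abs_nonneg _) _

theorem le_of_ell {h t : ℝ} (hh : 0 < h) (ht : t ≠ 0) : h * Real.exp (-ell h t) ≤ |t| := by
  have h0 : 0 < |t| := abs_pos.2 ht
  unfold ell
  by_cases h1 : t ∈ Set.Icc (-h) h
  · rw [Set.indicator_of_mem h1]
    have h2 : Real.log t ≤ Real.log h := by
      rw [← Real.log_abs]
      exact Real.log_le_log h0 (abs_le.2 h1)
    rw [abs_of_nonneg (by linarith), neg_sub, ← Real.log_abs t, Real.exp_sub, Real.exp_log h0,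
      Real.exp_log hh]
    field_simp
    exact le_rfl
  · rw [Set.indicator_of_notMem h1, neg_zero, Real.exp_zero, mul_one]
    by_contra h2
    exact h1 (abs_le.1 (not_le.1 h2).le)

theorem ell_integrable {h : ℝ} (hh : 0 < h) : Integrable (ell h) := by
  unfold ell
  rw [integrable_indicator_iff measurableSet_Icc]
  have h1 : IntervalIntegrable (fun t => |Real.log h - Real.log t|) volume (-h) h :=
    (intervalIntegrable_const.sub intervalIntegral.intervalIntegrable_log').abs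
  rw [intervalIntegrable_iff_integrableOn_Icc_of_le (by linarith)] at h1
  exact h1

theorem ell_integral {h : ℝ} (hh : 0 < h) : ∫ t, ell h t = 2 * h := by
  unfold ell
  rw [integral_indicator measurableSet_Icc, integral_Icc_eq_integral_Ioc,
    ← intervalIntegral.integral_of_le (by linarith)]
  have h1 : ∫ t in (-h)..h, |Real.log h - Real.log t| = ∫ t in (-h)..h, (Real.log h - Real.log t) := by
    refine intervalIntegral.integral_congr_ae ?_
    have h2 : ∀ᵐ t : ℝ, t ≠ 0 := by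
      simp [ae_iff, measure_singleton]
    filter_upwards [h2] with t ht h3
    refine abs_of_nonneg ?_
    rw [Set.uIoc_of_le (by linarith)] at h3
    rw [← Real.log_abs t]
    have : Real.log |t| ≤ Real.log h :=
      Real.log_le_log (abs_pos.2 ht) (abs_le.2 ⟨h3.1.le, h3.2⟩)
    linarith
  rw [h1, intervalIntegral.integral_sub intervalIntegrable_const
    intervalIntegral.intervalIntegrable_log', integral_log, intervalIntegral.integral_const,
    Real.log_neg_eq_log, smul_eq_mul]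
  ring

theorem sin_quarter {t : ℝ} (ht : |t| ≤ π / 2 + 1 / 2) : |t| / 4 ≤ |Real.sin t| := by
  have hπ := Real.pi_gt_three
  have hπ' := Real.pi_lt_d2
  have key : ∀ s : ℝ, 0 ≤ s → s ≤ π / 2 + 1 / 2 → s / 4 ≤ Real.sin s := by
    intro s h0 h1
    by_cases h2 : s ≤ π / 2
    · have h3 := Real.mul_le_sin h0 h2
      refine le_trans ?_ h3
      have h4 : (1 : ℝ) / 4 ≤ 2 / π := by
        rw [div_le_div_iff₀ (by norm_num) (by positivity)]
        linarith
      calc s / 4 = 1 / 4 * s := by ring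
        _ ≤ 2 / π * s := by gcongr
    · have h3 := Real.mul_le_sin (x := π - s) (by linarith) (by linarith)
      rw [Real.sin_pi_sub] at h3
      refine le_trans ?_ h3
      have h4 : (3 : ℝ) / 5 ≤ 2 / π := by
        rw [div_le_div_iff₀ (by norm_num) (by positivity)]
        linarith
      have h5 : 3 / 5 * (π - s) ≤ 2 / π * (π - s) := by
        have : 0 ≤ π - s := by linarith
        gcongr
      linarith
  rcases le_total 0 t with h | h
  · rw [abs_of_nonneg h] at ht ⊢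
    exact (key t h ht).trans (le_abs_self _)
  · rw [abs_of_nonpos h] at ht ⊢
    have := key (-t) (by linarith) ht
    rw [Real.sin_neg] at this
    exact this.trans (neg_le_abs _)

theorem exists_center (r : ℂ) (y : ℝ) : ∃ c : ℝ, |y - c| ≤ π / 2 ∧
    ∀ y' : ℝ, |Real.sin (y' - c)| ≤ ‖Complex.exp (y' * I) - r‖ := by
  set k : ℤ := round ((y - Complex.arg r) / π) with hk
  refine ⟨Complex.arg r + k * π, ?_, fun y' => ?_⟩
  · have h1 := abs_sub_round ((y - Complex.arg r) / π)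
    rw [← hk] at h1
    have h2 : y - (Complex.arg r + k * π) = π * ((y - Complex.arg r) / π - k) := by
      field_simp
      ring
    rw [h2, abs_mul, abs_of_pos Real.pi_pos]
    nlinarith [Real.pi_pos]
  · have h1 : |Real.sin (y' - (Complex.arg r + k * π))| = |Real.sin (y' - Complex.arg r)| := by
      rw [← sub_sub, Real.sin_sub_int_mul_pi, abs_mul, abs_zpow, abs_neg, abs_one, one_zpow,
        one_mul]
    rw [h1]
    have h2 : Complex.exp (y' * I) - r =
        (Complex.exp ((y' - Complex.arg r : ℝ) * I) - ‖r‖) * Complex.exp (Complex.arg r * I) := by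
      rw [sub_mul, Complex.norm_mul_exp_arg_mul_I, ← Complex.exp_add]
      congr 2
      push_cast
      ring
    rw [h2, norm_mul, Complex.norm_exp_ofReal_mul_I, mul_one]
    have h3 := Complex.abs_im_le_norm (Complex.exp ((y' - Complex.arg r : ℝ) * I) - ‖r‖)
    rw [Complex.sub_im, Complex.ofReal_im, sub_zero, Complex.exp_ofReal_mul_I_im] at h3
    exact h3

/-- The contribution of a root. -/
theorem root {α δ : ℝ} (hα : 1 ≤ α) (hδ0 : 0 < δ) (hδ : δ ≤ 1 / 2) (r : ℂ) (y : ℝ) :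
    ∃ (u : ℝ) (l : ℝ → ℝ) (c : ℝ), (∀ t, 0 ≤ l t) ∧ Integrable l ∧
      ∫ t, l t ≤ 34 * α ^ 2 * δ * gg δ (Complex.exp (y * I)) r ∧
      (∀ w, ‖w - Complex.exp (y * I)‖ ≤ α * δ → ‖w - r‖ ≤ Real.exp (u +
        ((w - Complex.exp (y * I)) * kk δ (Complex.exp (y * I)) r).re +
        102 * α ^ 3 * gg δ (Complex.exp (y * I)) r)) ∧
      (∀ y' : ℝ, |y' - y| ≤ 1 / 2 → ‖Complex.exp (y' * I) - Complex.exp (y * I)‖ ≤ α * δ →
        y' ≠ c → Real.exp (u + ((Complex.exp (y' * I) - Complex.exp (y * I)) *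
          kk δ (Complex.exp (y * I)) r).re -
        102 * α ^ 3 * gg δ (Complex.exp (y * I)) r - l y') ≤ ‖Complex.exp (y' * I) - r‖) := by
  set E : ℂ := Complex.exp (y * I) with hEdef
  have hE : ‖E‖ = 1 := Complex.norm_exp_ofReal_mul_I y
  have hg := gg_nonneg δ E r
  by_cases hr : ‖E - r‖ ≤ 4 * (α * δ)
  · obtain ⟨c, hc1, hc2⟩ := exists_center r y
    refine ⟨Real.log δ, fun t => ell δ (t - c), c, fun t => ell_nonneg _ _,
      (ell_integrable hδ0).comp_sub_right c, ?_, fun w hw => near_upper hα hδ0 hδ hE hr hw,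
      fun y' h1 h2 h3 => ?_⟩
    · rw [integral_sub_right_eq_self (ell δ) c, ell_integral hδ0]
      have := near_gg hα hδ0 hr
      nlinarith
    · have h4 : |y' - c| ≤ π / 2 + 1 / 2 := by
        have : y' - c = (y' - y) + (y - c) := by ring
        rw [this]
        exact (abs_add_le _ _).trans (by linarith)
      have h5 := (sin_quarter h4).trans (hc2 y')
      refine le_trans ?_ h5
      have h6 := le_of_ell hδ0 (sub_ne_zero.2 h3)
      have h7 : ((Complex.exp (y' * I) - E) * kk δ E r).re ≤ α := by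
        refine (Complex.re_le_norm _).trans ?_
        rw [norm_mul]
        calc ‖Complex.exp (y' * I) - E‖ * ‖kk δ E r‖ ≤ (α * δ) * (1 / δ) := by
              exact mul_le_mul h2 (kk_norm hδ0 hδ hE) (norm_nonneg _) (by positivity)
          _ = α := by field_simp
      have h8 := near_gg hα hδ0 hr
      have h9 : 6 * α ≤ 102 * α ^ 3 * gg δ E r := by
        have : 102 * α ^ 3 * gg δ E r = 6 * α * (17 * α ^ 2 * gg δ E r) := by ring
        rw [this]
        nlinarith
      have h10 : Real.exp (-(5 : ℝ)) ≤ 1 / 4 := by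
        rw [Real.exp_neg, inv_eq_one_div]
        refine one_div_le_one_div_of_le (by norm_num) ?_
        linarith [Real.add_one_le_exp (5 : ℝ)]
      calc Real.exp (Real.log δ + ((Complex.exp (y' * I) - E) * kk δ E r).re -
            102 * α ^ 3 * gg δ E r - ell δ (y' - c))
          ≤ Real.exp (Real.log δ + (-ell δ (y' - c)) + (-5)) := by
            apply Real.exp_le_exp.2
            linarith
        _ = δ * Real.exp (-ell δ (y' - c)) * Real.exp (-5) := by
            rw [Real.exp_add, Real.exp_add, Real.exp_log hδ0]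
        _ ≤ |y' - c| * (1 / 4) := by gcongr
        _ = |y' - c| / 4 := by ring
  · rw [not_le] at hr
    have hC : 6 * α ^ 2 * gg δ E r ≤ 102 * α ^ 3 * gg δ E r := by
      refine mul_le_mul_of_nonneg_right ?_ hg
      nlinarith [mul_le_mul_of_nonneg_left hα (by positivity : (0 : ℝ) ≤ α ^ 2)]
    refine ⟨Real.log ‖E - r‖, fun _ => 0, 0, fun t => le_rfl, integrable_zero _ _ _, ?_,
      fun w hw => ?_, fun y' h1 h2 h3 => ?_⟩
    · rw [integral_zero]
      positivity
    · refine ((far hα hδ0 hδ hE hr hw).1).trans (Real.exp_le_exp.2 ?_)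
      linarith
    · refine le_trans (Real.exp_le_exp.2 ?_) (far hα hδ0 hδ hE hr h2).2
      linarith

end Pool.Agent.Y291.DB
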