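import Pool.Agent.Y291.DB.Remez

/-!
# The measure of the set of points with large growth
-/

set_option linter.unusedSectionVars false
set_option linter.unusedVariables false

namespace Pool.Agent.Y291.DB

open MeasureTheory Complex Real

open scoped ComplexConjugate

/-- The integral of the density of a root. -/
theorem gg_le {δ : ℝ} (hδ0 : 0 < δ) (r : ℂ) : ∃ c : ℝ, ∀ y : ℝ,
    gg δ (Complex.exp (y * I)) r ≤ δ ^ 2 / (δ ^ 2 + Real.sin (y - c) ^ 2) := by
  obtain ⟨c, -, hc⟩ := exists_center r 0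
  refine ⟨c, fun y => ?_⟩
  unfold gg
  have h1 : Real.sin (y - c) ^ 2 ≤ ‖Complex.exp (y * I) - r‖ ^ 2 := by
    rw [← sq_abs (Real.sin (y - c))]
    exact pow_le_pow_left₀ (abs_nonneg _) (hc y) 2
  gcongr

theorem sin_int {δ : ℝ} (hδ0 : 0 < δ) :
    ∫ t in (-(π / 2))..(π / 2), δ ^ 2 / (δ ^ 2 + Real.sin t ^ 2) ≤ π ^ 2 / 2 * δ := by
  have hπ := Real.pi_pos
  set d : ℝ := π / 2 * δ with hd
  have hd0 : 0 < d := by positivity
  have h1 : ∀ t ∈ Set.Icc (-(π / 2)) (π / 2), δ ^ 2 / (δ ^ 2 + Real.sin t ^ 2) ≤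
      (1 + (t / d) ^ 2)⁻¹ := by
    intro t ht
    have h2 := Real.mul_abs_le_abs_sin (x := t) (abs_le.2 ht)
    have h3 : (2 / π * |t|) ^ 2 ≤ Real.sin t ^ 2 := by
      rw [← sq_abs (Real.sin t)]
      exact pow_le_pow_left₀ (by positivity) h2 2
    rw [mul_pow, sq_abs] at h3
    have h4 : (1 + (t / d) ^ 2)⁻¹ = δ ^ 2 / (δ ^ 2 + (2 / π) ^ 2 * t ^ 2) := by
      rw [hd]
      field_simp
    rw [h4]
    gcongr
  have hc1 : Continuous fun t : ℝ => δ ^ 2 / (δ ^ 2 + Real.sin t ^ 2) := by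
    refine continuous_const.div (by fun_prop) fun t => ?_
    positivity
  have hint : Integrable fun t : ℝ => (1 + (t / d) ^ 2)⁻¹ := by
    have := integrable_inv_one_add_sq.comp_div hd0.ne'
    exact this
  have hc2 : Continuous fun t : ℝ => (1 + (t / d) ^ 2)⁻¹ := by
    refine Continuous.inv₀ (by fun_prop) fun t => ?_
    positivity
  refine (intervalIntegral.integral_mono_on (by linarith) (hc1.intervalIntegrable _ _)
    (hc2.intervalIntegrable _ _) h1).trans ?_
  rw [intervalIntegral.integral_of_le (by linarith)]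
  refine (setIntegral_le_integral hint (Filter.Eventually.of_forall fun t => by positivity)).trans ?_
  have h5 := MeasureTheory.Measure.integral_comp_div (fun x : ℝ => (1 + x ^ 2)⁻¹) d
  rw [h5, integral_univ_inv_one_add_sq, abs_of_pos hd0, smul_eq_mul, hd]
  linarith

theorem gg_cont {δ : ℝ} (hδ0 : 0 < δ) (r : ℂ) :
    Continuous fun y : ℝ => gg δ (Complex.exp (y * I)) r := by
  unfold gg
  refine continuous_const.div (by fun_prop) fun t => ?_
  positivity

theorem gg_int {δ : ℝ} (hδ0 : 0 < δ) (r : ℂ) :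
    ∫ y in (0 : ℝ)..(2 * π), gg δ (Complex.exp (y * I)) r ≤ π ^ 2 * δ := by
  have hπ := Real.pi_pos
  obtain ⟨c, hc⟩ := gg_le hδ0 r
  set f : ℝ → ℝ := fun t => δ ^ 2 / (δ ^ 2 + Real.sin t ^ 2) with hf
  have hfc : Continuous f := by
    refine continuous_const.div (by fun_prop) fun t => ?_
    positivity
  have hper : Function.Periodic f π := by
    intro t
    simp only [hf, Real.sin_add_pi, neg_sq]
  have hper2 : Function.Periodic f (2 * π) := by
    intro t
    simp only [hf, Real.sin_add_two_pi]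
  have h1 : ∫ y in (0 : ℝ)..(2 * π), gg δ (Complex.exp (y * I)) r ≤
      ∫ y in (0 : ℝ)..(2 * π), f (y - c) := by
    refine intervalIntegral.integral_mono_on (by positivity)
      ((gg_cont hδ0 r).intervalIntegrable _ _)
      ((hfc.comp (continuous_id.sub continuous_const)).intervalIntegrable _ _) fun y _ => hc y
  refine h1.trans ?_
  rw [intervalIntegral.integral_comp_sub_right f c]
  have h2 : ∫ y in (0 - c)..(2 * π - c), f y = ∫ y in (-(π / 2))..(-(π / 2) + 2 * π), f y := by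
    have := hper2.intervalIntegral_add_eq (0 - c) (-(π / 2))
    rw [← this]
    congr 1
    ring
  have h3 : ∫ y in (-(π / 2))..(-(π / 2) + 2 * π), f y =
      (∫ y in (-(π / 2))..(π / 2), f y) + ∫ y in (-(π / 2))..(π / 2), f y := by
    rw [← intervalIntegral.integral_add_adjacent_intervals (hfc.intervalIntegrable _ (π / 2))
      (hfc.intervalIntegrable _ _)]
    congr 1
    have := hper.intervalIntegral_add_eq (π / 2) (-(π / 2))
    rw [show -(π / 2) + π = π / 2 by ring] at this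
    rw [← this]
    congr 1
    ring
  rw [h2, h3]
  have := sin_int hδ0
  linarith

variable {ι : Type*} [Fintype ι]

open Classical in
/-- The sum of the approximate logarithmic derivatives in terms of the kernels. -/
theorem kk_sum {δ : ℝ} (hδ0 : 0 < δ) (hδ : δ ≤ 1 / 2) (r : ι → ℂ) (y : ℝ) :
    ‖∑ j, kk δ (Complex.exp (y * I)) (r j)‖ ≤ Fintype.card ι +
      ‖∑ j ∈ Finset.univ.filter (fun j => 1 ≤ ‖r j‖), (r j + 1 * circleMap 0 (1 - δ) y) /
        (r j - 1 * circleMap 0 (1 - δ) y)‖ +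
      ‖∑ j ∈ Finset.univ.filter (fun j => ¬ 1 ≤ ‖r j‖), (1 + conj (r j) * circleMap 0 (1 - δ) y) /
        (1 - conj (r j) * circleMap 0 (1 - δ) y)‖ := by
  set E : ℂ := Complex.exp (y * I) with hE
  have hE1 : ‖E‖ = 1 := Complex.norm_exp_ofReal_mul_I y
  have hw : circleMap 0 (1 - δ) y = (1 - δ) * E := by
    rw [circleMap, zero_add]
    push_cast
    rfl
  rw [hw]
  set w : ℂ := (1 - δ) * E with hwdef
  have hwn : ‖w‖ = 1 - δ := by
    rw [hwdef, norm_mul, hE1, mul_one, ← Complex.ofReal_one, ← Complex.ofReal_sub,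
      Complex.norm_real, Real.norm_of_nonneg (by linarith)]
  have hw0 : w ≠ 0 := norm_pos_iff.1 (by rw [hwn]; linarith)
  rw [← Finset.sum_filter_add_sum_filter_not Finset.univ (fun j => 1 ≤ ‖r j‖)]
  set So := Finset.univ.filter (fun j => 1 ≤ ‖r j‖) with hSo
  set Si := Finset.univ.filter (fun j => ¬ 1 ≤ ‖r j‖) with hSi
  set Ho := ∑ j ∈ So, (r j + 1 * w) / (r j - 1 * w) with hHo
  set Hi := ∑ j ∈ Si, (1 + conj (r j) * w) / (1 - conj (r j) * w) with hHi
  have h1 : ∑ j ∈ So, kk δ E (r j) = (So.card - Ho) / (2 * w) := by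
    rw [hHo, ← nsmul_one So.card, ← Finset.sum_const, ← Finset.sum_sub_distrib, Finset.sum_div]
    refine Finset.sum_congr rfl fun j hj => ?_
    have hj1 : 1 ≤ ‖r j‖ := (Finset.mem_filter.1 hj).2
    unfold kk
    rw [if_pos hj1, ← hwdef]
    have h2 : w - r j ≠ 0 := norm_pos_iff.1 (lt_of_lt_of_le hδ0 (norm_out hδ0 hδ hE1 hj1))
    have h3 : r j - 1 * w ≠ 0 := by
      rw [one_mul]
      intro h
      exact h2 (by linear_combination -h)
    have h4 : (1 : ℂ) - (r j + 1 * w) / (r j - 1 * w) = (-(2 * w)) / (r j - 1 * w) := by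
      rw [eq_div_iff h3, sub_mul, div_mul_cancel₀ _ h3]
      ring
    rw [h4, div_div, div_eq_div_iff h2 (mul_ne_zero h3 (mul_ne_zero two_ne_zero hw0))]
    ring
  have h2 : ∑ j ∈ Si, kk δ E (r j) = conj E * conj ((Si.card + Hi) / 2) := by
    rw [hHi, ← nsmul_one Si.card, ← Finset.sum_const, ← Finset.sum_add_distrib, Finset.sum_div,
      map_sum, Finset.mul_sum]
    refine Finset.sum_congr rfl fun j hj => ?_
    have hj1 : ¬ 1 ≤ ‖r j‖ := (Finset.mem_filter.1 hj).2
    unfold kk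
    rw [if_neg hj1, ← hwdef]
    have h2 : 1 - conj (r j) * w ≠ 0 :=
      norm_pos_iff.1 (lt_of_lt_of_le hδ0 (norm_in hδ0 hδ hE1 (not_le.1 hj1).le))
    congr 2
    rw [eq_div_iff two_ne_zero, div_mul_eq_mul_div, div_eq_iff h2, add_mul,
      div_mul_cancel₀ _ h2]
    ring
  have hcard : (So.card : ℝ) + Si.card = Fintype.card ι := by
    rw [hSo, hSi]
    exact_mod_cast Finset.card_filter_add_card_filter_not (s := Finset.univ) (fun j => 1 ≤ ‖r j‖)
  have h3 : ‖((So.card : ℂ) - Ho) / (2 * w)‖ ≤ So.card + ‖Ho‖ := by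
    rw [norm_div, norm_mul, hwn, Complex.norm_ofNat]
    have h4 : ‖(So.card : ℂ) - Ho‖ ≤ So.card + ‖Ho‖ := by
      refine (norm_sub_le _ _).trans ?_
      rw [Complex.norm_natCast]
    rw [div_le_iff₀ (by linarith)]
    have h5 : 0 ≤ (So.card : ℝ) + ‖Ho‖ := by positivity
    nlinarith
  have h4 : ‖conj E * conj (((Si.card : ℂ) + Hi) / 2)‖ ≤ Si.card + ‖Hi‖ := by
    rw [norm_mul, RCLike.norm_conj, RCLike.norm_conj, hE1, one_mul, norm_div, Complex.norm_ofNat]
    have h4 : ‖(Si.card : ℂ) + Hi‖ ≤ Si.card + ‖Hi‖ := by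
      refine (norm_add_le _ _).trans ?_
      rw [Complex.norm_natCast]
    have h5 : 0 ≤ (Si.card : ℝ) + ‖Hi‖ := by positivity
    linarith
  rw [h1, h2]
  refine (norm_add_le _ _).trans ?_
  linarith

/-- The measure of the set where the growth is large. -/
theorem slice {δ κ s : ℝ} (hδ0 : 0 < δ) (hδ : δ ≤ 1 / 2) (r : ι → ℂ)
    (hκ : Fintype.card ι * δ ≤ κ) (hs : 0 < s) :
    volume {y : ℝ | y ∈ Set.Ioc 0 (2 * π) ∧ s ≤ Phi δ r y} ≤ ENNReal.ofReal (200 * κ / s) := by
  classical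
  have hπ := Real.pi_pos
  have hπ4 := Real.pi_lt_four
  have hκ0 : 0 ≤ κ := le_trans (by positivity) hκ
  set So := Finset.univ.filter (fun j => 1 ≤ ‖r j‖) with hSo
  set Si := Finset.univ.filter (fun j => ¬ 1 ≤ ‖r j‖) with hSi
  have hSo1 : (So.card : ℝ) * δ ≤ κ := by
    refine le_trans (mul_le_mul_of_nonneg_right ?_ hδ0.le) hκ
    exact_mod_cast Finset.card_le_univ So
  have hSi1 : (Si.card : ℝ) * δ ≤ κ := by
    refine le_trans (mul_le_mul_of_nonneg_right ?_ hδ0.le) hκ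
    exact_mod_cast Finset.card_le_univ Si
  set A1 : Set ℝ := {y : ℝ | y ∈ Set.Ioc 0 (2 * π) ∧ s / 4 ≤ κ} with hA1
  set A2 : Set ℝ := {y : ℝ | y ∈ Set.Ioc 0 (2 * π) ∧ s / (4 * δ) ≤ ‖∑ j ∈ So,
    (r j + 1 * circleMap 0 (1 - δ) y) / (r j - 1 * circleMap 0 (1 - δ) y)‖} with hA2
  set A3 : Set ℝ := {y : ℝ | y ∈ Set.Ioc 0 (2 * π) ∧ s / (4 * δ) ≤ ‖∑ j ∈ Si,
    (1 + conj (r j) * circleMap 0 (1 - δ) y) / (1 - conj (r j) * circleMap 0 (1 - δ) y)‖} with hA3
  set A4 : Set ℝ := {y : ℝ | s / 4 ≤ ∑ j, gg δ (Complex.exp (y * I)) (r j)} ∩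
    Set.Ioc 0 (2 * π) with hA4
  have hsub : {y : ℝ | y ∈ Set.Ioc 0 (2 * π) ∧ s ≤ Phi δ r y} ⊆ ((A1 ∪ A2) ∪ A3) ∪ A4 := by
    rintro y ⟨hy, hy2⟩
    by_contra hcon
    simp only [Set.mem_union, not_or] at hcon
    obtain ⟨⟨⟨h1, h2⟩, h3⟩, h4⟩ := hcon
    have g1 : κ < s / 4 := by
      by_contra h
      exact h1 ⟨hy, not_lt.1 h⟩
    have g2 := not_le.1 fun h => h2 ⟨hy, h⟩
    have g3 := not_le.1 fun h => h3 ⟨hy, h⟩
    have g4 : ∑ j, gg δ (Complex.exp (y * I)) (r j) < s / 4 := by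
      by_contra h
      exact h4 ⟨not_lt.1 h, hy⟩
    have g5 := kk_sum hδ0 hδ r y
    rw [lt_div_iff₀ (by positivity)] at g2 g3
    unfold Phi at hy2
    have g6 := mul_le_mul_of_nonneg_left g5 hδ0.le
    nlinarith
  refine (measure_mono hsub).trans ?_
  have m1 : volume A1 ≤ ENNReal.ofReal (8 * π * κ / s) := by
    by_cases h : s / 4 ≤ κ
    · have : A1 ⊆ Set.Ioc 0 (2 * π) := fun y hy => hy.1
      refine (measure_mono this).trans ?_
      rw [Real.volume_Ioc]
      refine ENNReal.ofReal_le_ofReal ?_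
      rw [sub_zero, le_div_iff₀ hs]
      nlinarith
    · have : A1 = ∅ := Set.eq_empty_iff_forall_notMem.2 fun y hy => h hy.2
      rw [this, measure_empty]
      exact zero_le
  have hbnd : ∀ n : ℝ, n * δ ≤ κ → 4 * π * n / (s / (4 * δ)) ≤ 16 * π * κ / s := by
    intro n hn
    have : 4 * π * n / (s / (4 * δ)) = 16 * π * (n * δ) / s := by
      field_simp
      ring
    rw [this]
    gcongr
  have m2 : volume A2 ≤ ENNReal.ofReal (16 * π * κ / s) := by
    refine (weak_sum So r (fun _ => 1) (fun j hj h0 => ?_) (fun j hj => ?_)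
      (by linarith) (by linarith) (by positivity)).trans
      (ENNReal.ofReal_le_ofReal (hbnd _ hSo1))
    · have := (Finset.mem_filter.1 hj).2
      rw [h0, norm_zero] at this
      linarith
    · rw [norm_one]
      exact (Finset.mem_filter.1 hj).2
  have m3 : volume A3 ≤ ENNReal.ofReal (16 * π * κ / s) := by
    refine (weak_sum Si (fun _ => 1) (fun j => conj (r j)) (fun j hj => one_ne_zero)
      (fun j hj => ?_) (by linarith) (by linarith) (by positivity)).trans
      (ENNReal.ofReal_le_ofReal (hbnd _ hSi1))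
    rw [norm_one, RCLike.norm_conj]
    exact (not_le.1 (Finset.mem_filter.1 hj).2).le
  have hgc : Continuous fun y : ℝ => ∑ j, gg δ (Complex.exp (y * I)) (r j) :=
    continuous_finsetSum _ fun j _ => gg_cont hδ0 (r j)
  have m4 : volume A4 ≤ ENNReal.ofReal (4 * π ^ 2 * κ / s) := by
    have hmeas : MeasurableSet {y : ℝ | s / 4 ≤ ∑ j, gg δ (Complex.exp (y * I)) (r j)} :=
      (isClosed_le continuous_const hgc).measurableSet
    have hmk := mul_meas_ge_le_integral_of_nonneg (μ := volume.restrict (Set.Ioc 0 (2 * π)))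
      (f := fun y : ℝ => ∑ j, gg δ (Complex.exp (y * I)) (r j))
      (Filter.Eventually.of_forall fun θ => Finset.sum_nonneg fun j _ => gg_nonneg _ _ _)
      ((hgc.integrableOn_Icc (a := 0) (b := 2 * π)).mono_set Set.Ioc_subset_Icc_self) (s / 4)
    have hint : ∫ y in Set.Ioc 0 (2 * π), ∑ j, gg δ (Complex.exp (y * I)) (r j) ≤ π ^ 2 * κ := by
      rw [← intervalIntegral.integral_of_le (by positivity), intervalIntegral.integral_finsetSum
        fun j _ => (gg_cont hδ0 (r j)).intervalIntegrable _ _]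
      refine (Finset.sum_le_sum fun j _ => gg_int hδ0 (r j)).trans ?_
      rw [Finset.sum_const, Finset.card_univ, nsmul_eq_mul]
      nlinarith [sq_nonneg π]
    rw [hA4, ← Measure.restrict_apply hmeas]
    have hne : (volume.restrict (Set.Ioc 0 (2 * π)))
      {y : ℝ | s / 4 ≤ ∑ j, gg δ (Complex.exp (y * I)) (r j)} ≠ ⊤ := measure_ne_top _ _
    rw [← ENNReal.ofReal_toReal hne]
    refine ENNReal.ofReal_le_ofReal ?_
    change (volume.restrict (Set.Ioc 0 (2 * π))).real _ ≤ _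
    rw [le_div_iff₀ hs]
    linarith
  refine (measure_union_le _ _).trans ((add_le_add ((measure_union_le _ _).trans
    (add_le_add ((measure_union_le _ _).trans (add_le_add m1 m2)) m3)) m4).trans ?_)
  rw [← ENNReal.ofReal_add (by positivity) (by positivity),
    ← ENNReal.ofReal_add (by positivity) (by positivity),
    ← ENNReal.ofReal_add (by positivity) (by positivity)]
  refine ENNReal.ofReal_le_ofReal ?_
  rw [← add_div, ← add_div, ← add_div]
  refine div_le_div_of_nonneg_right ?_ hs.le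
  have hπd := Real.pi_lt_d2
  nlinarith [mul_nonneg hκ0 hπ.le, mul_le_mul_of_nonneg_right hπd.le hκ0,
    mul_le_mul_of_nonneg_left hπd.le (mul_nonneg hκ0 hπ.le)]

end Pool.Agent.Y291.DB
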