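import Mathlib

/-!
# A weak type bound for functions with positive real part
-/

set_option linter.unusedSectionVars false

namespace Pool.Agent.Y291.DB

open MeasureTheory Complex Real

theorem ratio_re {z : ℂ} {s : ℝ} : (z / (z + s)).re =
    (z.re * (z.re + s) + z.im * z.im) / Complex.normSq (z + s) := by
  rw [Complex.div_re]
  simp only [Complex.add_re, Complex.ofReal_re, Complex.add_im, Complex.ofReal_im, add_zero]
  ring

theorem re_ratio_nonneg {z : ℂ} {s : ℝ} (hz : 0 ≤ z.re) (hs : 0 < s) :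
    0 ≤ (z / (z + s)).re := by
  rw [ratio_re]
  refine div_nonneg ?_ (Complex.normSq_nonneg _)
  nlinarith [mul_nonneg hz hs.le, mul_self_nonneg z.re, mul_self_nonneg z.im]

theorem re_ratio_half {z : ℂ} {s : ℝ} (hz : 0 ≤ z.re) (hs : 0 < s) (h : s ≤ ‖z‖) :
    1 / 2 ≤ (z / (z + s)).re := by
  rw [ratio_re]
  have h1 : Complex.normSq (z + s) = (z.re + s) * (z.re + s) + z.im * z.im := by
    rw [Complex.normSq_apply]
    simp only [Complex.add_re, Complex.ofReal_re, Complex.add_im, Complex.ofReal_im, add_zero]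
  have h2 : s ^ 2 ≤ z.re * z.re + z.im * z.im := by
    rw [← Complex.normSq_apply, Complex.normSq_eq_norm_sq]
    exact pow_le_pow_left₀ hs.le h 2
  have h3 : 0 < Complex.normSq (z + s) := by
    rw [h1]
    nlinarith [mul_self_nonneg z.im]
  rw [le_div_iff₀ h3, h1]
  nlinarith [mul_nonneg hz hs.le]

theorem norm_add_ge {z : ℂ} {s : ℝ} (hz : 0 ≤ z.re) (hs : 0 < s) : s ≤ ‖z + s‖ := by
  have h1 := Complex.re_le_norm (z + s)
  rw [Complex.add_re, Complex.ofReal_re] at h1
  linarith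

/-- Weak type bound for analytic functions with nonnegative real part. -/
theorem weak_type {F : ℂ → ℂ} (hF : DifferentiableOn ℂ F (Metric.ball 0 1))
    (hre : ∀ w ∈ Metric.ball (0 : ℂ) 1, 0 ≤ (F w).re) {r s : ℝ} (hr0 : 0 ≤ r) (hr1 : r < 1)
    (hs : 0 < s) :
    volume {θ : ℝ | θ ∈ Set.Ioc 0 (2 * π) ∧ s ≤ ‖F (circleMap 0 r θ)‖} ≤
      ENNReal.ofReal (4 * π * ‖F 0‖ / s) := by
  set f : ℂ → ℂ := fun w => F w / (F w + s) with hf
  have hball : Metric.closedBall (0 : ℂ) |r| ⊆ Metric.ball 0 1 := by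
    rw [abs_of_nonneg hr0]
    exact Metric.closedBall_subset_ball hr1
  have hne : ∀ w ∈ Metric.ball (0 : ℂ) 1, F w + s ≠ 0 := by
    intro w hw h0
    have h1 := norm_add_ge (hre w hw) hs
    rw [h0, norm_zero] at h1
    linarith
  have hfd : DifferentiableOn ℂ f (Metric.ball 0 1) := by
    intro w hw
    exact (hF w hw).div ((hF w hw).add_const _) (hne w hw)
  have hcl : DiffContOnCl ℂ f (Metric.ball 0 |r|) := hfd.diffContOnCl_ball hball
  have hav : Real.circleAverage f 0 r = f 0 := hcl.circleAverage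
  have hmem : ∀ θ : ℝ, circleMap 0 r θ ∈ Metric.ball (0 : ℂ) 1 := by
    intro θ
    refine hball ?_
    rw [mem_closedBall_zero_iff, norm_circleMap_zero]
  have hcont : Continuous fun θ : ℝ => f (circleMap 0 r θ) :=
    hfd.continuousOn.comp_continuous (continuous_circleMap 0 r) hmem
  have hgc : Continuous fun θ : ℝ => (f (circleMap 0 r θ)).re := Complex.continuous_re.comp hcont
  have hint : ∫ θ in Set.Ioc 0 (2 * π), (f (circleMap 0 r θ)).re = 2 * π * (f 0).re := by
    rw [← intervalIntegral.integral_of_le (by positivity), ← hav, Real.circleAverage_def]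
    have h1 : ∫ θ in (0 : ℝ)..2 * π, (f (circleMap 0 r θ)).re =
        (∫ θ in (0 : ℝ)..2 * π, f (circleMap 0 r θ)).re := by
      have := (Complex.reCLM.intervalIntegral_comp_comm
        (hcont.intervalIntegrable (μ := volume) 0 (2 * π)))
      simpa using this
    rw [h1, Complex.smul_re, smul_eq_mul, ← mul_assoc, mul_inv_cancel₀ (by positivity), one_mul]
  have h0 : (f 0).re ≤ ‖F 0‖ / s := by
    refine (Complex.re_le_norm _).trans ?_
    rw [hf]
    simp only [norm_div]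
    have h1 := norm_add_ge (hre 0 (by simp)) hs
    gcongr
  have hmk := mul_meas_ge_le_integral_of_nonneg (μ := volume.restrict (Set.Ioc 0 (2 * π)))
    (f := fun θ : ℝ => (f (circleMap 0 r θ)).re)
    (Filter.Eventually.of_forall fun θ => re_ratio_nonneg (hre _ (hmem θ)) hs)
    ((hgc.integrableOn_Icc (a := 0) (b := 2 * π)).mono_set Set.Ioc_subset_Icc_self) (1 / 2)
  rw [hint] at hmk
  have hsub : {θ : ℝ | θ ∈ Set.Ioc 0 (2 * π) ∧ s ≤ ‖F (circleMap 0 r θ)‖} ⊆
      {θ : ℝ | 1 / 2 ≤ (f (circleMap 0 r θ)).re} ∩ Set.Ioc 0 (2 * π) := by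
    rintro θ ⟨h1, h2⟩
    exact ⟨re_ratio_half (hre _ (hmem θ)) hs h2, h1⟩
  have hmeas : MeasurableSet {θ : ℝ | 1 / 2 ≤ (f (circleMap 0 r θ)).re} :=
    (isClosed_le continuous_const hgc).measurableSet
  refine (measure_mono hsub).trans ?_
  rw [← Measure.restrict_apply hmeas]
  refine (ENNReal.ofReal_le_ofReal ?_).trans' (ENNReal.le_ofReal_iff_toReal_le ?_ ?_ |>.2 le_rfl)
  · change (volume.restrict (Set.Ioc 0 (2 * π))).real _ ≤ _
    have h2 : 4 * π * ‖F 0‖ / s = 2 * (2 * π * (‖F 0‖ / s)) := by ring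
    rw [h2]
    have h3 : 2 * π * (f 0).re ≤ 2 * π * (‖F 0‖ / s) := by gcongr
    linarith
  · exact measure_ne_top _ _
  · exact ENNReal.toReal_nonneg

/-- The family of kernels. -/
theorem kernel_re {a b w : ℂ} (ha : a ≠ 0) (hb : ‖b‖ ≤ ‖a‖) (hw : ‖w‖ < 1) :
    a - b * w ≠ 0 ∧ 0 ≤ ((a + b * w) / (a - b * w)).re := by
  have h1 : ‖b * w‖ < ‖a‖ := by
    rw [norm_mul]
    have h2 : 0 < ‖a‖ := norm_pos_iff.2 ha
    rcases eq_or_lt_of_le (norm_nonneg b) with h3 | h3
    · rw [← h3, zero_mul]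
      exact h2
    · nlinarith [norm_nonneg w]
  refine ⟨fun h0 => ?_, ?_⟩
  · rw [sub_eq_zero] at h0
    rw [← h0] at h1
    exact lt_irrefl _ h1
  · rw [Complex.div_re, ← add_div]
    refine div_nonneg ?_ (Complex.normSq_nonneg _)
    have h2 : ‖b * w‖ ^ 2 ≤ ‖a‖ ^ 2 := pow_le_pow_left₀ (norm_nonneg _) h1.le 2
    rw [← Complex.normSq_eq_norm_sq, ← Complex.normSq_eq_norm_sq, Complex.normSq_apply,
      Complex.normSq_apply] at h2
    simp only [Complex.add_re, Complex.sub_re, Complex.add_im, Complex.sub_im]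
    nlinarith

/-- Weak type bound for sums of kernels. -/
theorem weak_sum {ι : Type*} (S : Finset ι) (a b : ι → ℂ) (ha : ∀ j ∈ S, a j ≠ 0)
    (hb : ∀ j ∈ S, ‖b j‖ ≤ ‖a j‖) {r s : ℝ} (hr0 : 0 ≤ r) (hr1 : r < 1) (hs : 0 < s) :
    volume {θ : ℝ | θ ∈ Set.Ioc 0 (2 * π) ∧ s ≤
      ‖∑ j ∈ S, (a j + b j * circleMap 0 r θ) / (a j - b j * circleMap 0 r θ)‖} ≤
      ENNReal.ofReal (4 * π * S.card / s) := by
  have h1 := weak_type (F := fun w => ∑ j ∈ S, (a j + b j * w) / (a j - b j * w)) ?_ ?_ hr0 hr1 hs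
  · refine h1.trans (le_of_eq ?_)
    congr 3
    simp only [mul_zero, add_zero, sub_zero]
    rw [Finset.sum_congr rfl fun j hj => div_self (ha j hj), Finset.sum_const, nsmul_eq_mul,
      mul_one, Complex.norm_natCast]
  · refine DifferentiableOn.fun_sum fun j hj => ?_
    refine DifferentiableOn.div (by fun_prop) (by fun_prop) fun w hw => ?_
    exact (kernel_re (ha j hj) (hb j hj) (mem_ball_zero_iff.1 hw)).1
  · intro w hw
    rw [Complex.re_sum]
    exact Finset.sum_nonneg fun j hj =>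
      (kernel_re (ha j hj) (hb j hj) (mem_ball_zero_iff.1 hw)).2

end Pool.Agent.Y291.DB
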